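import Pool.Agent.W595.Plane.GeoProof

/-!
# The product `B` and the description of the cone over `M`
-/

set_option autoImplicit false

namespace Pool.Agent.W595.Plane

open scoped InnerProductSpace
open Set

variable {d : ℕ} {M V T : Type} [TopologicalSpace M] [AddCommGroup V] [Module ℝ V]
  [FiniteDimensional ℝ V] [AddCommGroup T] [Module ℝ T] [FiniteDimensional ℝ T]
  {D : TD d M V T}

namespace Frame

variable (F : Frame D)

theorem c_A (v : T) : (F.c (D.A F.p0 v)).1.2.1 = 0 ∧ (F.c (D.A F.p0 v)).1.2.2 = 0 ∧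
    (F.c (D.A F.p0 v)).2.1 = 0 := F.c_That (D.A_mem _ v)

/-- tangent coordinates -/
theorem exists_tau : ∃ τ : T ≃ₗ[ℝ] (Eu d × Eu d), ∀ v,
    τ v = ((F.c (D.A F.p0 v)).2.2.1, (F.c (D.A F.p0 v)).2.2.2) := by
  let τ0 : T →ₗ[ℝ] (Eu d × Eu d) :=
    (LinearMap.snd ℝ (Eu d) (Eu d × Eu d)) ∘ₗ
      (LinearMap.snd ℝ (ℝ × ℝ × ℝ) (Eu d × Eu d × Eu d)) ∘ₗ F.Ψ.symm.toLinearMap ∘ₗ D.A F.p0
  have hτ0 : ∀ v, τ0 v = ((F.c (D.A F.p0 v)).2.2.1, (F.c (D.A F.p0 v)).2.2.2) := fun v => rfl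
  have hinj : Function.Injective τ0 := by
    rw [injective_iff_map_eq_zero]
    intro v hv
    rw [hτ0] at hv
    have h1 : (F.c (D.A F.p0 v)).2.2.1 = 0 := congrArg Prod.fst hv
    have h2 : (F.c (D.A F.p0 v)).2.2.2 = 0 := congrArg Prod.snd hv
    obtain ⟨h3, h4, h5⟩ := F.c_A v
    have h6 : D.A F.p0 v = (F.c (D.A F.p0 v)).1.1 • D.hat F.p0 := by
      conv_lhs => rw [← F.Ψ_c (D.A F.p0 v)]
      conv_rhs => rw [← F.h0, ← map_smul]
      congr 1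
      refine Prod.ext (Prod.ext ?_ (Prod.ext ?_ ?_)) (Prod.ext ?_ (Prod.ext ?_ ?_))
      · simp
      · simp [h3]
      · simp [h4]
      · simp [h5]
      · simp [h1]
      · simp [h2]
    exact (D.imm F.p0 (-(F.c (D.A F.p0 v)).1.1) v (by
      rw [neg_smul, ← h6, neg_add_cancel])).2
  have hdim : Module.finrank ℝ T = Module.finrank ℝ (Eu d × Eu d) := by
    rw [D.dimT, Module.finrank_prod]
    simp only [finrank_euclideanSpace, Fintype.card_fin]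
    omega
  exact ⟨LinearEquiv.ofInjectiveOfFinrankEq τ0 hinj hdim, fun v => rfl⟩

/-- null property of the second fundamental form -/
theorem S_null (v : T) : D.Qx F.p0 (D.S F.p0 v v) (D.S F.p0 v v) = 0 := by
  have h1 := (D.L F.p0).S2 v
  change ((D.L F.p0).π (D.S F.p0 v v)).1 * ((D.L F.p0).π (D.S F.p0 v v)).1 -
    ⟪((D.L F.p0).π (D.S F.p0 v v)).2, ((D.L F.p0).π (D.S F.p0 v v)).2⟫_ℝ = 0
  rw [real_inner_self_eq_norm_sq, h1]
  ring

theorem c_S (v : T) :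
    (F.c (D.S F.p0 v v)).1.2.1 = 2 * ‖(F.c (D.A F.p0 v)).2.2.2‖ ^ 2 ∧
    (F.c (D.S F.p0 v v)).1.2.2 = 2 * ‖(F.c (D.A F.p0 v)).2.2.1‖ ^ 2 ∧
    ‖(F.c (D.S F.p0 v v)).2.1‖ ^ 2 = 4 * ‖(F.c (D.A F.p0 v)).2.2.1‖ ^ 2 *
      ‖(F.c (D.A F.p0 v)).2.2.2‖ ^ 2 := by
  obtain ⟨h3, h4, h5⟩ := F.c_A v
  have hq0 := F.q0_pos
  have hq1 := F.q1_pos
  have hq2 := F.q2_pos
  have h1 : D.Qx F.p2 (D.hat F.p0) (D.S F.p0 v v) = - D.Qx F.p2 (D.A F.p0 v) (D.A F.p0 v) :=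
    (D.L F.p2).Q_S F.p0 v
  have h2 : D.Qx F.p1 (D.hat F.p0) (D.S F.p0 v v) = - D.Qx F.p1 (D.A F.p0 v) (D.A F.p0 v) :=
    (D.L F.p1).Q_S F.p0 v
  rw [F.Q2c, F.Q2c (D.A F.p0 v), c0, h3, real_inner_self_eq_norm_sq] at h1
  rw [F.Q1c, F.Q1c (D.A F.p0 v), c0, h4, real_inner_self_eq_norm_sq] at h2
  simp only [zero_mul, one_mul, inner_zero_left, mul_zero, sub_zero, zero_add, add_zero,
    zero_sub] at h1 h2
  have e1 : (F.c (D.S F.p0 v v)).1.2.1 = 2 * ‖(F.c (D.A F.p0 v)).2.2.2‖ ^ 2 := by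
    have : D.Qx F.p2 (D.hat F.p0) (D.hat F.p1) * ((F.c (D.S F.p0 v v)).1.2.1 -
        2 * ‖(F.c (D.A F.p0 v)).2.2.2‖ ^ 2) = 0 := by linarith
    have := (mul_eq_zero.1 this).resolve_left hq2.ne'
    linarith
  have e2 : (F.c (D.S F.p0 v v)).1.2.2 = 2 * ‖(F.c (D.A F.p0 v)).2.2.1‖ ^ 2 := by
    have : D.Qx F.p1 (D.hat F.p0) (D.hat F.p2) * ((F.c (D.S F.p0 v v)).1.2.2 -
        2 * ‖(F.c (D.A F.p0 v)).2.2.1‖ ^ 2) = 0 := by linarith
    have := (mul_eq_zero.1 this).resolve_left hq1.ne'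
    linarith
  refine ⟨e1, e2, ?_⟩
  have h6 := F.S_null v
  rw [F.Q0c, e1, e2, real_inner_self_eq_norm_sq] at h6
  have := (mul_eq_zero.1 h6).resolve_left hq0.ne'
  linarith

/-- the product -/
theorem exists_B : ∃ (τ : T ≃ₗ[ℝ] (Eu d × Eu d)) (B : Eu d →ₗ[ℝ] Eu d →ₗ[ℝ] Eu d),
    (∀ v, τ v = ((F.c (D.A F.p0 v)).2.2.1, (F.c (D.A F.p0 v)).2.2.2)) ∧
    (∀ a b, ‖B a b‖ = ‖a‖ * ‖b‖) ∧
    (∀ v, (F.c (D.S F.p0 v v)).1.2.1 = 2 * ‖(τ v).2‖ ^ 2 ∧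
      (F.c (D.S F.p0 v v)).1.2.2 = 2 * ‖(τ v).1‖ ^ 2 ∧
      (F.c (D.S F.p0 v v)).2.1 = (2 : ℝ) • B (τ v).1 (τ v).2) := by
  obtain ⟨τ, hτ⟩ := F.exists_tau
  let B : Eu d →ₗ[ℝ] Eu d →ₗ[ℝ] Eu d := LinearMap.mk₂ ℝ
    (fun a b => (F.c (D.S F.p0 (τ.symm (a, 0)) (τ.symm (0, b)))).2.1)
    (fun a a' b => by
      have : ((a + a', 0) : Eu d × Eu d) = (a, 0) + (a', 0) := by simp
      rw [this, map_add, map_add, LinearMap.add_apply, c_add]
      rfl)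
    (fun r a b => by
      have : ((r • a, 0) : Eu d × Eu d) = r • (a, 0) := by simp
      rw [this, map_smul, map_smul, LinearMap.smul_apply, c_smul]
      rfl)
    (fun a b b' => by
      have : ((0, b + b') : Eu d × Eu d) = (0, b) + (0, b') := by simp
      rw [this, map_add, map_add, c_add]
      rfl)
    (fun r a b => by
      have : ((0, r • b) : Eu d × Eu d) = r • (0, b) := by simp
      rw [this, map_smul, map_smul, c_smul]
      rfl)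
  have hB : ∀ a b, B a b = (F.c (D.S F.p0 (τ.symm (a, 0)) (τ.symm (0, b)))).2.1 :=
    fun a b => rfl
  have hS : ∀ v, (F.c (D.S F.p0 v v)).1.2.1 = 2 * ‖(τ v).2‖ ^ 2 ∧
      (F.c (D.S F.p0 v v)).1.2.2 = 2 * ‖(τ v).1‖ ^ 2 ∧
      ‖(F.c (D.S F.p0 v v)).2.1‖ ^ 2 = 4 * ‖(τ v).1‖ ^ 2 * ‖(τ v).2‖ ^ 2 := by
    intro v
    rw [hτ v]
    exact F.c_S v
  have hSB : ∀ v, (F.c (D.S F.p0 v v)).2.1 = (2 : ℝ) • B (τ v).1 (τ v).2 := by
    intro v
    set v1 := τ.symm ((τ v).1, 0) with hv1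
    set v2 := τ.symm (0, (τ v).2) with hv2
    have hv : v = v1 + v2 := by
      apply τ.injective
      rw [map_add, hv1, hv2, LinearEquiv.apply_symm_apply, LinearEquiv.apply_symm_apply]
      simp
    have h1 : (F.c (D.S F.p0 v1 v1)).2.1 = 0 := by
      have h3 := (hS v1).2.2
      rw [hv1, LinearEquiv.apply_symm_apply] at h3
      simp only [norm_zero, zero_pow two_ne_zero, mul_zero] at h3
      exact norm_eq_zero.1 (pow_eq_zero_iff two_ne_zero |>.1 h3)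
    have h2 : (F.c (D.S F.p0 v2 v2)).2.1 = 0 := by
      have h3 := (hS v2).2.2
      rw [hv2, LinearEquiv.apply_symm_apply] at h3
      simp only [norm_zero, zero_pow two_ne_zero, mul_zero, zero_mul] at h3
      exact norm_eq_zero.1 (pow_eq_zero_iff two_ne_zero |>.1 h3)
    have h4 : D.S F.p0 v v = D.S F.p0 v1 v1 + D.S F.p0 v2 v2 + (2 : ℝ) • D.S F.p0 v1 v2 := by
      conv_lhs => rw [hv]
      rw [map_add (D.S F.p0) v1 v2, LinearMap.add_apply, map_add, map_add, D.symm F.p0 v2 v1,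
        two_smul]
      abel
    rw [h4, c_add, c_add, c_smul]
    simp only [Prod.snd_add, Prod.fst_add, Prod.smul_snd, Prod.smul_fst]
    rw [h1, h2, zero_add, zero_add, hB]
  refine ⟨τ, B, hτ, ?_, fun v => ⟨(hS v).1, (hS v).2.1, hSB v⟩⟩
  intro a b
  have h1 := (hS (τ.symm (a, b))).2.2
  rw [hSB, LinearEquiv.apply_symm_apply] at h1
  simp only at h1
  rw [norm_smul, mul_pow, Real.norm_eq_abs, abs_of_pos (by norm_num : (0 : ℝ) < 2)] at h1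
  have h2 : ‖B a b‖ ^ 2 = (‖a‖ * ‖b‖) ^ 2 := by
    rw [mul_pow]
    linarith
  exact (sq_eq_sq₀ (norm_nonneg _) (by positivity)).1 h2

/-- an element of the tangent space at `p0` which is also in the tangent space at `z` -/
theorem Q_S_zero {z : M} (hz : z ≠ F.p0) {r : ℝ} {w : T}
    (hu : r • D.hat F.p0 + D.A F.p0 w ∈ D.That z) :
    D.Qx F.p0 (D.hat z) (D.S F.p0 w w) = 0 := by
  obtain ⟨c, hc, hcX⟩ := D.Qx_prop hz
  have h1 : D.Qx z (D.hat F.p0) (D.S F.p0 w w) = - D.Qx z (D.A F.p0 w) (D.A F.p0 w) :=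
    (D.L z).Q_S F.p0 w
  have h2 : D.Qx z (D.A F.p0 w) (D.A F.p0 w) = 0 := by
    set Y := r • D.hat F.p0 + D.A F.p0 w with hY
    have e : D.A F.p0 w = Y - r • D.hat F.p0 := by rw [hY]; abel
    rw [e, map_sub (D.Qx z) Y, LinearMap.sub_apply, D.Qx_tang hu, map_sub _ Y, D.Qx_tang' hu,
      map_smul, map_smul, LinearMap.smul_apply, D.Qx_hat]
    simp
  rw [h2, neg_zero, hcX] at h1
  exact (mul_eq_zero.1 h1).resolve_left hc.ne'

theorem z_ne {z : M} (h : (F.c (D.hat z)).1.1 = 0) : z ≠ F.p0 := by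
  rintro rfl
  rw [c0] at h
  exact one_ne_zero h

/-- the key relation -/
theorem key_rel (τ : T ≃ₗ[ℝ] (Eu d × Eu d)) (B : Eu d →ₗ[ℝ] Eu d →ₗ[ℝ] Eu d)
    (hτ : ∀ v, τ v = ((F.c (D.A F.p0 v)).2.2.1, (F.c (D.A F.p0 v)).2.2.2))
    (hS : ∀ v, (F.c (D.S F.p0 v v)).1.2.1 = 2 * ‖(τ v).2‖ ^ 2 ∧
      (F.c (D.S F.p0 v v)).1.2.2 = 2 * ‖(τ v).1‖ ^ 2 ∧
      (F.c (D.S F.p0 v v)).2.1 = (2 : ℝ) • B (τ v).1 (τ v).2) (y : M) :
    (F.c (D.hat y)).1.1 • (F.c (D.hat y)).2.1 =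
      B (F.c (D.hat y)).2.2.1 (F.c (D.hat y)).2.2.2 := by
  by_cases hy : y = F.p0
  · rw [hy, c0]; simp
  obtain ⟨hx0, hx1, hx2, r0, r1, r2⟩ := F.rel y
  -- a point of the line at infinity
  have hex : ∃ w, 0 < D.Qx F.p0 (D.hat y) (D.hat w) := by
    by_contra hcon
    push Not at hcon
    exact D.Qx_ne hy (D.plus _ fun w _ => le_antisymm (hcon w) (D.Qx_nonneg _ _ _))
  obtain ⟨z, κ, hκ, hz0, hz⟩ := F.full0 (D.hat y) (D.Qx_hat _ _) hex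
  obtain ⟨hz1, hz2⟩ := F.rel_zero hz0
  have hzp := F.z_ne hz0
  by_cases hyz : y = z
  · subst hyz
    rw [hz0, hz1]; simp
  -- `Q_0(ẑ, ŷ) = 0`
  have e1 : ∀ X, D.Qx F.p0 (D.hat z) X = κ * D.Qx F.p0 (D.hat y) X := by
    intro X
    have : D.hat z = (D.hat z - κ • D.hat y) + κ • D.hat y := by abel
    rw [this, map_add, LinearMap.add_apply, D.Qx_tang hz, map_smul, LinearMap.smul_apply,
      zero_add, smul_eq_mul]
  obtain ⟨c, hc, hcX⟩ := D.Qx_prop hzp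
  have e2 : D.Qx z (D.hat F.p0) (D.hat y) = 0 := by
    have h1 := hcX
    have h2 := D.Qx_prop hzp.symm
    obtain ⟨c', hc', hcX'⟩ := h2
    have h3 := hcX' (D.hat y)
    rw [e1, D.Qx_hat, mul_zero] at h3
    exact (mul_eq_zero.1 h3.symm).resolve_left hc'.ne'
  obtain ⟨γ, hγ⟩ := (D.L z).exists_mem hzp.symm e2 (D.Qx_hat z y)
  set u : V := D.hat y - κ⁻¹ • D.hat z - γ • D.hat F.p0 with hu
  have hu0 : u ∈ D.That F.p0 := by
    have h1 : D.hat y - κ⁻¹ • D.hat z = (-κ⁻¹) • (D.hat z - κ • D.hat y) := by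
      rw [smul_sub, smul_smul, neg_mul, inv_mul_cancel₀ hκ.ne', neg_smul, neg_smul, one_smul]
      abel
    rw [hu, h1]
    exact (D.That F.p0).sub_mem ((D.That F.p0).smul_mem _ hz)
      ((D.That F.p0).smul_mem _ (D.hat_mem _))
  have huz : u ∈ D.That z := by
    have h1 : u = (D.hat y - γ • D.hat F.p0) - κ⁻¹ • D.hat z := by rw [hu]; abel
    rw [h1]
    exact (D.That z).sub_mem hγ ((D.That z).smul_mem _ (D.hat_mem _))
  obtain ⟨r, w, hrw⟩ := D.mem_That.1 hu0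
  rw [hrw] at huz
  have e3 := F.Q_S_zero hzp huz
  rw [e1] at e3
  have e4 : D.Qx F.p0 (D.hat y) (D.S F.p0 w w) = 0 := (mul_eq_zero.1 e3).resolve_left hκ.ne'
  obtain ⟨c', hc'⟩ := (D.L F.p0).exists_mem hy e4 (F.S_null w)
  obtain ⟨g1, g2, g3⟩ := F.c_That hc'
  obtain ⟨s1, s2, s3⟩ := hS w
  -- tangent coordinates of `w`
  have hA : D.A F.p0 w = D.hat y - κ⁻¹ • D.hat z - (γ + r) • D.hat F.p0 := by
    have : D.A F.p0 w = u - r • D.hat F.p0 := by rw [hrw]; abel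
    rw [this, hu, add_smul]
    abel
  have hτw : τ w = ((F.c (D.hat y)).2.2.1, (F.c (D.hat y)).2.2.2) := by
    rw [hτ, hA, c_sub, c_sub, c_smul, c_smul, c0]
    simp only [Prod.snd_sub, Prod.fst_sub, Prod.smul_snd, Prod.smul_fst, hz1, hz2, smul_zero,
      sub_zero]
  rw [hτw] at s1 s2 s3
  simp only at s1 s2 s3
  rw [c_sub, c_smul] at g1 g2 g3
  simp only [Prod.snd_sub, Prod.fst_sub, Prod.smul_snd, Prod.smul_fst, smul_eq_mul] at g1 g2 g3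
  rw [s1, ← r2] at g1
  rw [s2, ← r1] at g2
  rw [s3] at g3
  have hc2 : c' = 2 * (F.c (D.hat y)).1.1 := by
    by_contra hne
    have h1 : (F.c (D.hat y)).1.2.1 = 0 := by
      have : (2 * (F.c (D.hat y)).1.1 - c') * (F.c (D.hat y)).1.2.1 = 0 := by linarith
      exact (mul_eq_zero.1 this).resolve_left (sub_ne_zero.2 (Ne.symm hne))
    have h2 : (F.c (D.hat y)).1.2.2 = 0 := by
      have : (2 * (F.c (D.hat y)).1.1 - c') * (F.c (D.hat y)).1.2.2 = 0 := by linarith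
      exact (mul_eq_zero.1 this).resolve_left (sub_ne_zero.2 (Ne.symm hne))
    rw [h1, zero_mul] at r0
    have h3 : (F.c (D.hat y)).2.1 = 0 :=
      norm_eq_zero.1 (pow_eq_zero_iff two_ne_zero |>.1 r0.symm)
    apply D.Qx_ne hy
    refine LinearMap.ext fun X => ?_
    rw [F.Q0c, h1, h2, h3]
    simp
  rw [hc2, sub_eq_zero, mul_smul] at g3
  have h5 := smul_right_injective (Eu d) (two_ne_zero (α := ℝ)) g3
  exact h5.symm

/-- points of the line at infinity -/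
theorem exists_inf (ξ₁ ξ₂ : ℝ) (a₀ : Eu d) (h1 : 0 ≤ ξ₁) (h2 : 0 ≤ ξ₂)
    (h3 : ξ₁ ≠ 0 ∨ ξ₂ ≠ 0) (h4 : ξ₁ * ξ₂ = ‖a₀‖ ^ 2) :
    ∃ (z : M) (κ : ℝ), 0 < κ ∧ (F.c (D.hat z)).1.1 = 0 ∧
      D.hat z = κ • F.Ψ ((0, ξ₁, ξ₂), (a₀, 0, 0)) := by
  have hq := F.q0_pos
  obtain ⟨z, κ, hκ, hz0, hz⟩ := F.full0 (F.Ψ ((0, ξ₁, ξ₂), (a₀, 0, 0))) (by
    rw [F.Q0_eq, real_inner_self_eq_norm_sq, ← h4]
    simp only
    ring) (by
    rcases h3 with h | h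
    · refine ⟨F.p2, ?_⟩
      rw [F.Q0c, c_Ψ, c2]
      simp only [mul_one, mul_zero, inner_zero_right, sub_zero, add_zero]
      exact mul_pos hq (lt_of_le_of_ne h1 (Ne.symm h))
    · refine ⟨F.p1, ?_⟩
      rw [F.Q0c, c_Ψ, c1]
      simp only [mul_one, mul_zero, inner_zero_right, sub_zero, zero_add]
      exact mul_pos hq (lt_of_le_of_ne h2 (Ne.symm h)))
  refine ⟨z, κ, hκ, hz0, ?_⟩
  obtain ⟨hz1, hz2⟩ := F.rel_zero hz0
  obtain ⟨g1, g2, g3⟩ := F.c_That hz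
  rw [c_sub, c_smul, c_Ψ] at g1 g2 g3
  simp only [Prod.snd_sub, Prod.fst_sub, Prod.smul_snd, Prod.smul_fst, smul_eq_mul] at g1 g2 g3
  rw [← F.Ψ_c (D.hat z), ← map_smul]
  congr 1
  refine Prod.ext (Prod.ext ?_ (Prod.ext ?_ ?_)) (Prod.ext ?_ (Prod.ext ?_ ?_))
  · simp [hz0]
  · simp only [Prod.smul_fst, Prod.smul_snd, smul_eq_mul]; linarith
  · simp only [Prod.smul_fst, Prod.smul_snd, smul_eq_mul]; linarith
  · simp only [Prod.smul_fst, Prod.smul_snd]; exact sub_eq_zero.1 g3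
  · simp [hz1]
  · simp [hz2]

/-- affine points -/
theorem exists_aff (τ : T ≃ₗ[ℝ] (Eu d × Eu d)) (B : Eu d →ₗ[ℝ] Eu d →ₗ[ℝ] Eu d)
    (hτ : ∀ v, τ v = ((F.c (D.A F.p0 v)).2.2.1, (F.c (D.A F.p0 v)).2.2.2))
    (hS : ∀ v, (F.c (D.S F.p0 v v)).1.2.1 = 2 * ‖(τ v).2‖ ^ 2 ∧
      (F.c (D.S F.p0 v v)).1.2.2 = 2 * ‖(τ v).1‖ ^ 2 ∧
      (F.c (D.S F.p0 v v)).2.1 = (2 : ℝ) • B (τ v).1 (τ v).2) (a₁ a₂ : Eu d) :
    ∃ (m : M) (κ : ℝ), κ ≠ 0 ∧
      F.Ψ ((1, ‖a₂‖ ^ 2, ‖a₁‖ ^ 2), (B a₁ a₂, a₁, a₂)) = κ • D.hat m := by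
  set w := τ.symm (a₁, a₂) with hw
  have hτw : τ w = (a₁, a₂) := by rw [hw, LinearEquiv.apply_symm_apply]
  obtain ⟨s1, s2, s3⟩ := hS w
  rw [hτw] at s1 s2 s3
  simp only at s1 s2 s3
  by_cases hw0 : w = 0
  · rw [hw0, map_zero] at hτw
    have e1 : a₁ = 0 := (congrArg Prod.fst hτw).symm
    have e2 : a₂ = 0 := (congrArg Prod.snd hτw).symm
    refine ⟨F.p0, 1, one_ne_zero, ?_⟩
    rw [e1, e2, ← F.h0]
    simp
  -- the direction
  have hSn := F.S_null w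
  obtain ⟨z, κ, hκ, hz0, hz⟩ := F.full0 (D.S F.p0 w w) hSn (by
    by_contra hcon
    push Not at hcon
    have h1 := hcon F.p1
    have h2 := hcon F.p2
    have hq := F.q0_pos
    rw [F.Q0c, c1, s2] at h1
    rw [F.Q0c, c2, s1] at h2
    simp only [mul_one, mul_zero, inner_zero_right, sub_zero, zero_add, add_zero] at h1 h2
    have h3 : ‖a₁‖ ^ 2 ≤ 0 := by
      have := nonpos_of_mul_nonpos_right h1 hq
      linarith
    have h4 : ‖a₂‖ ^ 2 ≤ 0 := by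
      have := nonpos_of_mul_nonpos_right h2 hq
      linarith
    have h5 : a₁ = 0 := by
      have : ‖a₁‖ ^ 2 = 0 := le_antisymm h3 (by positivity)
      exact norm_eq_zero.1 (pow_eq_zero_iff two_ne_zero |>.1 this)
    have h6 : a₂ = 0 := by
      have : ‖a₂‖ ^ 2 = 0 := le_antisymm h4 (by positivity)
      exact norm_eq_zero.1 (pow_eq_zero_iff two_ne_zero |>.1 this)
    apply hw0
    rw [hw, h5, h6]
    exact map_zero _)
  obtain ⟨hz1, hz2⟩ := F.rel_zero hz0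
  have hzp := F.z_ne hz0
  obtain ⟨g1, g2, g3⟩ := F.c_That hz
  rw [c_sub, c_smul] at g1 g2 g3
  simp only [Prod.snd_sub, Prod.fst_sub, Prod.smul_snd, Prod.smul_fst, smul_eq_mul] at g1 g2 g3
  rw [s1] at g1
  rw [s2] at g2
  rw [s3] at g3
  -- `A w` modulo `p̂0` is tangent at `z`
  have e1 : D.Qx F.p0 (D.hat z) (D.S F.p0 w w) = 0 := by
    have : D.hat z = (D.hat z - κ • D.S F.p0 w w) + κ • D.S F.p0 w w := by abel
    rw [this, map_add, LinearMap.add_apply, D.Qx_tang hz, map_smul, LinearMap.smul_apply, hSn]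
    simp
  obtain ⟨c, hc, hcX⟩ := D.Qx_prop hzp
  have e2 : D.Qx z (D.hat F.p0) (D.S F.p0 w w) = 0 := by rw [hcX, e1, mul_zero]
  have e3 : D.Qx z (D.A F.p0 w) (D.A F.p0 w) = 0 := by
    have : D.Qx z (D.hat F.p0) (D.S F.p0 w w) = - D.Qx z (D.A F.p0 w) (D.A F.p0 w) :=
      (D.L z).Q_S F.p0 w
    linarith
  obtain ⟨γ, hγ⟩ := (D.L z).exists_mem hzp.symm ((D.L z).Q_A F.p0 w) e3
  set u : V := D.A F.p0 w - γ • D.hat F.p0 with hu
  have hu0 : u ∈ D.That F.p0 := (D.That F.p0).sub_mem (D.A_mem _ _)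
    ((D.That F.p0).smul_mem _ (D.hat_mem _))
  -- the point `X`
  set X : V := F.Ψ ((1, ‖a₂‖ ^ 2, ‖a₁‖ ^ 2), (B a₁ a₂, a₁, a₂)) with hX
  have hXeq : X = (1 - (F.c (D.A F.p0 w)).1.1 + γ) • D.hat F.p0 + (2 * κ)⁻¹ • D.hat z + u := by
    obtain ⟨k1, k2, k3⟩ := F.c_A w
    have k4 := hτ w
    rw [hτw] at k4
    have k5 : (F.c (D.A F.p0 w)).2.2.1 = a₁ := (congrArg Prod.fst k4).symm
    have k6 : (F.c (D.A F.p0 w)).2.2.2 = a₂ := (congrArg Prod.snd k4).symm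
    have k7 : X = (1 - (F.c (D.A F.p0 w)).1.1) • D.hat F.p0 + (2 * κ)⁻¹ • D.hat z +
        D.A F.p0 w := by
      rw [hX]
      rw [← F.Ψ_c ((1 - (F.c (D.A F.p0 w)).1.1) • D.hat F.p0 + (2 * κ)⁻¹ • D.hat z +
        D.A F.p0 w)]
      congr 1
      rw [c_add, c_add, c_smul, c_smul, c0]
      refine Prod.ext (Prod.ext ?_ (Prod.ext ?_ ?_)) (Prod.ext ?_ (Prod.ext ?_ ?_))
      · simp [hz0]
      · simp only [Prod.fst_add, Prod.snd_add, Prod.smul_fst, Prod.smul_snd, smul_eq_mul, k1]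
        have : (F.c (D.hat z)).1.2.1 = κ * (2 * ‖a₂‖ ^ 2) := by linarith
        rw [this]
        field_simp
        ring
      · simp only [Prod.fst_add, Prod.snd_add, Prod.smul_fst, Prod.smul_snd, smul_eq_mul, k2]
        have : (F.c (D.hat z)).1.2.2 = κ * (2 * ‖a₁‖ ^ 2) := by linarith
        rw [this]
        field_simp
        ring
      · simp only [Prod.fst_add, Prod.snd_add, Prod.smul_fst, Prod.smul_snd, k3, smul_zero,
          zero_add, add_zero]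
        rw [sub_eq_zero.1 g3, smul_smul, smul_smul]
        have : (2 * κ)⁻¹ * κ * 2 = 1 := by field_simp
        rw [this, one_smul]
      · simp [hz1, k5]
      · simp [hz2, k6]
    rw [k7, hu, add_smul]
    abel
  -- a third point
  obtain ⟨r, hr, hQr, hfr⟩ : ∃ r, D.Qx r (D.hat F.p0) (D.hat z) ≠ 0 ∧ D.Qx r X X = 0 ∧
      ∃ w, 0 < D.Qx r X (D.hat w) := by
    obtain ⟨-, -, -, t0, -, -⟩ := F.rel z
    by_cases h1 : (F.c (D.hat z)).1.2.2 = 0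
    · refine ⟨F.p2, ?_, ?_, F.p1, ?_⟩
      · rw [F.Q2c, c0]
        simp only [zero_mul, one_mul, inner_zero_left, mul_zero, sub_zero, add_zero]
        refine mul_ne_zero F.q2_pos.ne' fun h2 => ?_
        have h3 : (F.c (D.hat z)).2.1 = 0 := by
          rw [h2, zero_mul] at t0
          exact norm_eq_zero.1 (pow_eq_zero_iff two_ne_zero |>.1 t0.symm)
        apply D.Qx_ne hzp
        refine LinearMap.ext fun Y => ?_
        rw [F.Q0c, h1, h2, h3]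
        simp
      · rw [hX, F.Q2_eq, real_inner_self_eq_norm_sq]
        simp only
        ring
      · rw [hX, F.Q2c, c_Ψ, c1]
        simpa using F.q2_pos
    · refine ⟨F.p1, ?_, ?_, F.p2, ?_⟩
      · rw [F.Q1c, c0]
        simp only [zero_mul, one_mul, inner_zero_left, mul_zero, sub_zero, add_zero]
        exact mul_ne_zero F.q1_pos.ne' h1
      · rw [hX, F.Q1_eq, real_inner_self_eq_norm_sq]
        simp only
        ring
      · rw [hX, F.Q1c, c_Ψ, c2]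
        simpa using F.q1_pos
  obtain ⟨m, κ', hκ', hm1, hm2⟩ := D.full_null hr X hQr hfr
  -- `m̂` is in the span of `p̂0`, `ẑ` and the common tangent space
  obtain ⟨β, hβ⟩ := (D.L F.p0).exists_mem hzp hm1 (D.Qx_hat _ m)
  have e4 : D.Qx z (D.hat F.p0) (D.hat m) = 0 := by rw [hcX, hm1, mul_zero]
  obtain ⟨γ', hγ'⟩ := (D.L z).exists_mem hzp.symm e4 (D.Qx_hat _ m)
  set u' : V := D.hat m - β • D.hat z - γ' • D.hat F.p0 with hu'
  have hu'0 : u' ∈ D.That F.p0 := (D.That F.p0).sub_mem hβ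
    ((D.That F.p0).smul_mem _ (D.hat_mem _))
  have hu'z : u' ∈ D.That z := by
    have h1 : u' = (D.hat m - γ' • D.hat F.p0) - β • D.hat z := by rw [hu']; abel
    rw [h1]
    exact (D.That z).sub_mem hγ' ((D.That z).smul_mem _ (D.hat_mem _))
  -- the difference
  set α := γ' - κ' * (1 - (F.c (D.A F.p0 w)).1.1 + γ) with hα
  set β' := β - κ' * (2 * κ)⁻¹ with hβ'
  set u'' := u' - κ' • u with hu''
  have hdiff : D.hat m - κ' • X = α • D.hat F.p0 + β' • D.hat z + u'' := by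
    have h1 : D.hat m = γ' • D.hat F.p0 + β • D.hat z + u' := by rw [hu']; abel
    rw [h1, hXeq, hα, hβ', hu'', sub_smul, sub_smul, mul_smul, mul_smul, smul_add, smul_add]
    abel
  have hu''0 : u'' ∈ D.That F.p0 := (D.That F.p0).sub_mem hu'0 ((D.That F.p0).smul_mem _ hu0)
  have hu''z : u'' ∈ D.That z := (D.That z).sub_mem hu'z ((D.That z).smul_mem _ hγ)
  have hβ0 : β' = 0 := by
    have h1 : D.Qx r (D.hat F.p0) (D.hat m - κ' • X) = 0 := D.Qx_tang' hm2 _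
    rw [hdiff, map_add, map_add, map_smul, map_smul, D.Qx_hat, D.Qx_kill r F.p0 hu''0,
      smul_zero, zero_add, add_zero, smul_eq_mul] at h1
    exact (mul_eq_zero.1 h1).resolve_right hr
  have hα0 : α = 0 := by
    have h1 : D.Qx r (D.hat z) (D.hat m - κ' • X) = 0 := D.Qx_tang' hm2 _
    rw [hdiff, map_add, map_add, map_smul, map_smul, D.Qx_hat, D.Qx_kill r z hu''z,
      smul_zero, add_zero, add_zero, smul_eq_mul, D.Qx_symm] at h1
    exact (mul_eq_zero.1 h1).resolve_right hr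
  rw [hα0, hβ0, zero_smul, zero_smul, zero_add, zero_add] at hdiff
  have hzero : u'' = 0 := by
    rw [hdiff] at hm2
    exact D.triple' hr hm2 hu''0 hu''z
  rw [hzero, sub_eq_zero] at hdiff
  refine ⟨m, κ'⁻¹, inv_ne_zero hκ'.ne', ?_⟩
  rw [hdiff, smul_smul, inv_mul_cancel₀ hκ'.ne', one_smul]

end Frame

theorem geo_of_td {E : Type} [AddCommGroup E] [Module ℝ E] [FiniteDimensional ℝ E]
    (D : TD d M (ℝ × E) T) (f : M → E) (hf : ∀ m, D.hat m = ((1 : ℝ), f m)) : Geo d f := by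
  obtain ⟨F⟩ := exists_frame D
  obtain ⟨τ, B, hτ, hB, hS⟩ := F.exists_B
  refine ⟨F.Ψ, B, hB, ?_, ?_, ?_⟩
  · intro m
    obtain ⟨h0, h1, h2, r0, r1, r2⟩ := F.rel m
    refine ⟨(F.c (D.hat m)).1.1, (F.c (D.hat m)).1.2.1, (F.c (D.hat m)).1.2.2,
      (F.c (D.hat m)).2.1, (F.c (D.hat m)).2.2.1, (F.c (D.hat m)).2.2.2, ?_, h0, h1, h2, r0, r1,
      r2, F.key_rel τ B hτ hS m⟩
    rw [← hf]
    exact F.Ψ_c (D.hat m)
  · intro a₁ a₂
    obtain ⟨m, κ, hκ, h⟩ := F.exists_aff τ B hτ hS a₁ a₂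
    exact ⟨m, κ, hκ, by rw [h, hf]⟩
  · intro ξ₁ ξ₂ a₀ h1 h2 h3 h4
    obtain ⟨z, κ, hκ, -, hz⟩ := F.exists_inf ξ₁ ξ₂ a₀ h1 h2 h3 h4
    refine ⟨z, κ⁻¹, inv_ne_zero hκ.ne', ?_⟩
    rw [← hf, hz, smul_smul, inv_mul_cancel₀ hκ.ne', one_smul]

end Pool.Agent.W595.Plane
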