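import Pool.Agent.W595.Plane.TD

/-!
# Hurwitz theorem with isotopy for dimensions 4 and 8
-/

set_option autoImplicit false

namespace Pool.Agent.W595.Plane

open scoped Quaternion InnerProductSpace

namespace Hurwitz

variable {E : Type} [NormedAddCommGroup E] [InnerProductSpace ℝ E]

/-- unital composition product on a Euclidean space -/
structure CompAlg (m : E →ₗ[ℝ] E →ₗ[ℝ] E) (u : E) : Prop where
  norm_mul : ∀ x y, ‖m x y‖ = ‖x‖ * ‖y‖
  one_mul : ∀ x, m u x = x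
  mul_one : ∀ x, m x u = x
  norm_one : ‖u‖ = 1

/-- conjugation -/
noncomputable def cj (u x : E) : E := (2 * ⟪x, u⟫_ℝ) • u - x

namespace CompAlg

variable {m : E →ₗ[ℝ] E →ₗ[ℝ] E} {u : E} (h : CompAlg m u)

include h

theorem inner_one : ⟪u, u⟫_ℝ = 1 := by
  rw [real_inner_self_eq_norm_sq, h.norm_one]; norm_num

theorem inner_left (x y z : E) : ⟪m x y, m x z⟫_ℝ = ⟪x, x⟫_ℝ * ⟪y, z⟫_ℝ := by
  have h1 : ∀ y, ⟪m x y, m x y⟫_ℝ = ⟪x, x⟫_ℝ * ⟪y, y⟫_ℝ := fun y => by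
    simp only [real_inner_self_eq_norm_sq, h.norm_mul, mul_pow]
  have h2 := h1 (y + z)
  simp only [map_add, inner_add_left, inner_add_right, h1] at h2
  rw [real_inner_comm (m x y) (m x z), real_inner_comm y z] at h2
  linarith

theorem inner_right (x y z : E) : ⟪m x z, m y z⟫_ℝ = ⟪x, y⟫_ℝ * ⟪z, z⟫_ℝ := by
  have h1 : ∀ x, ⟪m x z, m x z⟫_ℝ = ⟪x, x⟫_ℝ * ⟪z, z⟫_ℝ := fun y => by
    simp only [real_inner_self_eq_norm_sq, h.norm_mul, mul_pow]
  have h2 := h1 (x + y)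
  simp only [map_add, LinearMap.add_apply, inner_add_left, inner_add_right, h1] at h2
  rw [real_inner_comm (m x z) (m y z), real_inner_comm x y] at h2
  linarith

theorem inner_four (x y z w : E) :
    ⟪m x z, m y w⟫_ℝ + ⟪m x w, m y z⟫_ℝ = 2 * ⟪x, y⟫_ℝ * ⟪z, w⟫_ℝ := by
  have h2 := h.inner_right x y (z + w)
  simp only [map_add, inner_add_left, inner_add_right, h.inner_right] at h2
  rw [real_inner_comm z w] at h2
  linarith

theorem adj_left (x y z : E) : ⟪m x y, z⟫_ℝ = ⟪y, m (cj u x) z⟫_ℝ := by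
  have h1 := h.inner_four x u y z
  rw [h.one_mul, h.one_mul] at h1
  simp only [cj, map_sub, map_smul, LinearMap.sub_apply, LinearMap.smul_apply, h.one_mul,
    inner_sub_right, inner_smul_right]
  rw [real_inner_comm (m x z) y]
  linarith

theorem adj_right (x y z : E) : ⟪m x y, z⟫_ℝ = ⟪x, m z (cj u y)⟫_ℝ := by
  have h1 := h.inner_four x z y u
  rw [h.mul_one, h.mul_one] at h1
  simp only [cj, map_sub, map_smul, h.mul_one,
    inner_sub_right, inner_smul_right]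
  linarith

omit h in
theorem cj_inner (x y : E) : ⟪cj u x, y⟫_ℝ = ⟪x, cj u y⟫_ℝ := by
  simp only [cj, inner_sub_left, inner_sub_right, inner_smul_left, inner_smul_right]
  rw [real_inner_comm y u]
  simp
  ring

theorem cj_cj (x : E) : cj u (cj u x) = x := by
  simp only [cj, inner_sub_left, inner_smul_left, h.inner_one]
  simp
  module

theorem cj_mul_mul (x y : E) : m (cj u x) (m x y) = ⟪x, x⟫_ℝ • y := by
  refine ext_inner_right ℝ fun z => ?_
  rw [h.adj_left, h.cj_cj, h.inner_left, inner_smul_left]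
  simp

theorem mul_cj_mul (x y : E) : m x (m (cj u x) y) = ⟪x, x⟫_ℝ • y := by
  have h1 := h.cj_mul_mul (cj u x) y
  rw [h.cj_cj, cj_inner, h.cj_cj] at h1
  exact h1

theorem mul_mul_cj (x y : E) : m (m y x) (cj u x) = ⟪x, x⟫_ℝ • y := by
  refine ext_inner_right ℝ fun z => ?_
  rw [h.adj_right, h.cj_cj, h.inner_right, inner_smul_left]
  simp [mul_comm]

omit h in
theorem cj_add (x y : E) : cj u (x + y) = cj u x + cj u y := by
  simp only [cj, inner_add_left]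
  module

theorem lin_left (x y z : E) : m x (m (cj u z) y) + m z (m (cj u x) y) = (2 * ⟪x, z⟫_ℝ) • y := by
  have h1 := h.mul_cj_mul (x + z) y
  simp only [cj_add, map_add, LinearMap.add_apply, h.mul_cj_mul, inner_add_left,
    inner_add_right] at h1
  rw [real_inner_comm x z] at h1
  have h2 : m x (m (cj u z) y) + m z (m (cj u x) y) =
    (⟪x, x⟫_ℝ • y + m z (m (cj u x) y) + (m x (m (cj u z) y) + ⟪z, z⟫_ℝ • y))
      - ⟪x, x⟫_ℝ • y - ⟪z, z⟫_ℝ • y := by abel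
  rw [h2, h1]
  module

theorem lin_right (x y z : E) : m (m y x) (cj u z) + m (m y z) (cj u x) = (2 * ⟪x, z⟫_ℝ) • y := by
  have h1 := h.mul_mul_cj (x + z) y
  simp only [cj_add, map_add, LinearMap.add_apply, h.mul_mul_cj, inner_add_left,
    inner_add_right] at h1
  rw [real_inner_comm x z] at h1
  have h2 : m (m y x) (cj u z) + m (m y z) (cj u x) =
    (⟪x, x⟫_ℝ • y + m (m y z) (cj u x) + (m (m y x) (cj u z) + ⟪z, z⟫_ℝ • y))
      - ⟪x, x⟫_ℝ • y - ⟪z, z⟫_ℝ • y := by abel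
  rw [h2, h1]
  module

theorem cj_mul (x y : E) : cj u (m x y) = m (cj u y) (cj u x) := by
  refine ext_inner_right ℝ fun z => ?_
  rw [cj_inner, h.adj_right, ← h.adj_left, h.adj_right, real_inner_comm]

omit h in
theorem cj_of_orth {x : E} (hx : ⟪x, u⟫_ℝ = 0) : cj u x = -x := by
  simp [cj, hx]

theorem mul_self_of_orth {x : E} (hx : ⟪x, u⟫_ℝ = 0) (hx1 : ⟪x, x⟫_ℝ = 1) : m x x = -u := by
  have h1 := h.mul_cj_mul x u
  rw [cj_of_orth hx, h.mul_one, hx1, one_smul, map_neg] at h1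
  rw [← h1, neg_neg]

theorem mul_mul_of_orth {x : E} (y : E) (hx : ⟪x, u⟫_ℝ = 0) (hx1 : ⟪x, x⟫_ℝ = 1) :
    m x (m x y) = -y := by
  have h1 := h.cj_mul_mul x y
  rw [cj_of_orth hx, hx1, one_smul, map_neg, LinearMap.neg_apply] at h1
  exact neg_eq_iff_eq_neg.1 h1

theorem mul_mul_of_orth' {x : E} (y : E) (hx : ⟪x, u⟫_ℝ = 0) (hx1 : ⟪x, x⟫_ℝ = 1) :
    m (m y x) x = -y := by
  have h1 := h.mul_mul_cj x y
  rw [cj_of_orth hx, hx1, one_smul, map_neg] at h1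
  exact neg_eq_iff_eq_neg.1 h1

theorem anticomm {x y : E} (hx : ⟪x, u⟫_ℝ = 0) (hy : ⟪y, u⟫_ℝ = 0) (hxy : ⟪x, y⟫_ℝ = 0) :
    m y x = - m x y := by
  have h1 := h.lin_left x u y
  rw [cj_of_orth hx, cj_of_orth hy, hxy, h.mul_one, h.mul_one, map_neg, map_neg] at h1
  simp only [mul_zero, zero_smul] at h1
  have h2 : m x y + m y x = 0 := by
    have h3 : m x y + m y x = -(-m x y + -m y x) := by abel
    rw [h3, h1, neg_zero]
  exact (neg_eq_of_add_eq_zero_right h2).symm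

/-- quaternionic data in `E`: images of the quaternions -/
structure QHom (m : E →ₗ[ℝ] E →ₗ[ℝ] E) (u : E) (φ : ℍ[ℝ] →ₗ[ℝ] E) : Prop where
  one : φ 1 = u
  mul : ∀ a b, φ (a * b) = m (φ a) (φ b)
  star : ∀ a, φ (star a) = cj u (φ a)
  norm : ∀ a, ‖φ a‖ = ‖a‖

section Double

variable {φ : ℍ[ℝ] →ₗ[ℝ] E} (hφ : QHom m u φ) {l : E} (hl : ∀ a, ⟪l, φ a⟫_ℝ = 0)
  (hl1 : ⟪l, l⟫_ℝ = 1)

include hφ hl

omit h in
theorem l_orth : ⟪l, u⟫_ℝ = 0 := by rw [← hφ.one]; exact hl 1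

theorem dbl1 (a : ℍ[ℝ]) : m (φ a) l = m l (φ (star a)) := by
  have hlu := l_orth hφ hl
  have h1 := h.cj_mul (φ a) l
  have h2 : ⟪m (φ a) l, u⟫_ℝ = 0 := by
    rw [h.adj_left, h.mul_one, ← hφ.star]
    exact hl _
  rw [cj_of_orth h2, cj_of_orth hlu, map_neg, LinearMap.neg_apply, neg_inj] at h1
  rw [h1, hφ.star]

theorem dbl2 (a b : ℍ[ℝ]) : m (m (φ a) l) (φ b) = m (φ (a * star b)) l := by
  have hlu := l_orth hφ hl
  have h1 := h.lin_right l (φ a) (φ (star b))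
  rw [hl, mul_zero, zero_smul, cj_of_orth hlu, map_neg, ← hφ.mul, ← hφ.star, star_star] at h1
  exact eq_of_add_neg_eq_zero h1

theorem dbl3 (a b : ℍ[ℝ]) : m (φ a) (m (φ b) l) = m (φ (b * a)) l := by
  have hlu := l_orth hφ hl
  have h1 := h.lin_left (φ a) (φ (star b)) l
  rw [real_inner_comm, hl, mul_zero, zero_smul, cj_of_orth hlu, map_neg, LinearMap.neg_apply] at h1
  rw [map_neg, ← hφ.star, ← hφ.mul, ← star_mul, ← h.dbl1 hφ hl, ← h.dbl1 hφ hl] at h1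
  rw [neg_add_eq_zero] at h1
  exact h1

include hl1

theorem dbl4 (a b : ℍ[ℝ]) : m (m (φ a) l) (m (φ b) l) = - φ (star b * a) := by
  have hlu := l_orth hφ hl
  have h1 := h.lin_right l (φ a) (m (φ b) l)
  have h2 : ⟪m (φ b) l, u⟫_ℝ = 0 := by
    rw [h.adj_left, h.mul_one, ← hφ.star]
    exact hl _
  have h3 : ⟪l, m (φ b) l⟫_ℝ = ⟪φ b, u⟫_ℝ := by
    have := h.inner_right (φ b) u l
    rw [h.one_mul, hl1, _root_.mul_one] at this
    rw [real_inner_comm, this]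
  rw [cj_of_orth h2, cj_of_orth hlu, h.dbl3 hφ hl, h3, map_neg, map_neg,
    h.mul_mul_of_orth' _ hlu hl1, neg_neg] at h1
  have h4 : φ (star b * a) = (2 * ⟪φ b, u⟫_ℝ) • φ a - φ (b * a) := by
    rw [hφ.mul, hφ.star, cj, map_sub, map_smul, LinearMap.sub_apply, LinearMap.smul_apply,
      h.one_mul, hφ.mul]
  rw [h4, ← h1]
  abel

end Double

/-- the linear map from the quaternions given by `i`, `j` -/
noncomputable def qmap (m : E →ₗ[ℝ] E →ₗ[ℝ] E) (u i j : E) : ℍ[ℝ] →ₗ[ℝ] E where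
  toFun q := q.re • u + q.imI • i + q.imJ • j + q.imK • m i j
  map_add' p q := by
    simp only [Quaternion.re_add, Quaternion.imI_add, Quaternion.imJ_add, Quaternion.imK_add]
    module
  map_smul' r q := by
    simp only [Quaternion.re_smul, Quaternion.imI_smul, Quaternion.imJ_smul, Quaternion.imK_smul,
      RingHom.id_apply, smul_eq_mul]
    module

theorem qmap_spec {i j : E} (hi : ⟪i, u⟫_ℝ = 0) (hj : ⟪j, u⟫_ℝ = 0) (hij : ⟪i, j⟫_ℝ = 0)
    (hi1 : ⟪i, i⟫_ℝ = 1) (hj1 : ⟪j, j⟫_ℝ = 1) : QHom m u (qmap m u i j) := by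
  have hk : ⟪m i j, u⟫_ℝ = 0 := by
    rw [h.adj_left, h.mul_one, cj_of_orth hi, inner_neg_right, real_inner_comm, hij, neg_zero]
  have hk1 : ⟪m i j, m i j⟫_ℝ = 1 := by rw [h.inner_left, hi1, hj1, _root_.mul_one]
  have hki : ⟪m i j, i⟫_ℝ = 0 := by
    have := h.inner_left i j u
    rwa [h.mul_one, hj, mul_zero] at this
  have hkj : ⟪m i j, j⟫_ℝ = 0 := by
    have := h.inner_right i u j
    rwa [h.one_mul, hi, zero_mul] at this
  have eii : m i i = -u := h.mul_self_of_orth hi hi1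
  have ejj : m j j = -u := h.mul_self_of_orth hj hj1
  have ekk : m (m i j) (m i j) = -u := h.mul_self_of_orth hk hk1
  have eji : m j i = -m i j := h.anticomm hi hj hij
  have eik : m i (m i j) = -j := h.mul_mul_of_orth j hi hi1
  have ekj : m (m i j) j = -i := h.mul_mul_of_orth' i hj hj1
  have eki : m (m i j) i = j := by
    rw [h.anticomm (x := i) (y := m i j) hi hk (by rw [real_inner_comm, hki]), eik, neg_neg]
  have ejk : m j (m i j) = i := by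
    rw [h.anticomm (x := m i j) (y := j) hk hj hkj, ekj, neg_neg]
  have hui : ⟪u, i⟫_ℝ = 0 := by rw [real_inner_comm, hi]
  have huj : ⟪u, j⟫_ℝ = 0 := by rw [real_inner_comm, hj]
  have huk : ⟪u, m i j⟫_ℝ = 0 := by rw [real_inner_comm, hk]
  have hik : ⟪i, m i j⟫_ℝ = 0 := by rw [real_inner_comm, hki]
  have hjk : ⟪j, m i j⟫_ℝ = 0 := by rw [real_inner_comm, hkj]
  have hji : ⟪j, i⟫_ℝ = 0 := by rw [real_inner_comm, hij]
  have hin : ∀ a, ⟪qmap m u i j a, u⟫_ℝ = a.re := by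
    intro a
    simp [qmap, inner_add_left, inner_smul_left, hi, hj, hk, h.norm_one]
  refine ⟨?_, ?_, ?_, ?_⟩
  · simp [qmap]
  · intro a b
    simp only [qmap, LinearMap.coe_mk, AddHom.coe_mk, map_add, map_smul, LinearMap.add_apply,
      LinearMap.smul_apply, h.one_mul, h.mul_one, eii, ejj, ekk, eji, eik, ekj, eki, ejk,
      Quaternion.re_mul, Quaternion.imI_mul, Quaternion.imJ_mul, Quaternion.imK_mul]
    module
  · intro a
    rw [cj, hin]
    simp only [qmap, LinearMap.coe_mk, AddHom.coe_mk, Quaternion.re_star, Quaternion.imI_star,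
      Quaternion.imJ_star, Quaternion.imK_star]
    module
  · intro a
    have h1 : ⟪qmap m u i j a, qmap m u i j a⟫_ℝ = Quaternion.normSq a := by
      simp only [qmap, LinearMap.coe_mk, AddHom.coe_mk, inner_add_left, inner_add_right,
        inner_smul_left, inner_smul_right, hi, hj, hk, hui, huj, huk, hik, hjk, hji, hij, hki, hkj,
        h.inner_one, hi1, hj1, hk1, Quaternion.normSq_def']
      simp
      ring
    rw [real_inner_self_eq_norm_sq, Quaternion.normSq_eq_norm_mul_self, ← sq] at h1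
    exact (sq_eq_sq₀ (norm_nonneg _) (norm_nonneg _)).1 h1

/-- the linear map from the octonions -/
noncomputable def omap (m : E →ₗ[ℝ] E →ₗ[ℝ] E) (φ : ℍ[ℝ] →ₗ[ℝ] E) (l : E) : Oct →ₗ[ℝ] E where
  toFun x := φ x.fst + m (φ x.snd) l
  map_add' x y := by
    simp only [Oct.add_fst, Oct.add_snd, map_add, LinearMap.add_apply]
    abel
  map_smul' r x := by
    simp only [Oct.smul_fst, Oct.smul_snd, map_smul, LinearMap.smul_apply, RingHom.id_apply,
      smul_add]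

section Omap

variable {φ : ℍ[ℝ] →ₗ[ℝ] E} (hφ : QHom m u φ) {l : E} (hl : ∀ a, ⟪l, φ a⟫_ℝ = 0)
  (hl1 : ⟪l, l⟫_ℝ = 1)

include hφ hl hl1

theorem omap_mul (x y : Oct) : omap m φ l (x * y) = m (omap m φ l x) (omap m φ l y) := by
  simp only [omap, LinearMap.coe_mk, AddHom.coe_mk, map_add, LinearMap.add_apply, Oct.mul_fst,
    Oct.mul_snd, map_sub, h.dbl3 hφ hl, h.dbl2 hφ hl, h.dbl4 hφ hl hl1, ← hφ.mul]
  abel

theorem omap_norm (x : Oct) : ‖omap m φ l x‖ ^ 2 = ‖x.fst‖ ^ 2 + ‖x.snd‖ ^ 2 := by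
  have h1 : ⟪φ x.fst, m (φ x.snd) l⟫_ℝ = 0 := by
    rw [real_inner_comm, h.adj_left, ← hφ.star, ← hφ.mul, hl]
  have h2 : ‖l‖ = 1 := by
    rw [real_inner_self_eq_norm_sq] at hl1
    nlinarith [norm_nonneg l]
  simp only [omap, LinearMap.coe_mk, AddHom.coe_mk]
  rw [norm_add_sq_real, h1, h.norm_mul, h2, hφ.norm, hφ.norm]
  ring

end Omap

theorem exists_qhom [FiniteDimensional ℝ E] (hd : 4 ≤ Module.finrank ℝ E) :
    ∃ φ : ℍ[ℝ] →ₗ[ℝ] E, QHom m u φ := by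
  -- a unit vector orthogonal to a subspace of small dimension
  have key : ∀ S : Finset E, S.card < Module.finrank ℝ E →
      ∃ x : E, ⟪x, x⟫_ℝ = 1 ∧ ∀ s ∈ S, ⟪x, s⟫_ℝ = 0 := by
    intro S hS
    have h1 : Module.finrank ℝ (Submodule.span ℝ (S : Set E)) < Module.finrank ℝ E :=
      lt_of_le_of_lt (finrank_span_finset_le_card S) hS
    have h2 : Submodule.span ℝ (S : Set E) ≠ ⊤ := by
      intro h3
      rw [h3, finrank_top] at h1
      exact lt_irrefl _ h1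
    have h4 : (Submodule.span ℝ (S : Set E))ᗮ ≠ ⊥ := fun h5 =>
      h2 (Submodule.orthogonal_eq_bot_iff.1 h5)
    obtain ⟨x, hx, hx0⟩ := Submodule.exists_mem_ne_zero_of_ne_bot h4
    refine ⟨(‖x‖⁻¹ : ℝ) • x, ?_, ?_⟩
    · have : ‖x‖ ≠ 0 := norm_ne_zero_iff.2 hx0
      rw [inner_smul_left, inner_smul_right, real_inner_self_eq_norm_sq]
      simp
      field_simp
    · intro s hs
      rw [inner_smul_left, (Submodule.mem_orthogonal' _ x).1 hx s (Submodule.subset_span hs),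
        mul_zero]
  classical
  obtain ⟨i, hi1, hi⟩ := key {u} (by simp; omega)
  obtain ⟨j, hj1, hj⟩ := key {u, i} (lt_of_le_of_lt (Finset.card_le_two) (by omega))
  exact ⟨qmap m u i j, h.qmap_spec (hi u (by simp)) (hj u (by simp))
    (by rw [real_inner_comm]; exact hj i (by simp)) hi1 hj1⟩

omit h in
theorem exists_orth [FiniteDimensional ℝ E] (hd : 4 < Module.finrank ℝ E) (φ : ℍ[ℝ] →ₗ[ℝ] E) :
    ∃ l : E, ⟪l, l⟫_ℝ = 1 ∧ ∀ a, ⟪l, φ a⟫_ℝ = 0 := by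
  have h1 : Module.finrank ℝ (LinearMap.range φ) < Module.finrank ℝ E := by
    refine lt_of_le_of_lt (LinearMap.finrank_range_le φ) ?_
    rw [Quaternion.finrank_eq_four]
    exact hd
  have h2 : LinearMap.range φ ≠ ⊤ := by
    intro h3
    rw [h3, finrank_top] at h1
    exact lt_irrefl _ h1
  have h4 : (LinearMap.range φ)ᗮ ≠ ⊥ := fun h5 =>
    h2 (Submodule.orthogonal_eq_bot_iff.1 h5)
  obtain ⟨x, hx, hx0⟩ := Submodule.exists_mem_ne_zero_of_ne_bot h4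
  refine ⟨(‖x‖⁻¹ : ℝ) • x, ?_, ?_⟩
  · have : ‖x‖ ≠ 0 := norm_ne_zero_iff.2 hx0
    rw [inner_smul_left, inner_smul_right, real_inner_self_eq_norm_sq]
    simp
    field_simp
  · intro a
    rw [inner_smul_left, (Submodule.mem_orthogonal' _ x).1 hx (φ a) ⟨a, rfl⟩, mul_zero]

end CompAlg

/-- Reduction of a composition product to a unital one. -/
theorem isotopy {n : ℕ} (hn : 0 < n) (B : Eu n →ₗ[ℝ] Eu n →ₗ[ℝ] Eu n)
    (hB : ∀ a b, ‖B a b‖ = ‖a‖ * ‖b‖) :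
    ∃ (R L : Eu n ≃ₗ[ℝ] Eu n) (m : Eu n →ₗ[ℝ] Eu n →ₗ[ℝ] Eu n) (u : Eu n),
      (∀ a, ‖R a‖ = ‖a‖) ∧ (∀ a, ‖L a‖ = ‖a‖) ∧ CompAlg m u ∧ ∀ a b, B a b = m (R a) (L b) := by
  obtain ⟨e, he⟩ : ∃ e : Eu n, ‖e‖ = 1 := ⟨EuclideanSpace.single ⟨0, hn⟩ 1, by simp⟩
  have hL0 : ∀ a, ‖B e a‖ = ‖a‖ := fun a => by rw [hB, he, one_mul]
  have hR0 : ∀ a, ‖B.flip e a‖ = ‖a‖ := fun a => by
    rw [LinearMap.flip_apply, hB, he, mul_one]
  have hLi : Function.Injective (B e) := by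
    rw [← LinearMap.ker_eq_bot, LinearMap.ker_eq_bot']
    intro v hv
    rw [← norm_eq_zero, ← hL0, hv, norm_zero]
  have hRi : Function.Injective (B.flip e) := by
    rw [← LinearMap.ker_eq_bot, LinearMap.ker_eq_bot']
    intro v hv
    rw [← norm_eq_zero, ← hR0, hv, norm_zero]
  let L := LinearEquiv.ofInjectiveEndo (B e) hLi
  let R := LinearEquiv.ofInjectiveEndo (B.flip e) hRi
  have hLa : ∀ a, L a = B e a := fun a => rfl
  have hRa : ∀ a, R a = B a e := fun a => rfl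
  have hL : ∀ a, ‖L a‖ = ‖a‖ := hL0
  have hR : ∀ a, ‖R a‖ = ‖a‖ := hR0
  refine ⟨R, L, B.compl₁₂ R.symm.toLinearMap L.symm.toLinearMap, B e e, hR, hL, ?_, ?_⟩
  · refine ⟨?_, ?_, ?_, ?_⟩
    · intro x y
      simp only [LinearMap.compl₁₂_apply, LinearEquiv.coe_coe]
      rw [hB, ← hR (R.symm x), ← hL (L.symm y), R.apply_symm_apply, L.apply_symm_apply]
    · intro x
      have h1 : R.symm (B e e) = e := by rw [← hRa, R.symm_apply_apply]
      simp only [LinearMap.compl₁₂_apply, LinearEquiv.coe_coe]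
      rw [h1, ← hLa, L.apply_symm_apply]
    · intro x
      have h1 : L.symm (B e e) = e := by rw [← hLa, L.symm_apply_apply]
      simp only [LinearMap.compl₁₂_apply, LinearEquiv.coe_coe]
      rw [h1, ← hRa, R.apply_symm_apply]
    · rw [hB, he, one_mul]
  · intro a b
    simp only [LinearMap.compl₁₂_apply, LinearEquiv.coe_coe]
    rw [R.symm_apply_apply, L.symm_apply_apply]

/-- the octonions as pairs -/
noncomputable def octEquiv : Oct ≃ₗ[ℝ] ℍ[ℝ] × ℍ[ℝ] where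
  toFun x := (x.fst, x.snd)
  invFun p := ⟨p.1, p.2⟩
  left_inv _ := rfl
  right_inv _ := rfl
  map_add' _ _ := rfl
  map_smul' _ _ := rfl

instance : FiniteDimensional ℝ Oct := Module.Finite.equiv octEquiv.symm

theorem finrank_oct : Module.finrank ℝ Oct = 8 := by
  rw [octEquiv.finrank_eq, Module.finrank_prod, Quaternion.finrank_eq_four]

end Hurwitz

open Hurwitz

/-- **Hurwitz theorem with isotopy, dimension 4.** -/
theorem hurwitz_quat (B : Eu 4 →ₗ[ℝ] Eu 4 →ₗ[ℝ] Eu 4) (hB : ∀ a b, ‖B a b‖ = ‖a‖ * ‖b‖) :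
    ∃ e₀ e₁ e₂ : Eu 4 ≃ₗ[ℝ] ℍ[ℝ], (∀ a, ‖e₀ a‖ = ‖a‖) ∧ (∀ a, ‖e₁ a‖ = ‖a‖) ∧
      (∀ a, ‖e₂ a‖ = ‖a‖) ∧ ∀ a b, e₀ (B a b) = e₁ a * e₂ b := by
  obtain ⟨R, L, m, u, hR, hL, h, hm⟩ := isotopy (by norm_num) B hB
  obtain ⟨φ, hφ⟩ := h.exists_qhom (by simp)
  have hφi : Function.Injective φ := by
    rw [← LinearMap.ker_eq_bot, LinearMap.ker_eq_bot']
    intro v hv
    rw [← norm_eq_zero, ← hφ.norm, hv, norm_zero]
  let e := LinearEquiv.ofInjectiveOfFinrankEq φ hφi (by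
    rw [Quaternion.finrank_eq_four]; simp)
  have he : ∀ a, e a = φ a := fun a => rfl
  have hen : ∀ a, ‖e.symm a‖ = ‖a‖ := fun a => by
    rw [← hφ.norm, ← he, e.apply_symm_apply]
  refine ⟨e.symm, R.trans e.symm, L.trans e.symm, hen, ?_, ?_, ?_⟩
  · intro a; rw [LinearEquiv.trans_apply, hen, hR]
  · intro a; rw [LinearEquiv.trans_apply, hen, hL]
  · intro a b
    rw [LinearEquiv.trans_apply, LinearEquiv.trans_apply, LinearEquiv.symm_apply_eq, he, hφ.mul,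
      ← he, ← he, e.apply_symm_apply, e.apply_symm_apply, hm]

/-- **Hurwitz theorem with isotopy, dimension 8.** -/
theorem hurwitz_oct (B : Eu 8 →ₗ[ℝ] Eu 8 →ₗ[ℝ] Eu 8) (hB : ∀ a b, ‖B a b‖ = ‖a‖ * ‖b‖) :
    ∃ e₀ e₁ e₂ : Eu 8 ≃ₗ[ℝ] Oct,
      (∀ a, ‖(e₀ a).fst‖ ^ 2 + ‖(e₀ a).snd‖ ^ 2 = ‖a‖ ^ 2) ∧
      (∀ a, ‖(e₁ a).fst‖ ^ 2 + ‖(e₁ a).snd‖ ^ 2 = ‖a‖ ^ 2) ∧
      (∀ a, ‖(e₂ a).fst‖ ^ 2 + ‖(e₂ a).snd‖ ^ 2 = ‖a‖ ^ 2) ∧
      ∀ a b, e₀ (B a b) = e₁ a * e₂ b := by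
  obtain ⟨R, L, m, u, hR, hL, h, hm⟩ := isotopy (by norm_num) B hB
  obtain ⟨φ, hφ⟩ := h.exists_qhom (by simp)
  obtain ⟨l, hl1, hl⟩ := CompAlg.exists_orth (by simp) φ
  have hφi : Function.Injective (CompAlg.omap m φ l) := by
    rw [← LinearMap.ker_eq_bot, LinearMap.ker_eq_bot']
    intro v hv
    have h1 := h.omap_norm hφ hl hl1 v
    rw [hv, norm_zero] at h1
    have h2 : ‖v.fst‖ = 0 := by nlinarith [sq_nonneg ‖v.fst‖, sq_nonneg ‖v.snd‖]
    have h3 : ‖v.snd‖ = 0 := by nlinarith [sq_nonneg ‖v.fst‖, sq_nonneg ‖v.snd‖]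
    ext1
    · exact norm_eq_zero.1 h2
    · exact norm_eq_zero.1 h3
  let e := LinearEquiv.ofInjectiveOfFinrankEq (CompAlg.omap m φ l) hφi (by
    rw [finrank_oct]; simp)
  have he : ∀ a, e a = CompAlg.omap m φ l a := fun a => rfl
  have hen : ∀ a, ‖(e.symm a).fst‖ ^ 2 + ‖(e.symm a).snd‖ ^ 2 = ‖a‖ ^ 2 := fun a => by
    rw [← h.omap_norm hφ hl hl1, ← he, e.apply_symm_apply]
  refine ⟨e.symm, R.trans e.symm, L.trans e.symm, hen, ?_, ?_, ?_⟩
  · intro a; rw [LinearEquiv.trans_apply, hen, hR]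
  · intro a; rw [LinearEquiv.trans_apply, hen, hL]
  · intro a b
    rw [LinearEquiv.trans_apply, LinearEquiv.trans_apply, LinearEquiv.symm_apply_eq, he,
      h.omap_mul hφ hl hl1,
      ← he, ← he, e.apply_symm_apply, e.apply_symm_apply, hm]

end Pool.Agent.W595.Plane
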