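import Pool.Agent.W595.Plane.TD

/-!
# Idempotent Hermitian `3 × 3` matrices over the quaternions and the Cayley numbers in coordinates
-/

set_option autoImplicit false

namespace Pool.Agent.W595.Plane

open scoped Quaternion InnerProductSpace

/-- the conjugation of the quaternions is real linear (not an instance in Mathlib) -/
instance instStarModuleQuat : StarModule ℝ ℍ[ℝ] := ⟨fun r x => by ext <;> simp⟩

namespace Model

/-- real composition algebra with conjugation, as used for the Hermitian matrices -/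
structure CA (K : Type) [AddCommGroup K] [Module ℝ K] [StarAddMonoid K] [StarModule ℝ K]
    [Mul K] [One K] (N : K → ℝ) : Prop where
  add_mul : ∀ x y z : K, (x + y) * z = x * z + y * z
  mul_add : ∀ x y z : K, x * (y + z) = x * y + x * z
  smul_mul : ∀ (r : ℝ) (x y : K), (r • x) * y = r • (x * y)
  mul_smul : ∀ (r : ℝ) (x y : K), x * (r • y) = r • (x * y)
  one_mul : ∀ x : K, 1 * x = x
  mul_one : ∀ x : K, x * 1 = x
  star_mul : ∀ x y : K, star (x * y) = star y * star x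
  star_one : star (1 : K) = 1
  one_ne : (1 : K) ≠ 0
  star_mul_mul : ∀ x y : K, star x * (x * y) = N x • y
  mul_mul_star : ∀ x y : K, (y * x) * star x = N x • y
  N_star : ∀ x : K, N (star x) = N x
  N_nonneg : ∀ x : K, 0 ≤ N x
  N_eq_zero : ∀ x : K, N x = 0 → x = 0
  N_smul : ∀ (r : ℝ) (x : K), N (r • x) = r ^ 2 * N x
  real : ∀ x : K, x = star x → ∃ r : ℝ, x = r • (1 : K)

variable {K : Type} [AddCommGroup K] [Module ℝ K] [StarAddMonoid K] [StarModule ℝ K]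
    [Mul K] [One K] {N : K → ℝ}

namespace CA

variable (h : CA K N)

include h

theorem zero_mul (x : K) : 0 * x = 0 := by
  have := h.smul_mul 0 0 x
  simpa using this

theorem mul_zero (x : K) : x * 0 = 0 := by
  have := h.mul_smul 0 x 0
  simpa using this

theorem mul_star_mul (x y : K) : x * (star x * y) = N x • y := by
  have := h.star_mul_mul (star x) y
  rwa [star_star, h.N_star] at this

theorem mul_star_mul' (x y : K) : (y * star x) * x = N x • y := by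
  have := h.mul_mul_star (star x) y
  rwa [star_star, h.N_star] at this

theorem star_mul_self (x : K) : star x * x = N x • (1 : K) := by
  have := h.star_mul_mul x 1
  rwa [h.mul_one] at this

theorem mul_star_self (x : K) : x * star x = N x • (1 : K) := by
  have := h.mul_mul_star x 1
  rwa [h.one_mul] at this

/-- Hermitian matrices in coordinates -/
noncomputable def toH : ((ℝ × ℝ × ℝ) × (K × K × K)) →ₗ[ℝ] Herm K where
  toFun z := ⟨!![z.1.1 • (1 : K), z.2.2.2, star z.2.2.1;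
      star z.2.2.2, z.1.2.1 • (1 : K), z.2.1;
      z.2.2.1, star z.2.1, z.1.2.2 • (1 : K)], by
    intro i j
    fin_cases i <;> fin_cases j <;> simp [h.star_one]⟩
  map_add' z w := by
    apply Subtype.ext
    ext i j
    fin_cases i <;> fin_cases j <;> simp [add_smul]
  map_smul' r z := by
    apply Subtype.ext
    ext i j
    fin_cases i <;> fin_cases j <;> simp [← smul_smul]

theorem toH_apply (ξ₀ ξ₁ ξ₂ : ℝ) (x₀ x₁ x₂ : K) :
    (h.toH ((ξ₀, ξ₁, ξ₂), (x₀, x₁, x₂)) : Matrix (Fin 3) (Fin 3) K) =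
      !![ξ₀ • (1 : K), x₂, star x₁; star x₂, ξ₁ • (1 : K), x₀; x₁, star x₀, ξ₂ • (1 : K)] := rfl

theorem toH_bij : Function.Bijective h.toH := by
  constructor
  · rw [← LinearMap.ker_eq_bot, LinearMap.ker_eq_bot']
    rintro ⟨⟨ξ₀, ξ₁, ξ₂⟩, ⟨x₀, x₁, x₂⟩⟩ hz
    have h1 : (h.toH ((ξ₀, ξ₁, ξ₂), (x₀, x₁, x₂)) : Matrix (Fin 3) (Fin 3) K) = 0 := by
      rw [hz]; rfl
    rw [h.toH_apply] at h1
    have e00 := congrFun (congrFun h1 0) 0
    have e11 := congrFun (congrFun h1 1) 1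
    have e22 := congrFun (congrFun h1 2) 2
    have e01 := congrFun (congrFun h1 0) 1
    have e12 := congrFun (congrFun h1 1) 2
    have e20 := congrFun (congrFun h1 2) 0
    simp [h.one_ne] at e00 e11 e22 e01 e12 e20
    simp [e00, e11, e22, e01, e12, e20]
  · rintro ⟨X, hX⟩
    have hX' : ∀ i j, X j i = star (X i j) := hX
    obtain ⟨ξ₀, h0⟩ := h.real _ (hX' 0 0)
    obtain ⟨ξ₁, h1⟩ := h.real _ (hX' 1 1)
    obtain ⟨ξ₂, h2⟩ := h.real _ (hX' 2 2)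
    refine ⟨((ξ₀, ξ₁, ξ₂), (X 1 2, X 2 0, X 0 1)), ?_⟩
    apply Subtype.ext
    rw [h.toH_apply]
    ext i j
    fin_cases i <;> fin_cases j <;> simp [h0, h1, h2, ← hX']

/-- the quadratic relations -/
def Rel (N : K → ℝ) (ξ₀ ξ₁ ξ₂ : ℝ) (x₀ x₁ x₂ : K) : Prop :=
  ξ₁ * ξ₂ = N x₀ ∧ ξ₂ * ξ₀ = N x₁ ∧ ξ₀ * ξ₁ = N x₂ ∧
    ξ₀ • star x₀ = x₁ * x₂ ∧ ξ₁ • star x₁ = x₂ * x₀ ∧ ξ₂ • star x₂ = x₀ * x₁

theorem Rel.smul {ξ₀ ξ₁ ξ₂ : ℝ} {x₀ x₁ x₂ : K} (hr : Rel N ξ₀ ξ₁ ξ₂ x₀ x₁ x₂) (t : ℝ) :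
    Rel N (t * ξ₀) (t * ξ₁) (t * ξ₂) (t • x₀) (t • x₁) (t • x₂) := by
  obtain ⟨h1, h2, h3, h4, h5, h6⟩ := hr
  refine ⟨?_, ?_, ?_, ?_, ?_, ?_⟩
  · rw [h.N_smul, ← h1]; ring
  · rw [h.N_smul, ← h2]; ring
  · rw [h.N_smul, ← h3]; ring
  · rw [h.smul_mul, h.mul_smul, ← h4, star_smul, star_trivial, smul_smul, smul_smul, smul_smul]
    congr 1; ring
  · rw [h.smul_mul, h.mul_smul, ← h5, star_smul, star_trivial, smul_smul, smul_smul, smul_smul]
    congr 1; ring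
  · rw [h.smul_mul, h.mul_smul, ← h6, star_smul, star_trivial, smul_smul, smul_smul, smul_smul]
    congr 1; ring

theorem smul_one_inj {a b : ℝ} (hab : a • (1 : K) = b • (1 : K)) : a = b := by
  have h1 : (a - b) • (1 : K) = 0 := by rw [sub_smul, hab, sub_self]
  rcases smul_eq_zero.1 h1 with h2 | h2
  · linarith
  · exact absurd h2 h.one_ne

theorem star_aux {a b x : K} {c : ℝ} (hs : star b * star a = c • x) : c • star x = a * b := by
  rw [← star_star (a * b), h.star_mul, hs, star_smul, star_trivial c]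

theorem star_aux' {a b x : K} {c : ℝ} (hs : c • star x = a * b) : star b * star a = c • x := by
  rw [← h.star_mul, ← hs, star_smul, star_star, star_trivial c]

theorem mem_model (ξ₀ ξ₁ ξ₂ : ℝ) (x₀ x₁ x₂ : K) :
    h.toH ((ξ₀, ξ₁, ξ₂), (x₀, x₁, x₂)) ∈ stdModel K ↔
      ξ₀ + ξ₁ + ξ₂ = 1 ∧ Rel N ξ₀ ξ₁ ξ₂ x₀ x₁ x₂ := by
  have hm : h.toH ((ξ₀, ξ₁, ξ₂), (x₀, x₁, x₂)) ∈ stdModel K ↔
      (!![ξ₀ • (1 : K), x₂, star x₁; star x₂, ξ₁ • (1 : K), x₀; x₁, star x₀, ξ₂ • (1 : K)] *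
        !![ξ₀ • (1 : K), x₂, star x₁; star x₂, ξ₁ • (1 : K), x₀; x₁, star x₀, ξ₂ • (1 : K)] =
        !![ξ₀ • (1 : K), x₂, star x₁; star x₂, ξ₁ • (1 : K), x₀; x₁, star x₀, ξ₂ • (1 : K)]) ∧
      Matrix.trace (!![ξ₀ • (1 : K), x₂, star x₁; star x₂, ξ₁ • (1 : K), x₀;
        x₁, star x₀, ξ₂ • (1 : K)]) = 1 := Iff.rfl
  rw [hm]
  have htr : Matrix.trace (!![ξ₀ • (1 : K), x₂, star x₁; star x₂, ξ₁ • (1 : K), x₀;
        x₁, star x₀, ξ₂ • (1 : K)]) = 1 ↔ ξ₀ + ξ₁ + ξ₂ = 1 := by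
    rw [Matrix.trace_fin_three]
    simp only [Matrix.of_apply, Matrix.cons_val', Matrix.cons_val_zero, Matrix.cons_val_one,
      Matrix.cons_val]
    rw [← add_smul, ← add_smul]
    constructor
    · intro h1
      exact h.smul_one_inj (by rw [h1, one_smul])
    · intro h1
      rw [h1, one_smul]
  rw [htr, and_comm]
  refine and_congr_right fun hsum => ?_
  constructor
  · intro hX
    have e00 := congrFun (congrFun hX 0) 0
    have e11 := congrFun (congrFun hX 1) 1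
    have e22 := congrFun (congrFun hX 2) 2
    have e01 := congrFun (congrFun hX 0) 1
    have e12 := congrFun (congrFun hX 1) 2
    have e20 := congrFun (congrFun hX 2) 0
    simp only [Matrix.mul_apply, Fin.sum_univ_three, Matrix.of_apply, Matrix.cons_val',
      Matrix.cons_val_zero, Matrix.cons_val_one, Matrix.cons_val, h.smul_mul, h.mul_smul,
      h.one_mul, h.mul_one, h.star_mul_self, h.mul_star_self, smul_smul, ← add_smul] at e00 e11 e22 e01 e12 e20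
    have f00 := h.smul_one_inj e00
    have f11 := h.smul_one_inj e11
    have f22 := h.smul_one_inj e22
    have g0 : ξ₀ = 1 - ξ₁ - ξ₂ := by linarith
    refine ⟨?_, ?_, ?_, ?_, ?_, ?_⟩
    · subst g0; nlinarith
    · subst g0; nlinarith
    · subst g0; nlinarith
    · refine h.star_aux ?_
      have h3 : star x₂ * star x₁ = (star x₂ * star x₁ + ξ₁ • x₀ + ξ₂ • x₀) - ξ₁ • x₀ - ξ₂ • x₀ := by
        abel
      rw [h3, e12, g0]
      module
    · refine h.star_aux ?_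
      have h3 : star x₀ * star x₂ = (ξ₀ • x₁ + star x₀ * star x₂ + ξ₂ • x₁) - ξ₀ • x₁ - ξ₂ • x₁ := by
        abel
      rw [h3, e20, g0]
      module
    · refine h.star_aux ?_
      have h3 : star x₁ * star x₀ = ((ξ₀ + ξ₁) • x₂ + star x₁ * star x₀) - (ξ₀ + ξ₁) • x₂ := by
        abel
      rw [h3, e01, g0]
      module
  · rintro ⟨h1, h2, h3, h4, h5, h6⟩
    have g0 : ξ₀ = 1 - ξ₁ - ξ₂ := by linarith
    have h4' := h.star_aux' h4
    have h5' := h.star_aux' h5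
    have h6' := h.star_aux' h6
    have f00 : ξ₀ * ξ₀ + N x₂ + N x₁ = ξ₀ := by rw [← h2, ← h3]; linear_combination ξ₀ * hsum
    have f11 : N x₂ + ξ₁ * ξ₁ + N x₀ = ξ₁ := by rw [← h1, ← h3]; linear_combination ξ₁ * hsum
    have f22 : N x₁ + N x₀ + ξ₂ * ξ₂ = ξ₂ := by rw [← h1, ← h2]; linear_combination ξ₂ * hsum
    ext i j
    fin_cases i <;> fin_cases j <;>
      simp only [Matrix.mul_apply, Fin.sum_univ_three, Matrix.of_apply, Matrix.cons_val',
      Matrix.cons_val_zero, Matrix.cons_val_one, Matrix.cons_val, h.smul_mul, h.mul_smul,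
      h.one_mul, h.mul_one, h.star_mul_self, h.mul_star_self, smul_smul, ← add_smul,
      Fin.zero_eta, Fin.mk_one, Fin.reduceFinMk, ← h4, ← h5, ← h6, h4', h5', h6', f00, f11, f22]
    all_goals
      rw [g0]
      module

/-- the last two relations follow from the other ones -/
theorem Rel.of_four {ξ₀ ξ₁ ξ₂ : ℝ} {x₀ x₁ x₂ : K} (h1 : ξ₁ * ξ₂ = N x₀) (h2 : ξ₂ * ξ₀ = N x₁)
    (h3 : ξ₀ * ξ₁ = N x₂) (h4 : ξ₀ • star x₀ = x₁ * x₂) : Rel N ξ₀ ξ₁ ξ₂ x₀ x₁ x₂ := by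
  refine ⟨h1, h2, h3, h4, ?_, ?_⟩
  · by_cases h0 : ξ₀ = 0
    · have e1 : x₁ = 0 := h.N_eq_zero _ (by rw [← h2, h0, MulZeroClass.mul_zero])
      have e2 : x₂ = 0 := h.N_eq_zero _ (by rw [← h3, h0, MulZeroClass.zero_mul])
      rw [e1, e2, star_zero, smul_zero, h.zero_mul]
    · have h5 : ξ₀ • (ξ₁ • star x₁) = ξ₀ • (x₂ * x₀) := by
        rw [← h.mul_smul, ← h.star_aux' h4, h.mul_star_mul, smul_smul, h3]
      exact smul_right_injective K h0 h5
  · by_cases h0 : ξ₀ = 0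
    · have e1 : x₁ = 0 := h.N_eq_zero _ (by rw [← h2, h0, MulZeroClass.mul_zero])
      have e2 : x₂ = 0 := h.N_eq_zero _ (by rw [← h3, h0, MulZeroClass.zero_mul])
      rw [e1, e2, star_zero, smul_zero, h.mul_zero]
    · have h5 : ξ₀ • (ξ₂ • star x₂) = ξ₀ • (x₀ * x₁) := by
        rw [← h.smul_mul, ← h.star_aux' h4, h.mul_star_mul', smul_smul, ← h2, mul_comm]
      exact smul_right_injective K h0 h5

theorem nonneg_of_mem {ξ₀ ξ₁ ξ₂ : ℝ} {x₀ x₁ x₂ : K} (hs : ξ₀ + ξ₁ + ξ₂ = 1)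
    (hr : Rel N ξ₀ ξ₁ ξ₂ x₀ x₁ x₂) : 0 ≤ ξ₀ ∧ 0 ≤ ξ₁ ∧ 0 ≤ ξ₂ := by
  obtain ⟨h1, h2, h3, -⟩ := hr
  have n0 := h.N_nonneg x₀
  have n1 := h.N_nonneg x₁
  have n2 := h.N_nonneg x₂
  rw [← h1] at n0
  rw [← h2] at n1
  rw [← h3] at n2
  refine ⟨?_, ?_, ?_⟩ <;> nlinarith

theorem model {d : ℕ} {M E : Type} [AddCommGroup E] [Module ℝ E] (f : M → E) (hG : Geo d f)
    (hur : ∀ (B : Eu d →ₗ[ℝ] Eu d →ₗ[ℝ] Eu d), (∀ a b, ‖B a b‖ = ‖a‖ * ‖b‖) →
      ∃ e₀ e₁ e₂ : Eu d ≃ₗ[ℝ] K, (∀ a, N (e₀ a) = ‖a‖ ^ 2) ∧ (∀ a, N (e₁ a) = ‖a‖ ^ 2) ∧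
        (∀ a, N (e₂ a) = ‖a‖ ^ 2) ∧ ∀ a b, e₀ (B a b) = e₁ a * e₂ b) :
    ProjectivelyEquivalent (stdModel K) (Set.range f) := by
  obtain ⟨Ψ, B, hB, hm, hc1, hc2⟩ := hG
  obtain ⟨e₀, e₁, e₂, n0, n1, n2, he⟩ := hur B hB
  -- the coordinates
  let st : K ≃ₗ[ℝ] K :=
    { toFun := fun x => star x
      invFun := fun x => star x
      left_inv := fun x => star_star x
      right_inv := fun x => star_star x
      map_add' := fun x y => star_add x y
      map_smul' := fun r x => by simp }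
  let H : ((ℝ × ℝ × ℝ) × (K × K × K)) ≃ₗ[ℝ] Herm K := LinearEquiv.ofBijective h.toH h.toH_bij
  let Λ : ((ℝ × ℝ × ℝ) × (Eu d × Eu d × Eu d)) ≃ₗ[ℝ] Herm K :=
    (LinearEquiv.prodCongr (LinearEquiv.refl ℝ _) (LinearEquiv.prodCongr (e₀.trans st)
      (LinearEquiv.prodCongr e₁ e₂))).trans H
  have hΛ : ∀ ξ a₀ a₁ a₂, Λ (ξ, (a₀, a₁, a₂)) = h.toH (ξ, (star (e₀ a₀), e₁ a₁, e₂ a₂)) :=
    fun ξ a₀ a₁ a₂ => rfl
  refine ⟨Λ.symm.trans Ψ, ?_, ?_⟩
  · intro X hX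
    obtain ⟨⟨⟨ξ₀, ξ₁, ξ₂⟩, ⟨a₀, a₁, a₂⟩⟩, rfl⟩ := Λ.surjective X
    rw [hΛ, h.mem_model] at hX
    obtain ⟨hs, hr⟩ := hX
    obtain ⟨p0, p1, p2⟩ := h.nonneg_of_mem hs hr
    obtain ⟨r1, r2, r3, r4, -, -⟩ := hr
    rw [LinearEquiv.trans_apply, LinearEquiv.symm_apply_apply]
    rw [h.N_star, n0] at r1
    rw [n1] at r2
    rw [n2] at r3
    rw [star_star, ← he, ← map_smul] at r4
    have r4' : ξ₀ • a₀ = B a₁ a₂ := e₀.injective r4
    by_cases h0 : ξ₀ = 0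
    · have e1 : a₁ = 0 := by
        rw [← norm_eq_zero]
        exact pow_eq_zero_iff two_ne_zero |>.1 (by rw [← r2, h0, MulZeroClass.mul_zero])
      have e2 : a₂ = 0 := by
        rw [← norm_eq_zero]
        exact pow_eq_zero_iff two_ne_zero |>.1 (by rw [← r3, h0, MulZeroClass.zero_mul])
      obtain ⟨m, c, hc, hmc⟩ := hc2 ξ₁ ξ₂ a₀ p1 p2 (by
        by_contra hcon
        push Not at hcon
        rw [h0, hcon.1, hcon.2] at hs
        norm_num at hs) r1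
      refine ⟨f m, ⟨m, rfl⟩, c, hc, ?_⟩
      rw [h0, e1, e2]
      exact hmc
    · obtain ⟨m, c, hc, hmc⟩ := hc1 (ξ₀⁻¹ • a₁) (ξ₀⁻¹ • a₂)
      refine ⟨f m, ⟨m, rfl⟩, ξ₀ * c, mul_ne_zero h0 hc, ?_⟩
      rw [SemigroupAction.mul_smul, ← hmc, ← map_smul]
      congr 1
      have q1 : ‖ξ₀⁻¹ • a₂‖ ^ 2 = ξ₀⁻¹ * ξ₁ := by
        rw [norm_smul, mul_pow, ← r3, norm_inv, inv_pow, Real.norm_eq_abs, sq_abs]
        field_simp
      have q2 : ‖ξ₀⁻¹ • a₁‖ ^ 2 = ξ₀⁻¹ * ξ₂ := by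
        rw [norm_smul, mul_pow, ← r2, norm_inv, inv_pow, Real.norm_eq_abs, sq_abs]
        field_simp
      have q3 : B (ξ₀⁻¹ • a₁) (ξ₀⁻¹ • a₂) = ξ₀⁻¹ • a₀ := by
        rw [map_smul, map_smul, LinearMap.smul_apply, ← r4', smul_smul, smul_smul]
        congr 1
        field_simp
      rw [q1, q2, q3]
      simp only [Prod.smul_mk, smul_eq_mul, _root_.mul_one, smul_smul]
      rw [mul_inv_cancel_left₀ h0, mul_inv_cancel_left₀ h0, mul_inv_cancel₀ h0, one_smul, one_smul,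
        one_smul]
  · rintro _ ⟨m, rfl⟩
    obtain ⟨ξ₀, ξ₁, ξ₂, a₀, a₁, a₂, hΨ, p0, p1, p2, r1, r2, r3, r4⟩ := hm m
    have hs : 0 < ξ₀ + ξ₁ + ξ₂ := by
      by_contra hcon
      have z0 : ξ₀ = 0 := by linarith
      have z1 : ξ₁ = 0 := by linarith
      have z2 : ξ₂ = 0 := by linarith
      have w0 : a₀ = 0 := by
        rw [← norm_eq_zero]
        exact pow_eq_zero_iff two_ne_zero |>.1 (by rw [← r1, z1, MulZeroClass.zero_mul])
      have w1 : a₁ = 0 := by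
        rw [← norm_eq_zero]
        exact pow_eq_zero_iff two_ne_zero |>.1 (by rw [← r2, z2, MulZeroClass.zero_mul])
      have w2 : a₂ = 0 := by
        rw [← norm_eq_zero]
        exact pow_eq_zero_iff two_ne_zero |>.1 (by rw [← r3, z0, MulZeroClass.zero_mul])
      rw [z0, z1, z2, w0, w1, w2] at hΨ
      have h5 : ((1 : ℝ), f m) = 0 := by
        rw [← hΨ]
        exact map_zero Ψ
      have h6 : (1 : ℝ) = 0 := congrArg Prod.fst h5
      norm_num at h6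
    have hrel : Rel N ξ₀ ξ₁ ξ₂ (star (e₀ a₀)) (e₁ a₁) (e₂ a₂) := by
      refine Rel.of_four h ?_ ?_ ?_ ?_
      · rw [h.N_star, n0, r1]
      · rw [n1, r2]
      · rw [n2, r3]
      · rw [star_star, ← he, ← r4, map_smul]
    have hrel2 := Rel.smul h hrel (ξ₀ + ξ₁ + ξ₂)⁻¹
    refine ⟨Λ ((ξ₀ + ξ₁ + ξ₂)⁻¹ • ((ξ₀, ξ₁, ξ₂), (a₀, a₁, a₂))), ?_, (ξ₀ + ξ₁ + ξ₂)⁻¹,
      inv_ne_zero hs.ne', ?_⟩
    · simp only [Prod.smul_mk, hΛ, smul_eq_mul, map_smul, star_smul, star_trivial]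
      rw [h.mem_model]
      refine ⟨?_, hrel2⟩
      rw [← _root_.mul_add, ← _root_.mul_add]
      exact inv_mul_cancel₀ hs.ne'
    · rw [LinearEquiv.trans_apply, LinearEquiv.symm_apply_apply, map_smul, hΨ]

end CA

theorem ca_quat : CA ℍ[ℝ] (fun x => Quaternion.normSq x) where
  add_mul := add_mul
  mul_add := mul_add
  smul_mul := smul_mul_assoc
  mul_smul := mul_smul_comm
  one_mul := one_mul
  mul_one := mul_one
  star_mul := star_mul
  star_one := star_one ℍ[ℝ]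
  one_ne := one_ne_zero
  star_mul_mul x y := by
    rw [← mul_assoc, Quaternion.star_mul_self, Quaternion.coe_mul_eq_smul]
  mul_mul_star x y := by
    rw [mul_assoc, Quaternion.self_mul_star, Quaternion.mul_coe_eq_smul]
  N_star x := Quaternion.normSq_star x
  N_nonneg x := Quaternion.normSq_nonneg
  N_eq_zero x hx := Quaternion.normSq_eq_zero.1 hx
  N_smul r x := by
    simp only [Quaternion.normSq_def', Quaternion.re_smul, Quaternion.imI_smul,
      Quaternion.imJ_smul, Quaternion.imK_smul, smul_eq_mul]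
    ring
  real x hx := by
    refine ⟨x.re, ?_⟩
    have h1 := congrArg (fun q : ℍ[ℝ] => q.imI) hx
    have h2 := congrArg (fun q : ℍ[ℝ] => q.imJ) hx
    have h3 := congrArg (fun q : ℍ[ℝ] => q.imK) hx
    simp only [Quaternion.imI_star, Quaternion.imJ_star, Quaternion.imK_star] at h1 h2 h3
    ext <;> simp <;> linarith

theorem ca_oct : CA Oct (fun x => Quaternion.normSq x.fst + Quaternion.normSq x.snd) where
  add_mul x y z := by
    ext1
    · simp only [Oct.mul_fst, Oct.add_fst, Oct.add_snd, add_mul, mul_add]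
      abel
    · simp only [Oct.mul_snd, Oct.add_fst, Oct.add_snd, add_mul, mul_add]
      abel
  mul_add x y z := by
    ext1
    · simp only [Oct.mul_fst, Oct.add_fst, Oct.add_snd, add_mul, mul_add, star_add]
      abel
    · simp only [Oct.mul_snd, Oct.add_fst, Oct.add_snd, add_mul, mul_add, star_add]
      abel
  smul_mul r x y := by
    ext1 <;> simp [smul_sub]
  mul_smul r x y := by
    ext1 <;> simp [smul_sub]
  one_mul x := by ext1 <;> simp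
  mul_one x := by ext1 <;> simp
  star_mul x y := by
    ext1
    · simp only [Oct.mul_fst, Oct.star_fst, Oct.star_snd, star_sub, star_mul, star_neg, star_star]
      noncomm_ring
    · simp only [Oct.mul_snd, Oct.star_fst, Oct.star_snd, star_star]
      noncomm_ring
  star_one := by ext1 <;> simp
  one_ne h := by
    have := congrArg Oct.fst h
    simp at this
  star_mul_mul x y := by
    ext <;> simp [Quaternion.normSq_def'] <;> ring
  mul_mul_star x y := by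
    ext <;> simp [Quaternion.normSq_def'] <;> ring
  N_star x := by
    simp [Quaternion.normSq_star]
  N_nonneg x := add_nonneg Quaternion.normSq_nonneg Quaternion.normSq_nonneg
  N_eq_zero x hx := by
    have h1 : 0 ≤ Quaternion.normSq x.fst := Quaternion.normSq_nonneg
    have h2 : 0 ≤ Quaternion.normSq x.snd := Quaternion.normSq_nonneg
    ext1
    · exact Quaternion.normSq_eq_zero.1 (by linarith)
    · exact Quaternion.normSq_eq_zero.1 (by linarith)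
  N_smul r x := by
    have h1 := ca_quat.N_smul r x.fst
    have h2 := ca_quat.N_smul r x.snd
    simp only [Oct.smul_fst, Oct.smul_snd]
    rw [h1, h2]
    ring
  real x hx := by
    have h1 := congrArg Oct.fst hx
    have h2 := congrArg Oct.snd hx
    obtain ⟨r, hr⟩ := ca_quat.real _ h1
    refine ⟨r, ?_⟩
    ext1
    · rw [hr]; simp
    · simp only [Oct.star_snd] at h2
      have h3 : (2 : ℝ) • x.snd = 0 := by
        rw [two_smul]
        nth_rewrite 2 [h2]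
        abel
      rcases smul_eq_zero.1 h3 with h4 | h4
      · norm_num at h4
      · rw [h4]; simp

end Model

theorem model_quat {M E : Type} [AddCommGroup E] [Module ℝ E] (f : M → E) (h : Geo 4 f)
    (hur : ∀ (B : Eu 4 →ₗ[ℝ] Eu 4 →ₗ[ℝ] Eu 4), (∀ a b, ‖B a b‖ = ‖a‖ * ‖b‖) →
      ∃ e₀ e₁ e₂ : Eu 4 ≃ₗ[ℝ] ℍ[ℝ], (∀ a, ‖e₀ a‖ = ‖a‖) ∧ (∀ a, ‖e₁ a‖ = ‖a‖) ∧
        (∀ a, ‖e₂ a‖ = ‖a‖) ∧ ∀ a b, e₀ (B a b) = e₁ a * e₂ b) :
    ProjectivelyEquivalent (stdModel ℍ[ℝ]) (Set.range f) := by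
  refine Model.ca_quat.model f h fun B hB => ?_
  obtain ⟨e₀, e₁, e₂, n0, n1, n2, he⟩ := hur B hB
  refine ⟨e₀, e₁, e₂, fun a => ?_, fun a => ?_, fun a => ?_, he⟩
  · rw [Quaternion.normSq_eq_norm_mul_self, n0, sq]
  · rw [Quaternion.normSq_eq_norm_mul_self, n1, sq]
  · rw [Quaternion.normSq_eq_norm_mul_self, n2, sq]

theorem model_oct {M E : Type} [AddCommGroup E] [Module ℝ E] (f : M → E) (h : Geo 8 f)
    (hur : ∀ (B : Eu 8 →ₗ[ℝ] Eu 8 →ₗ[ℝ] Eu 8), (∀ a b, ‖B a b‖ = ‖a‖ * ‖b‖) →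
      ∃ e₀ e₁ e₂ : Eu 8 ≃ₗ[ℝ] Oct,
        (∀ a, ‖(e₀ a).fst‖ ^ 2 + ‖(e₀ a).snd‖ ^ 2 = ‖a‖ ^ 2) ∧
        (∀ a, ‖(e₁ a).fst‖ ^ 2 + ‖(e₁ a).snd‖ ^ 2 = ‖a‖ ^ 2) ∧
        (∀ a, ‖(e₂ a).fst‖ ^ 2 + ‖(e₂ a).snd‖ ^ 2 = ‖a‖ ^ 2) ∧
        ∀ a b, e₀ (B a b) = e₁ a * e₂ b) :
    ProjectivelyEquivalent (stdModel Oct) (Set.range f) := by
  refine Model.ca_oct.model f h fun B hB => ?_
  obtain ⟨e₀, e₁, e₂, n0, n1, n2, he⟩ := hur B hB
  refine ⟨e₀, e₁, e₂, fun a => ?_, fun a => ?_, fun a => ?_, he⟩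
  · rw [Quaternion.normSq_eq_norm_mul_self, Quaternion.normSq_eq_norm_mul_self, ← sq, ← sq, n0]
  · rw [Quaternion.normSq_eq_norm_mul_self, Quaternion.normSq_eq_norm_mul_self, ← sq, ← sq, n1]
  · rw [Quaternion.normSq_eq_norm_mul_self, Quaternion.normSq_eq_norm_mul_self, ← sq, ← sq, n2]

end Pool.Agent.W595.Plane
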