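import Mathlib

/-!
# Tight maps and manifolds like projective planes, for singular homology mod 2 (Mathlib)

Definitions used in the statement.
-/

set_option autoImplicit false

namespace Pool.Agent.W595.Plane

open CategoryTheory AlgebraicTopology Limits
open scoped InnerProductSpace

noncomputable section

/-- The functor `X ↦ H_k(X; ℤ/2)` (singular homology, as defined in Mathlib). -/
abbrev HomologyMod2 (k : ℕ) : TopCat.{0} ⥤ ModuleCat.{0} (ZMod 2) :=
  (singularHomologyFunctor (ModuleCat.{0} (ZMod 2)) k).obj (ModuleCat.of (ZMod 2) (ZMod 2))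

/-- The space `M` has the Betti numbers mod 2 of a projective plane:
`β_0 = β_d = β_{2d} = 1` and `β_k = 0` for all other `k`. -/
def LikeProjectivePlane (d : ℕ) (M : Type) [TopologicalSpace M] : Prop :=
  ∀ k : ℕ, Module.rank (ZMod 2) ((HomologyMod2 k).obj (TopCat.of M)) =
    if k = 0 ∨ k = d ∨ k = 2 * d then 1 else 0

/-- The map `f : M → E` is tight: for every closed half-space `h = {y | t ≤ ⟪z, y⟫}`, `z ≠ 0`, the
inclusion `f ⁻¹(h) ⊆ M` induces an injection in `H_k(·; ℤ/2)` for every `k`. -/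
def Tight {M E : Type} [TopologicalSpace M] [NormedAddCommGroup E] [InnerProductSpace ℝ E]
    (f : M → E) : Prop :=
  ∀ (z : E) (t : ℝ), z ≠ 0 → ∀ k : ℕ, Mono ((HomologyMod2 k).map
    (TopCat.ofHom (⟨Subtype.val, continuous_subtype_val⟩ : C({x : M | t ≤ ⟪z, f x⟫_ℝ}, M))))

/-- The map `f : M → E` is substantial: `f(M)` lies in no affine hyperplane `{y | ⟪z, y⟫ = t}`,
`z ≠ 0`. -/
def Substantial {M E : Type} [NormedAddCommGroup E] [InnerProductSpace ℝ E] (f : M → E) : Prop :=
  ∀ (z : E) (t : ℝ), z ≠ 0 → ∃ x, ⟪z, f x⟫_ℝ ≠ t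

end

end Pool.Agent.W595.Plane
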