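import Pool.Agent.W595.Plane.Defs
import Pool.Agent.W595.Plane.Hyp

/-!
# The statement: tight immersions of manifolds like projective planes are standard
-/

set_option autoImplicit false

namespace Pool.Agent.W595.Plane

open scoped Manifold ContDiff

noncomputable section

/-- The topological space `M`, with its charts in the normed space `V`, is a closed smooth manifold:
compact, Hausdorff, with `C^∞` changes of charts. -/
def ClosedManifold (V M : Type) [NormedAddCommGroup V] [NormedSpace ℝ V] [TopologicalSpace M]
    [ChartedSpace V M] : Prop :=
  CompactSpace M ∧ T2Space M ∧ IsManifold 𝓘(ℝ, V) ∞ M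

/-- The map `f : M → E` from the manifold `M` with charts in `V` is a smooth immersion: it is `C^∞`
and its differential is injective at every point. -/
def SmoothImmersion (V : Type) {M E : Type} [NormedAddCommGroup V] [NormedSpace ℝ V]
    [TopologicalSpace M] [ChartedSpace V M] [NormedAddCommGroup E] [NormedSpace ℝ E]
    (f : M → E) : Prop :=
  ContMDiff 𝓘(ℝ, V) 𝓘(ℝ, E) ∞ f ∧ ∀ x, Function.Injective (mfderiv 𝓘(ℝ, V) 𝓘(ℝ, E) f x)

/-- For every closed smooth manifold `M` with charts in `V` which is like a projective plane
(`β_0 = β_d = β_{2d} = 1`, all others zero), and every smooth immersion `f : M → E` which is tight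
and substantial, `f(M)` is the image of the standard model over `K` under a projective
transformation. -/
def TightPlanesAreStandard (d : ℕ) (V E : Type) [NormedAddCommGroup V] [NormedSpace ℝ V]
    [NormedAddCommGroup E] [InnerProductSpace ℝ E] (K : Type) [AddCommGroup K] [Module ℝ K]
    [StarAddMonoid K] [StarModule ℝ K] [Mul K] [One K] : Prop :=
  ∀ (M : Type) [TopologicalSpace M] [ChartedSpace V M], ClosedManifold V M →
    LikeProjectivePlane d M → ∀ f : M → E, SmoothImmersion V f → Tight f → Substantial f →
      ProjectivelyEquivalent (stdModel K) (Set.range f)

end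

end Pool.Agent.W595.Plane
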