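import Pool.Agent.Helper775.Tight.Final

/-!
# From singular homology to Alexander-Spanier cohomology of the whole space
-/

set_option autoImplicit false
set_option linter.unusedSectionVars false

namespace Pool.Agent.W595.Plane

open Set Topology Pool.Agent.Helper775.Tight Pool.Agent.Helper775.Tight.SoftCx

section

variable {P : Type*} [MetricSpace P]

/-- Evaluation of a germ cocycle on small cycles: it vanishes on small cycles which bound, and if it
vanishes on all small cycles it is a coboundary. -/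
theorem sg_core (k : ℕ) (s : SCh P) (𝒲 : Set (Set P)) (hWo : ∀ W ∈ 𝒲, IsOpen W)
    (hWc : ∀ x : P, ∃ W ∈ 𝒲, x ∈ W)
    (hW : ∀ W ∈ 𝒲, ∀ σ : Sing P (k + 1), range σ ⊆ W →
      ∑ i : Fin (k + 2), s k (sface k i σ) = 0) :
    (∀ z ∈ Finsupp.supported (ZMod 2) (ZMod 2) {σ : Sing P k | ∃ W ∈ 𝒲, range σ ⊆ W},
      (∃ w, bdry P k w = z) → Finsupp.linearCombination (ZMod 2) (s k) z = 0) ∧
    ((∀ z ∈ Finsupp.supported (ZMod 2) (ZMod 2) {σ : Sing P k | ∃ W ∈ 𝒲, range σ ⊆ W},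
      IsCycle k z → Finsupp.linearCombination (ZMod 2) (s k) z = 0) →
      (Sg P).Cob univ (k + 1) s) := by
  classical
  set sk : (Sing P k →₀ ZMod 2) →ₗ[ZMod 2] ZMod 2 :=
    Finsupp.linearCombination (ZMod 2) (s k) with hsk
  have hsk1 : ∀ τ, sk (Finsupp.single τ 1) = s k τ := by
    intro τ; simp [hsk, Finsupp.linearCombination_single]
  constructor
  · rintro z hz ⟨b, hb⟩
    have hzs : ∀ σ ∈ z.support, range σ ⊆ (univ : Set P) ∧ ∃ C ∈ 𝒲, range σ ⊆ C := by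
      intro σ hσ
      exact ⟨subset_univ _, (Finsupp.mem_supported _ _).1 hz (by exact_mod_cast hσ)⟩
    obtain ⟨b', hb', hbz'⟩ := small_bound 𝒲 univ hWo (fun x _ => hWc x) k z hzs b
      (fun σ _ => subset_univ _) hb
    rw [← hbz']
    apply sx_bdry_zero
    intro σ hσ
    simp only [hsk1]
    obtain ⟨-, C, hC, hσC⟩ := hb' σ hσ
    exact hW C hC σ hσC
  · intro h
    obtain ⟨r, hr⟩ := sx_cob k _ sk h
    refine ⟨r, fun z _ => ?_⟩
    obtain ⟨W, hW1, hzW⟩ := hWc z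
    refine ⟨W, (hWo W hW1).mem_nhds hzW, fun σ hσ => ?_⟩
    have h3 := hr σ (Finsupp.single_mem_supported _ _ ⟨W, hW1, hσ⟩)
    rwa [hsk1] at h3

/-- the good open sets of a cocycle -/
theorem sg_cover (k : ℕ) (s : SCh P) (hs : (Sg P).Coc univ (k + 1) s) :
    ∀ x : P, ∃ W, IsOpen W ∧ x ∈ W ∧ ∀ σ : Sing P (k + 1), range σ ⊆ W →
      ∑ i : Fin (k + 2), s k (sface k i σ) = 0 := by
  intro x
  obtain ⟨W, hW, h1⟩ := hs x (mem_univ x)
  obtain ⟨U, hUW, hU, hxU⟩ := mem_nhds_iff.1 hW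
  exact ⟨U, hU, hxU, fun σ hσ => h1 σ (hσ.trans hUW)⟩

/-- no homology in degree `k` gives no cohomology in degree `k` -/
theorem sg_ex (k : ℕ) (h : ∀ z : Sing P k →₀ ZMod 2, IsCycle k z → ∃ w, bdry P k w = z) :
    (Sg P).Ex univ (k + 1) := by
  intro s hs
  have hcov := sg_cover k s hs
  obtain ⟨h1, h2⟩ := sg_core k s {W | IsOpen W ∧ ∀ σ : Sing P (k + 1), range σ ⊆ W →
    ∑ i : Fin (k + 2), s k (sface k i σ) = 0} (fun W hW => hW.1) (fun x => by
      obtain ⟨W, a, b, c⟩ := hcov x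
      exact ⟨W, ⟨a, c⟩, b⟩) (fun W hW => hW.2)
  exact h2 fun z hz hc => h1 z hz (h z hc)

/-- homology of rank at most one gives cohomology of rank at most one -/
theorem sg_rank (k : ℕ) (h : ∀ z z' : Sing P k →₀ ZMod 2, IsCycle k z → IsCycle k z' →
      (∃ w, bdry P k w = z) ∨ (∃ w, bdry P k w = z') ∨ (∃ w, bdry P k w = z - z'))
    (s s' : SCh P) (hs : (Sg P).Coc univ (k + 1) s) (hs' : (Sg P).Coc univ (k + 1) s') :
    (Sg P).Cob univ (k + 1) s ∨ (Sg P).Cob univ (k + 1) s' ∨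
      (Sg P).Cob univ (k + 1) (s - s') := by
  classical
  set 𝒲 : Set (Set P) := {W | IsOpen W ∧ (∀ σ : Sing P (k + 1), range σ ⊆ W →
    ∑ i : Fin (k + 2), s k (sface k i σ) = 0) ∧ ∀ σ : Sing P (k + 1), range σ ⊆ W →
    ∑ i : Fin (k + 2), s' k (sface k i σ) = 0} with h𝒲
  have hWo : ∀ W ∈ 𝒲, IsOpen W := fun W hW => hW.1
  have hWc : ∀ x : P, ∃ W ∈ 𝒲, x ∈ W := by
    intro x
    obtain ⟨W, a, b, c⟩ := sg_cover k s hs x
    obtain ⟨W', a', b', c'⟩ := sg_cover k s' hs' x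
    exact ⟨W ∩ W', ⟨a.inter a', fun σ hσ => c σ (hσ.trans inter_subset_left),
      fun σ hσ => c' σ (hσ.trans inter_subset_right)⟩, b, b'⟩
  obtain ⟨h1, h2⟩ := sg_core k s 𝒲 hWo hWc (fun W hW => hW.2.1)
  obtain ⟨h1', h2'⟩ := sg_core k s' 𝒲 hWo hWc (fun W hW => hW.2.2)
  obtain ⟨-, h3⟩ := sg_core k (s - s') 𝒲 hWo hWc (fun W hW σ hσ => by
    have e : ∀ i : Fin (k + 2), (s - s') k (sface k i σ) =
        s k (sface k i σ) - s' k (sface k i σ) := fun i => rfl
    simp only [e]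
    rw [Finset.sum_sub_distrib, hW.2.1 σ hσ, hW.2.2 σ hσ, sub_zero])
  by_cases hc : ∀ z ∈ Finsupp.supported (ZMod 2) (ZMod 2) {σ : Sing P k | ∃ W ∈ 𝒲, range σ ⊆ W},
      IsCycle k z → Finsupp.linearCombination (ZMod 2) (s k) z = 0
  · exact Or.inl (h2 hc)
  by_cases hc' : ∀ z ∈ Finsupp.supported (ZMod 2) (ZMod 2) {σ : Sing P k | ∃ W ∈ 𝒲, range σ ⊆ W},
      IsCycle k z → Finsupp.linearCombination (ZMod 2) (s' k) z = 0
  · exact Or.inr (Or.inl (h2' hc'))
  right; right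
  push Not at hc hc'
  obtain ⟨z, hz, hzc, hzs⟩ := hc
  obtain ⟨z', hz', hzc', hzs'⟩ := hc'
  have two : ∀ t : ZMod 2, t ≠ 0 → t = 1 := by decide
  have hz1 := two _ hzs
  have hz1' := two _ hzs'
  have hzz : ∃ w, bdry P k w = z - z' := by
    rcases h z z' hzc hzc' with h4 | h4 | h4
    · exact absurd (h1 z hz h4) hzs
    · exact absurd (h1' z' hz' h4) hzs'
    · exact h4
  have h5 := h1 _ (Submodule.sub_mem _ hz hz') hzz
  have h5' := h1' _ (Submodule.sub_mem _ hz hz') hzz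
  rw [map_sub, hz1, sub_eq_zero] at h5
  rw [map_sub, hz1', sub_eq_zero] at h5'
  have hdiff : ∀ y, Finsupp.linearCombination (ZMod 2) ((s - s') k) y =
      Finsupp.linearCombination (ZMod 2) (s k) y -
        Finsupp.linearCombination (ZMod 2) (s' k) y := by
    intro y
    rw [Finsupp.linearCombination_apply, Finsupp.linearCombination_apply,
      Finsupp.linearCombination_apply, Finsupp.sum, Finsupp.sum, Finsupp.sum,
      ← Finset.sum_sub_distrib]
    refine Finset.sum_congr rfl fun σ _ => ?_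
    rw [← smul_sub]
    rfl
  refine h3 fun y hy hyc => ?_
  rw [hdiff]
  rcases h y z hyc hzc with h4 | h4 | h4
  · rw [h1 y hy h4, h1' y hy h4, sub_zero]
  · exact absurd (h1 z hz h4) hzs
  · have h6 := h1 _ (Submodule.sub_mem _ hy hz) h4
    have h6' := h1' _ (Submodule.sub_mem _ hy hz) h4
    rw [map_sub, hz1, sub_eq_zero] at h6
    rw [map_sub, h5', sub_eq_zero] at h6'
    rw [h6, h6', sub_self]

variable {m : ℕ} [ChartedSpace (EuclideanSpace ℝ (Fin m)) P] [CompactSpace P]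

theorem theta_coc {Z : Set P} {n : ℕ} {c : Ch P} (hc : (AS P).Coc Z n c) :
    (Sg P).Coc Z n (theta c) := by
  intro z hz
  have h2 := Theta.comm z (n + 1) c
  have h3 := Theta.mem z (n + 1) _ (hc z hz)
  simpa using add_mem h2 h3

include m in
theorem as_ex (k : ℕ) (h : ∀ z : Sing P k →₀ ZMod 2, IsCycle k z → ∃ w, bdry P k w = z) :
    (AS P).Ex univ (k + 1) := fun c hc =>
  theta_inj (m := m) isCompact_univ hc (sg_ex k h _ (theta_coc hc))

include m in
theorem as_rank (k : ℕ) (h : ∀ z z' : Sing P k →₀ ZMod 2, IsCycle k z → IsCycle k z' →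
      (∃ w, bdry P k w = z) ∨ (∃ w, bdry P k w = z') ∨ (∃ w, bdry P k w = z - z'))
    (c c' : Ch P) (hc : (AS P).Coc univ (k + 1) c) (hc' : (AS P).Coc univ (k + 1) c') :
    (AS P).Cob univ (k + 1) c ∨ (AS P).Cob univ (k + 1) c' ∨
      (AS P).Cob univ (k + 1) (c - c') := by
  rcases sg_rank k h _ _ (theta_coc hc) (theta_coc hc') with h1 | h1 | h1
  · exact Or.inl (theta_inj (m := m) isCompact_univ hc h1)
  · exact Or.inr (Or.inl (theta_inj (m := m) isCompact_univ hc' h1))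
  · refine Or.inr (Or.inr (theta_inj (m := m) isCompact_univ (hc.sub hc') ?_))
    rw [theta_sub]
    exact h1

end

end Pool.Agent.W595.Plane
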