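import Pool.Agent.W595.S13073Aux

/-!
# Betti numbers mod 2 (Mathlib) in terms of explicit chains
-/

set_option autoImplicit false

namespace Pool.Agent.W595

open CategoryTheory AlgebraicTopology Simplicial Opposite Limits
open Pool.Agent.Helper775.Tight Pool.Agent.W595.Bridge

noncomputable section

/-- singular homology mod 2, as in Mathlib -/
abbrev HH (X : Type) [TopologicalSpace X] (n : ℕ) : ModuleCat.{0} (ZMod 2) :=
  ((singularHomologyFunctor (ModuleCat.{0} (ZMod 2)) n).obj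
    (ModuleCat.of (ZMod 2) (ZMod 2))).obj (TopCat.of X)

theorem cyc_d {X : Type} [TopologicalSpace X] (n : ℕ) (u : Sing X n →₀ ZMod 2)
    (hu : IsCycle n u) : elt (toC X n u) ≫ (KK X).d n ((ComplexShape.down ℕ).next n) = 0 := by
  rw [elt_comp]
  have h5 : ((KK X).d n ((ComplexShape.down ℕ).next n)).hom (toC X n u) = 0 := by
    cases n with
    | zero =>
      rw [HomologicalComplex.shape _ _ _ (by simp)]
      rfl
    | succ m =>
      have h3 : (ComplexShape.down ℕ).next (m + 1) = m := by simp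
      rw [h3, d_toC]
      have h4 : bdry X m u = 0 := hu
      rw [h4, map_zero]
  rw [h5]
  apply ModuleCat.hom_ext
  refine LinearMap.ext_ring ?_
  rw [elt_one]
  rfl

/-- the homology class of a cycle -/
def cl {X : Type} [TopologicalSpace X] (n : ℕ) (u : Sing X n →₀ ZMod 2)
    (hu : IsCycle n u) : FF ⟶ HH X n :=
  (KK X).liftCycles (elt (toC X n u)) _ rfl (cyc_d n u hu) ≫ (KK X).homologyπ n

theorem bdry_of_elt {X : Type} [TopologicalSpace X] (n : ℕ) (u : Sing X n →₀ ZMod 2)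
    {A' : ModuleCat.{0} (ZMod 2)} (π : A' ⟶ FF) (hπ : Epi π) (x₁ : A' ⟶ (KK X).X (n + 1))
    (hx : π ≫ elt (toC X n u) = x₁ ≫ (KK X).d (n + 1) n) : ∃ b, bdry X n b = u := by
  have hs : Function.Surjective π := (ModuleCat.epi_iff_surjective π).1 hπ
  obtain ⟨a, ha⟩ := hs (1 : ZMod 2)
  refine ⟨(ofC X (n + 1)).hom (x₁.hom a), ?_⟩
  apply toC_injective
  rw [← d_toC, toC_ofC]
  have h2 : (π ≫ elt (toC X n u)).hom a = (x₁ ≫ (KK X).d (n + 1) n).hom a := by rw [hx]
  have h6 : (π ≫ elt (toC X n u)).hom a = toC X n u := by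
    show (elt (toC X n u)).hom (π.hom a) = toC X n u
    have ha' : π.hom a = (1 : ZMod 2) := ha
    rw [ha', elt_one]
  rw [← h6, h2]
  rfl

theorem bdry_of_cl_zero {X : Type} [TopologicalSpace X] (n : ℕ) (u : Sing X n →₀ ZMod 2)
    (hu : IsCycle n u) (h : cl n u hu = 0) : ∃ b, bdry X n b = u := by
  obtain ⟨A', π, hπ, x₁, hx⟩ :=
    ((KK X).liftCycles_comp_homologyπ_eq_zero_iff_up_to_refinements (n + 1) n
      ((ComplexShape.down ℕ).next n) (by simp) rfl _ (cyc_d n u hu)).1 h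
  exact bdry_of_elt n u π hπ x₁ hx

theorem bdry_of_cl_eq {X : Type} [TopologicalSpace X] (n : ℕ) (u v : Sing X n →₀ ZMod 2)
    (hu : IsCycle n u) (hv : IsCycle n v) (h : cl n u hu = cl n v hv) :
    ∃ b, bdry X n b = u - v := by
  obtain ⟨A', π, hπ, x₁, hx⟩ :=
    ((KK X).liftCycles_comp_homologyπ_eq_iff_up_to_refinements (n + 1) n
      ((ComplexShape.down ℕ).next n) (by simp) rfl _ _ (cyc_d n u hu) (cyc_d n v hv)).1 h
  refine bdry_of_elt n (u - v) π hπ x₁ ?_
  have e : elt (toC X n (u - v)) = elt (toC X n u) - elt (toC X n v) := by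
    apply ModuleCat.hom_ext
    refine LinearMap.ext_ring ?_
    change (elt (toC X n (u - v))).hom (1 : ZMod 2) =
      (elt (toC X n u)).hom (1 : ZMod 2) - (elt (toC X n v)).hom (1 : ZMod 2)
    rw [elt_one, elt_one, elt_one, map_sub]
  rw [e, Preadditive.comp_sub, hx]
  abel

theorem cl_eq_of_one {X : Type} [TopologicalSpace X] (n : ℕ) {g g' : FF ⟶ HH X n}
    (h : g.hom (1 : ZMod 2) = g'.hom (1 : ZMod 2)) : g = g' := by
  apply ModuleCat.hom_ext
  exact LinearMap.ext_ring h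

theorem bounds_of_rank_zero {X : Type} [TopologicalSpace X] (n : ℕ)
    (h : Module.rank (ZMod 2) (HH X n) = 0) (u : Sing X n →₀ ZMod 2) (hu : IsCycle n u) :
    ∃ b, bdry X n b = u := by
  have : Subsingleton (HH X n) := rank_zero_iff.1 h
  refine bdry_of_cl_zero n u hu (cl_eq_of_one n ?_)
  exact Subsingleton.elim _ _

theorem bounds_of_rank_one {X : Type} [TopologicalSpace X] (n : ℕ)
    (h : Module.rank (ZMod 2) (HH X n) = 1) (u v : Sing X n →₀ ZMod 2) (hu : IsCycle n u)
    (hv : IsCycle n v) :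
    (∃ b, bdry X n b = u) ∨ (∃ b, bdry X n b = v) ∨ ∃ b, bdry X n b = u - v := by
  obtain ⟨v₀, hv₀⟩ := rank_le_one_iff.1 h.le
  have two : ∀ r : ZMod 2, r = 0 ∨ r = 1 := by decide
  obtain ⟨r, hr⟩ := hv₀ ((cl n u hu).hom (1 : ZMod 2))
  obtain ⟨r', hr'⟩ := hv₀ ((cl n v hv).hom (1 : ZMod 2))
  rcases two r with rfl | rfl
  · left
    refine bdry_of_cl_zero n u hu (cl_eq_of_one n ?_)
    rw [← hr, zero_smul]
    rfl
  · rcases two r' with rfl | rfl
    · right; left
      refine bdry_of_cl_zero n v hv (cl_eq_of_one n ?_)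
      rw [← hr', zero_smul]
      rfl
    · right; right
      refine bdry_of_cl_eq n u v hu hv (cl_eq_of_one n ?_)
      rw [← hr, ← hr']

end

end Pool.Agent.W595
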