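import Pool.Agent.W595.Plane.Metric
import Pool.Agent.W595.Plane.Betti
import Pool.Agent.W595.Plane.HomBridge
import Pool.Agent.W595.Plane.Hyp

/-!
# From the manifold to the tight data `TD`
-/

set_option autoImplicit false
set_option linter.unusedSectionVars false

namespace Pool.Agent.W595.Plane

open Set Topology Filter
open Pool.Agent.Helper775.Tight (AS surj_of_sing IsCycle bdry Sing HomologyInjective top)
open scoped Manifold ContDiff InnerProductSpace

section

variable {M : Type} [TopologicalSpace M]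

theorem connected_of_betti (h : Module.rank (ZMod 2) ((HomologyMod2 0).obj (TopCat.of M)) = 1) :
    PreconnectedSpace M := by
  classical
  rw [preconnectedSpace_iff_clopen]
  intro U hU
  by_contra hcon
  push Not at hcon
  obtain ⟨h1, h2⟩ := hcon
  obtain ⟨x, hx⟩ := h1
  obtain ⟨y, hy⟩ : ∃ y, y ∉ U := by
    by_contra hc
    push Not at hc
    exact h2 (eq_univ_of_forall hc)
  set u : Sing M 0 →₀ ZMod 2 := Finsupp.single (ContinuousMap.const _ x) 1 with hu
  set v : Sing M 0 →₀ ZMod 2 := Finsupp.single (ContinuousMap.const _ y) 1 with hv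
  have wtu : ∀ V : Set M, Bridge.wt V u = if x ∈ V then 1 else 0 := by
    intro V
    rw [Bridge.wt, hu, Finsupp.linearCombination_single, one_smul]
    rfl
  have wtv : ∀ V : Set M, Bridge.wt V v = if y ∈ V then 1 else 0 := by
    intro V
    rw [Bridge.wt, hv, Finsupp.linearCombination_single, one_smul]
    rfl
  rcases bounds_of_rank_one 0 h u v trivial trivial with ⟨b, hb⟩ | ⟨b, hb⟩ | ⟨b, hb⟩
  · have h3 := Bridge.wt_bdry hU b
    rw [hb, wtu, if_pos hx] at h3
    exact one_ne_zero h3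
  · have h3 := Bridge.wt_bdry hU.compl b
    rw [hb, wtv, if_pos (show y ∈ Uᶜ from hy)] at h3
    exact one_ne_zero h3
  · have h3 := Bridge.wt_bdry hU b
    rw [hb, map_sub, wtu, wtv, if_pos hx, if_neg hy, sub_zero] at h3
    exact one_ne_zero h3

theorem homologyInjective_of_tight {E : Type} [NormedAddCommGroup E] [InnerProductSpace ℝ E]
    {f : M → E} (ht : Tight f) (z : E) (hz : z ≠ 0) (t : ℝ) :
    HomologyInjective {x | t ≤ ⟪z, f x⟫_ℝ} := fun n c h1 h2 h3 =>
  Bridge.inj_of_mono _ n (ht z t hz n) c h1 h2 h3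

end

section

variable {M : Type} [MetricSpace M] [CompactSpace M] {d : ℕ} [ChartedSpace (Eu (2 * d)) M]

theorem topHyp_of (hd : 2 ≤ d) (hb : LikeProjectivePlane d M) {f : M → Eu (3 * d + 2)}
    (hf : Continuous f) (ht : Tight f) : TopHyp d f where
  surj z hz t n hn c hc := surj_of_sing (m := 2 * d) (fun x => ⟪z, f x⟫_ℝ)
    (continuous_const.inner hf) t (fun t' _ => homologyInjective_of_tight ht z hz t') n c hc
  ex n hn hn2 hnd := by
    obtain ⟨k, rfl⟩ : ∃ k, n = k + 1 := ⟨n - 1, by omega⟩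
    refine as_ex (m := 2 * d) k fun z hz => ?_
    have h1 := hb k
    rw [if_neg (by omega)] at h1
    exact bounds_of_rank_zero k h1 z hz
  rank c c' hc hc' := by
    refine as_rank (m := 2 * d) d (fun z z' hz hz' => ?_) c c' hc hc'
    have h1 := hb d
    rw [if_pos (by omega)] at h1
    exact bounds_of_rank_one d h1 z z' hz hz'

theorem td_metric (hd : 2 ≤ d) (hb : LikeProjectivePlane d M) {f : M → Eu (3 * d + 2)}
    (hf : ContMDiff (𝓡 (2 * d)) 𝓘(ℝ, Eu (3 * d + 2)) ∞ f)
    (hi : ∀ x, Function.Injective (mfderiv (𝓡 (2 * d)) 𝓘(ℝ, Eu (3 * d + 2)) f x))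
    (ht : Tight f) (hs : Substantial f) :
    ∃ D : TD d M (ℝ × Eu (3 * d + 2)) (Eu (2 * d)), ∀ m, D.hat m = ((1 : ℝ), f m) := by
  have H := topHyp_of hd hb hf.continuous ht
  obtain ⟨x₀, -⟩ := hs (EuclideanSpace.single ⟨0, by omega⟩ 1) 0 (by
    intro h
    have := congrArg (fun v => v ⟨0, by omega⟩) h
    simp at this)
  have : Nonempty M := ⟨x₀⟩
  have h0 : Module.rank (ZMod 2) ((HomologyMod2 0).obj (TopCat.of M)) = 1 := by
    rw [hb 0, if_pos (Or.inl rfl)]
  have : PreconnectedSpace M := connected_of_betti h0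
  have : ConnectedSpace M := ⟨inferInstance⟩
  have : LocallyPathConnectedSpace M := ChartedSpace.locallyPathConnectedSpace (Eu (2 * d)) M
  have : PathConnectedSpace M := pathConnectedSpace_iff_connectedSpace.2 inferInstance
  have hconn : ∀ (z : Eu (3 * d + 2)) (t : ℝ), z ≠ 0 → IsPreconnected {x | t ≤ ⟪z, f x⟫_ℝ} :=
    fun z t hz => Bridge.preconnected_of_mono _ (ht z t hz 0)
  have hinj := fun x => fA_injective hf x (hi x)
  refine ⟨{
    hat := hat f
    A := tA (2 * d) f
    S := tS (2 * d) f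
    d_pos := hd
    symm := fun x v w => by rw [tS_apply, tS_apply, fS_symm hf]
    imm := fun x c v h => ?_
    dimT := by simp
    dimV := by simp [Module.finrank_prod]; omega
    cont := fun φ => continuous_phi hf φ
    F1 := fun x φ h h0 => td_F1 hf x φ h h0
    F2 := fun Q h h' x v => td_F2 hf Q h h' x v
    F4 := fun Q h h' x hx hA v => td_F4 hf Q h h' x hx hA v
    F3 := fun x φ h0 hA hS y hy => td_F3 hf (by omega) hconn x φ h0 hA hS y hy
    idx := fun x φ h0 hA b ε hε hdiag => idx_metric hd H hf x φ h0 hA b ε hε hdiag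
    common := fun x y => ?_
    plus := fun φ h => td_plus hf hinj hs φ h
    full := fun x φ ψ h1 h2 h3 h4 b ε h5 h6 h7 h8 g h9 h10 h11 s hs =>
      full_metric hd H hf x φ ψ h1 h2 h3 h4 b ε h5 h6 h7 h8 g h9 h10 h11 s hs }, fun m => rfl⟩
  · have h1 : c = 0 := by
      have := congrArg Prod.fst h
      simpa [hat] using this
    subst h1
    refine ⟨rfl, hinj x ?_⟩
    have := congrArg Prod.snd h
    simpa [hat] using this
  · obtain ⟨z, hz, hx, hy⟩ := common_metric hd H hf.continuous hs x y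
    set φ : (ℝ × Eu (3 * d + 2)) →ₗ[ℝ] ℝ := (⟪z, f x⟫_ℝ • LinearMap.fst ℝ ℝ (Eu (3 * d + 2))) -
      ((innerSL ℝ z).toLinearMap ∘ₗ LinearMap.snd ℝ ℝ (Eu (3 * d + 2))) with hφ
    have hφa : ∀ (r : ℝ) (w : Eu (3 * d + 2)), φ (r, w) = ⟪z, f x⟫_ℝ * r - ⟪z, w⟫_ℝ := by
      intro r w; simp [hφ]
    have hφf : ∀ y, φ (hat f y) = ⟪z, f x⟫_ℝ - ⟪z, f y⟫_ℝ := by
      intro y
      rw [hat, hφa, mul_one]
    refine ⟨φ, ?_, ?_, ?_, ?_⟩
    · intro h
      have h1 : φ (0, z) = 0 := by rw [h]; rfl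
      rw [hφa, real_inner_self_eq_norm_sq, hz] at h1
      norm_num at h1
    · intro m
      rw [hφf]
      have := hx m
      linarith
    · rw [hφf, sub_self]
    · rw [hφf]
      have h1 := hx y
      have h2 := hy x
      linarith

end

/-- the tight data of a tight substantial immersion -/
theorem exists_td {M : Type} [TopologicalSpace M] [T2Space M] [CompactSpace M] {d : ℕ}
    [ChartedSpace (Eu (2 * d)) M] (hd : 2 ≤ d) (hb : LikeProjectivePlane d M)
    {f : M → Eu (3 * d + 2)} (hf : ContMDiff (𝓡 (2 * d)) 𝓘(ℝ, Eu (3 * d + 2)) ∞ f)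
    (hi : ∀ x, Function.Injective (mfderiv (𝓡 (2 * d)) 𝓘(ℝ, Eu (3 * d + 2)) f x))
    (ht : Tight f) (hs : Substantial f) :
    ∃ D : TD d M (ℝ × Eu (3 * d + 2)) (Eu (2 * d)), ∀ m, D.hat m = ((1 : ℝ), f m) := by
  have : SecondCountableTopology M :=
    ChartedSpace.secondCountable_of_sigmaCompact (Eu (2 * d)) M
  have : TopologicalSpace.MetrizableSpace M :=
    TopologicalSpace.metrizableSpace_of_t3_secondCountable M
  let _ : MetricSpace M := TopologicalSpace.metrizableSpaceMetric M
  exact td_metric hd hb hf hi ht hs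

end Pool.Agent.W595.Plane
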