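import Mathlib

/-!
# Second order Taylor expansion
-/

set_option autoImplicit false

namespace Pool.Agent.W595.Plane

open Set Topology Filter

/-- Second order Taylor expansion at the origin. -/
theorem taylor2 {T E : Type*} [NormedAddCommGroup T] [NormedSpace ℝ T] [NormedAddCommGroup E]
    [NormedSpace ℝ E] {F : T → E} (hF : ContDiffAt ℝ 2 F 0) {η : ℝ} (hη : 0 < η) :
    ∀ᶠ w in 𝓝 (0 : T), ‖F w - F 0 - fderiv ℝ F 0 w - (1 / 2 : ℝ) • fderiv ℝ (fderiv ℝ F) 0 w w‖ ≤
      η * ‖w‖ ^ 2 := by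
  have hsymm : IsSymmSndFDerivAt ℝ F 0 := hF.isSymmSndFDerivAt (by simp)
  have h1 : ContDiffAt ℝ 1 (fderiv ℝ F) 0 := hF.fderiv_right (m := 1) (by norm_num)
  have h2 : HasFDerivAt (fderiv ℝ F) (fderiv ℝ (fderiv ℝ F) 0) 0 :=
    (h1.differentiableAt (by norm_num)).hasFDerivAt
  have h3 := (hasFDerivAt_iff_isLittleO_nhds_zero.1 h2).def hη
  have h4 : ∀ᶠ w in 𝓝 (0 : T), DifferentiableAt ℝ F w := by
    have := hF.eventually (by simp)
    filter_upwards [this] with w hw
    exact hw.differentiableAt (by norm_num)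
  obtain ⟨r, hr, hball⟩ := Metric.eventually_nhds_iff_ball.1 (h3.and h4)
  filter_upwards [Metric.ball_mem_nhds (0 : T) hr] with w hw
  set D2 := fderiv ℝ (fderiv ℝ F) 0 with hD2
  set G : T → E := fun w => F w - F 0 - fderiv ℝ F 0 w - (1 / 2 : ℝ) • D2 w w with hG
  have hG0 : G 0 = 0 := by simp [hG]
  have hder : ∀ x ∈ Metric.ball (0 : T) r, HasFDerivAt G (fderiv ℝ F x - fderiv ℝ F 0 - D2 x) x := by
    intro x hx
    have hx1 := (hball x hx).2.hasFDerivAt
    have hq : HasFDerivAt (fun w : T => D2 w w) (D2 x + D2.flip x) x := by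
      have := (D2.hasFDerivAt (x := x)).clm_apply (hasFDerivAt_id x)
      exact this
    have hflip : D2.flip x = D2 x := by
      ext y
      exact hsymm.eq y x
    rw [hflip] at hq
    have := ((hx1.sub_const (F 0)).sub ((fderiv ℝ F 0).hasFDerivAt (x := x))).sub
      (hq.const_smul (1 / 2 : ℝ))
    have e1 : (1 / 2 : ℝ) • (D2 x + D2 x) = D2 x := by
      rw [← two_smul ℝ (D2 x), smul_smul]
      norm_num
    rw [e1] at this
    exact this
  have hwr : ‖w‖ < r := by simpa using hw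
  have key := (convex_closedBall (0 : T) ‖w‖).norm_image_sub_le_of_norm_hasFDerivWithin_le
    (f := G) (f' := fun x => fderiv ℝ F x - fderiv ℝ F 0 - D2 x) (C := η * ‖w‖)
    (x := 0) (y := w) (fun x hx => (hder x (by
      rw [mem_closedBall_zero_iff] at hx
      rw [mem_ball_zero_iff]; linarith)).hasFDerivWithinAt) (fun x hx => by
      rw [mem_closedBall_zero_iff] at hx
      have h5 := (hball x (by rw [mem_ball_zero_iff]; linarith)).1
      simp only [zero_add] at h5
      exact h5.trans (by gcongr)) (by simp) (by simp)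
  rw [hG0, sub_zero, sub_zero] at key
  calc ‖G w‖ ≤ η * ‖w‖ * ‖w‖ := key
    _ = η * ‖w‖ ^ 2 := by ring

end Pool.Agent.W595.Plane
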