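import Pool.Agent.W595.Plane.TD
import Pool.Agent.W595.Plane.Taylor

/-!
# First and second derivative of a smooth map at a point, in the preferred chart
-/

set_option autoImplicit false

namespace Pool.Agent.W595.Plane

open Set Topology Filter
open scoped Manifold ContDiff InnerProductSpace

section

variable {n : ℕ} {M : Type} [TopologicalSpace M] [ChartedSpace (Eu n) M]
  {E : Type} [NormedAddCommGroup E] [NormedSpace ℝ E]

/-- the preferred chart at `x`, translated such that `x` goes to `0`. -/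
noncomputable def ch (n : ℕ) {M : Type} [TopologicalSpace M] [ChartedSpace (Eu n) M] (x : M) :
    OpenPartialHomeomorph M (Eu n) :=
  (chartAt (Eu n) x).trans (Homeomorph.addRight (-(chartAt (Eu n) x x))).toOpenPartialHomeomorph

theorem mem_ch_source (x : M) : x ∈ (ch n x).source := by
  simp [ch]

theorem ch_self (x : M) : ch n x x = 0 := by
  simp [ch]

theorem zero_mem_ch_target (x : M) : (0 : Eu n) ∈ (ch n x).target := by
  rw [← ch_self x]
  exact (ch n x).map_source (mem_ch_source x)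

theorem ch_symm_zero (x : M) : (ch n x).symm 0 = x := by
  rw [← ch_self x]
  exact (ch n x).left_inv (mem_ch_source x)

theorem ch_symm_apply (x : M) (w : Eu n) :
    (ch n x).symm w = (chartAt (Eu n) x).symm (w + chartAt (Eu n) x x) := by
  have : (Homeomorph.addRight (-(chartAt (Eu n) x x))).symm w = w + chartAt (Eu n) x x := by
    rw [Homeomorph.symm_apply_eq]
    simp
  simp only [ch, mfld_simps]
  rw [this]

/-- first derivative -/
noncomputable def fA (n : ℕ) {M : Type} [TopologicalSpace M] [ChartedSpace (Eu n) M]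
    {E : Type} [NormedAddCommGroup E] [NormedSpace ℝ E] (f : M → E) (x : M) : Eu n →L[ℝ] E :=
  fderiv ℝ (fun w => f ((ch n x).symm w)) 0

/-- second derivative -/
noncomputable def fS (n : ℕ) {M : Type} [TopologicalSpace M] [ChartedSpace (Eu n) M]
    {E : Type} [NormedAddCommGroup E] [NormedSpace ℝ E] (f : M → E) (x : M) :
    Eu n →L[ℝ] Eu n →L[ℝ] E :=
  fderiv ℝ (fderiv ℝ (fun w => f ((ch n x).symm w))) 0

variable {f : M → E}

theorem two_le_infty : (2 : WithTop ℕ∞) ≤ ∞ := ENat.LEInfty.out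

theorem contDiffAt_ch (hf : ContMDiff (𝓡 n) 𝓘(ℝ, E) ∞ f) (x : M) :
    ContDiffAt ℝ ∞ (fun w => f ((ch n x).symm w)) 0 := by
  have h1 := (contMDiffAt_iff.1 (hf x)).2
  simp only [extChartAt, mfld_simps] at h1
  rw [contDiffWithinAt_univ] at h1
  have h2 : ContDiffAt ℝ ∞ (f ∘ (chartAt (Eu n) x).symm) (0 + chartAt (Eu n) x x) := by
    rw [zero_add]; exact h1
  have h3 : ContDiffAt ℝ ∞ (fun w : Eu n => w + chartAt (Eu n) x x) 0 := by fun_prop
  have h4 := ContDiffAt.comp (0 : Eu n) (f := fun w : Eu n => w + chartAt (Eu n) x x) h2 h3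
  refine h4.congr_of_eventuallyEq (Eventually.of_forall fun w => ?_)
  simp only [Function.comp_apply, ch_symm_apply]

theorem fA_injective (hf : ContMDiff (𝓡 n) 𝓘(ℝ, E) ∞ f) (x : M)
    (hi : Function.Injective (mfderiv (𝓡 n) 𝓘(ℝ, E) f x)) : Function.Injective (fA n f x) := by
  have h0 : MDifferentiableAt (𝓡 n) 𝓘(ℝ, E) f x := (hf x).mdifferentiableAt (by simp)
  have h1 : (mfderiv (𝓡 n) 𝓘(ℝ, E) f x : Eu n →L[ℝ] E) = fA n f x := by
    refine h0.mfderiv.trans ?_
    simp only [writtenInExtChartAt, extChartAt, mfld_simps]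
    rw [fderivWithin_univ]
    have h2 := (contMDiffAt_iff.1 (hf x)).2
    simp only [extChartAt, mfld_simps] at h2
    rw [contDiffWithinAt_univ] at h2
    have h3 : HasFDerivAt (f ∘ (chartAt (Eu n) x).symm)
      (fderiv ℝ (f ∘ (chartAt (Eu n) x).symm) (chartAt (Eu n) x x)) (0 + chartAt (Eu n) x x) := by
      rw [zero_add]
      exact (h2.differentiableAt (by simp)).hasFDerivAt
    have h4 : HasFDerivAt (fun w : Eu n => w + chartAt (Eu n) x x)
      (ContinuousLinearMap.id ℝ (Eu n)) 0 := (hasFDerivAt_id (0 : Eu n)).add_const _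
    have h5 := HasFDerivAt.comp (0 : Eu n) (f := fun w : Eu n => w + chartAt (Eu n) x x) h3 h4
    have h6 : fA n f x = fderiv ℝ (f ∘ (chartAt (Eu n) x).symm) (chartAt (Eu n) x x) := by
      rw [fA]
      have h7 : (fun w => f ((ch n x).symm w)) =
          (f ∘ (chartAt (Eu n) x).symm) ∘ fun w : Eu n => w + chartAt (Eu n) x x := by
        funext w
        simp only [Function.comp_apply, ch_symm_apply]
      rw [h7, h5.fderiv, ContinuousLinearMap.comp_id]
    rw [h6]
  intro v w hvw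
  have h2 : (mfderiv (𝓡 n) 𝓘(ℝ, E) f x : Eu n →L[ℝ] E) v =
      (mfderiv (𝓡 n) 𝓘(ℝ, E) f x : Eu n →L[ℝ] E) w := by
    rw [h1]; exact hvw
  exact hi h2

theorem fS_symm (hf : ContMDiff (𝓡 n) 𝓘(ℝ, E) ∞ f) (x : M) (v w : Eu n) :
    fS n f x v w = fS n f x w v :=
  ((contDiffAt_ch hf x).isSymmSndFDerivAt (by simpa using two_le_infty)).eq v w

/-- Taylor expansion -/
theorem taylor_ch (hf : ContMDiff (𝓡 n) 𝓘(ℝ, E) ∞ f) (x : M) {η : ℝ} (hη : 0 < η) :
    ∀ᶠ w in 𝓝 (0 : Eu n), ‖f ((ch n x).symm w) - f x - fA n f x w -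
      (1 / 2 : ℝ) • fS n f x w w‖ ≤ η * ‖w‖ ^ 2 := by
  have := taylor2 (F := fun w => f ((ch n x).symm w)) ((contDiffAt_ch hf x).of_le two_le_infty) hη
  simp only [ch_symm_zero] at this
  exact this

end

end Pool.Agent.W595.Plane
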