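import Pool.Agent.Helper775.Tight.Final

/-!
# Common top sets

Refinement of the argument in `Pool/Agent/Helper775/Tight/Core.lean`: for a tight substantial map of
a manifold like a projective plane into `ℝ^(3 d + 2)` any two points lie in a common top set.
-/

set_option autoImplicit false

namespace Pool.Agent.W595.Plane

open Set Topology Pool.Agent.Helper775.Tight Pool.Agent.Helper775.Tight.SoftCx
open scoped InnerProductSpace

section core

variable {P : Type*} [MetricSpace P] [CompactSpace P] {E : Type*} [NormedAddCommGroup E]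
  [InnerProductSpace ℝ E] [FiniteDimensional ℝ E]

variable {f : P → E} (hf : Continuous f)

include hf

/-- In the extremal dimension any two points lie in a common top set. -/
theorem core_common {d N : ℕ} (hd : 1 ≤ d) (hN : N = 3 * d + 2)
    (h0 : ∀ z : E, z ≠ 0 → ∃ x, 0 < ⟪z, f x⟫_ℝ) (a : Ch P) (ha : (AS P).Coc univ (d + 1) a)
    (hfib : ∀ z : E, ‖z‖ = 1 → (AS P).Acy one (top f z) ∨ (AS P).AType one d a (top f z))
    (hP : ∀ Z : Set P, IsCompact Z → ∀ n, 2 * d + 2 ≤ n → (AS P).Ex Z n)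
    (hPP : ∀ Z : Set (P × P), IsClosed Z → Z ≠ univ → (AS (P × P)).Ex Z (4 * d + 1))
    (hS : ∃ e, (AS E).Coc (Metric.sphere (0 : E) 1) N e ∧
      ¬ (AS E).Cob (Metric.sphere (0 : E) 1) N e) (x₁ y₁ : P) :
    ∃ z : E, ‖z‖ = 1 ∧ x₁ ∈ top f z ∧ y₁ ∈ top f z := by
  by_contra hxy
  set S : Set E := Metric.sphere (0 : E) 1 with hSdef
  have hSc : IsCompact S := isCompact_sphere _ _
  have hG := isCompact_GG hf
  have hG2 := isCompact_GG2 hf
  -- fibres of `GG → E`
  have fib1 : ∀ z : E, ‖z‖ = 1 → ∀ q ∈ GG f ∩ Prod.snd ⁻¹' {z}, q.1 ∈ top f z := by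
    rintro z hz ⟨x, z'⟩ ⟨h1, h2⟩
    have : z' = z := h2
    subst this
    exact h1.2
  have fib1' : ∀ z : E, ‖z‖ = 1 → ∀ x ∈ top f z, ((x, z) : P × E) ∈ GG f ∩ Prod.snd ⁻¹' {z} :=
    fun z hz x hx => ⟨⟨hz, hx⟩, rfl⟩
  have fibAcy : ∀ z : E, ‖z‖ = 1 → (AS P).Acy one (top f z) →
      (AS (P × E)).Acy one (GG f ∩ Prod.snd ⁻¹' {z}) := by
    intro z hz h
    have hne : (top f z).Nonempty := by
      by_contra hne
      rw [not_nonempty_iff_eq_empty] at hne
      exact h.1 (by simp [hne])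
    refine acy_retract (g := Prod.fst) (g' := fun x => (x, z)) (fun x _ => continuous_fst.continuousAt)
      (fun x _ => (Continuous.prodMk_left z).continuousAt) (fun q hq => fib1 z hz q hq)
      (fun x hx => fib1' z hz x hx) ?_ ?_ h
    · rintro ⟨x, z'⟩ ⟨h1, h2⟩
      have : z' = z := h2
      rw [this]
    · obtain ⟨x, hx⟩ := hne
      exact ⟨_, fib1' z hz x hx⟩
  have fibA : ∀ z : E, ‖z‖ = 1 → (AS P).AType one d a (top f z) →
      (AS (P × E)).AType one d (pb Prod.fst a) (GG f ∩ Prod.snd ⁻¹' {z}) := by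
    intro z hz h
    have hne : (top f z).Nonempty := by
      by_contra hne
      rw [not_nonempty_iff_eq_empty] at hne
      exact h.1 (by simp [hne])
    refine atype_transfer (g := Prod.fst) (g' := fun x => (x, z))
      (fun x _ => continuous_fst.continuousAt)
      (fun x _ => (Continuous.prodMk_left z).continuousAt) (fun q hq => fib1 z hz q hq)
      (fun x hx => fib1' z hz x hx) ?_ (fun _ _ => rfl) ?_ (ha.mono (subset_univ _)) h
    · rintro ⟨x, z'⟩ ⟨h1, h2⟩
      have : z' = z := h2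
      rw [this]
    · obtain ⟨x, hx⟩ := hne
      exact ⟨_, fib1' z hz x hx⟩
  have ha1 : (AS (P × E)).Coc (GG f) (d + 1) (pb Prod.fst a) :=
    coc_pb (fun _ _ => continuous_fst.continuousAt) (mapsTo_univ _ _) ha
  -- the set `B`
  set B : Set E := S ∩ {z | ¬ (PF Prod.snd continuous_snd (GG f) hG).Cob {z} (d + 1)
    (pb Prod.fst a)} with hBdef
  have hBc : IsCompact B := by
    refine hSc.inter_right (t := {z | ¬ (PF Prod.snd continuous_snd (GG f) hG).Cob {z} (d + 1)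
      (pb Prod.fst a)}) ?_
    rw [← isOpen_compl_iff]
    rw [isOpen_iff_forall_mem_open]
    intro z hz
    have hz' : (PF Prod.snd continuous_snd (GG f) hG).Cob {z} (d + 1) (pb Prod.fst a) := by
      by_contra h
      exact hz h
    obtain ⟨U, hU, hzU, hc⟩ := hz'.isOpen
    exact ⟨U, fun w hw h => h (hc.mono (singleton_subset_iff.2 hw)), hU, hzU rfl⟩
  have hBS : B ⊆ S := inter_subset_left
  have hBtype : ∀ z ∈ B, (AS P).AType one d a (top f z) := by
    rintro z ⟨hz, hzB⟩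
    have hz1 : ‖z‖ = 1 := by simpa [hSdef] using hz
    rcases hfib z hz1 with h | h
    · exfalso
      apply hzB
      rw [push_cob]
      have h1 := (fibAcy z hz1 h).2.2 (d + 1) (by omega)
      exact h1 _ (ha1.mono inter_subset_left)
    · exact h
  have hBtype' : ∀ z ∈ S \ B, (AS P).Acy one (top f z) := by
    rintro z ⟨hz, hzB⟩
    have hz1 : ‖z‖ = 1 := by simpa [hSdef] using hz
    rcases hfib z hz1 with h | h
    · exact h
    · exfalso
      apply hzB
      refine ⟨hz, ?_⟩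
      rw [mem_setOf_eq, push_cob]
      exact (fibA z hz1 h).2.2.2.2
  -- step 1 + 2: `GG` has no cohomology in index `≥ 2 d + 2`
  have hGex : ∀ n, 2 * d + 2 ≤ n → (AS (P × E)).Ex (GG f) n := by
    intro n hn
    refine vietoris_begle (p := Prod.fst) continuous_fst hG ?_
      (hP _ (hG.image continuous_fst) n hn)
    rintro x ⟨⟨x', z⟩, hq, rfl⟩
    have h1 := acy_normal hf h0 (x := x') (y := x') ⟨z, hq.1, hq.2, hq.2⟩
    refine acy_retract (g := Prod.snd) (g' := fun z => (x', z))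
      (fun x _ => continuous_snd.continuousAt)
      (fun x _ => (Continuous.prodMk_right x').continuousAt) ?_ ?_ ?_ ⟨_, hq, rfl⟩ h1
    · rintro ⟨x, z⟩ ⟨h2, h3⟩
      have : x = x' := h3
      subst this
      exact ⟨h2.1, h2.2, h2.2⟩
    · rintro z ⟨h2, h3, h4⟩
      exact ⟨⟨h2, h3⟩, rfl⟩
    · rintro ⟨x, z⟩ ⟨h2, h3⟩
      have : x = x' := h3
      rw [this]
  -- step 3
  have hGS : GG f ∩ Prod.snd ⁻¹' S = GG f := by
    ext q
    refine ⟨fun h => h.1, fun h => ⟨h, ?_⟩⟩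
    simpa [hSdef] using h.1
  obtain ⟨e, he, hne⟩ := hS
  obtain ⟨m, hm⟩ : ∃ m, N = m + d + 1 := ⟨N - d - 1, by omega⟩
  have hm2 : m = 2 * d + 1 := by omega
  obtain ⟨b, hb, hnb⟩ := g1 (p := Prod.snd) continuous_snd hG hd ha1 hSc hBc hBS
    (fun w hw => fibAcy w (by simpa [hSdef] using hw.1) (hBtype' w hw))
    (fun w hw => fibA w (by simpa [hSdef] using hBS hw) (hBtype w hw)) (m := m)
    (by rw [← hm]; exact he) (by rw [← hm]; exact hne) (by
      rw [hGS]; exact hGex _ (by omega))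
  -- step 4
  obtain ⟨hβ, hnβ⟩ := lh (p := Prod.snd) continuous_snd hG hd ha1 hBc
    (fun w hw => fibA w (by simpa [hSdef] using hBS hw) (hBtype w hw)) hb hnb
  -- step 5: the fibre square
  have ha2 : (AS (P × (P × E))).Coc (GG2 f) (d + 1) (pb Prod.fst a) :=
    coc_pb (fun _ _ => continuous_fst.continuousAt) (mapsTo_univ _ _) ha
  have fib2Acy : ∀ w ∈ GG f, (AS P).Acy one (top f w.2) →
      (AS (P × (P × E))).Acy one (GG2 f ∩ Prod.snd ⁻¹' {w}) := by
    intro w hw h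
    have hne : (top f w.2).Nonempty := ⟨w.1, hw.2⟩
    refine acy_retract (g := Prod.fst) (g' := fun x => (x, w)) (fun x _ => continuous_fst.continuousAt)
      (fun x _ => (Continuous.prodMk_left w).continuousAt) ?_ ?_ ?_ ?_ h
    · rintro ⟨x, w'⟩ ⟨h1, h2⟩
      have : w' = w := h2
      subst this
      exact h1.1
    · intro x hx
      exact ⟨⟨hx, hw⟩, rfl⟩
    · rintro ⟨x, w'⟩ ⟨h1, h2⟩
      have : w' = w := h2
      rw [this]
    · obtain ⟨x, hx⟩ := hne
      exact ⟨(x, w), ⟨⟨hx, hw⟩, rfl⟩⟩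
  have fib2A : ∀ w ∈ GG f, (AS P).AType one d a (top f w.2) →
      (AS (P × (P × E))).AType one d (pb Prod.fst a) (GG2 f ∩ Prod.snd ⁻¹' {w}) := by
    intro w hw h
    have hne : (top f w.2).Nonempty := ⟨w.1, hw.2⟩
    refine atype_transfer (g := Prod.fst) (g' := fun x => (x, w))
      (fun x _ => continuous_fst.continuousAt)
      (fun x _ => (Continuous.prodMk_left w).continuousAt) ?_ ?_ ?_ (fun _ _ => rfl) ?_
      (ha.mono (subset_univ _)) h
    · rintro ⟨x, w'⟩ ⟨h1, h2⟩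
      have : w' = w := h2
      subst this
      exact h1.1
    · intro x hx
      exact ⟨⟨hx, hw⟩, rfl⟩
    · rintro ⟨x, w'⟩ ⟨h1, h2⟩
      have : w' = w := h2
      rw [this]
    · obtain ⟨x, hx⟩ := hne
      exact ⟨(x, w), ⟨⟨hx, hw⟩, rfl⟩⟩
  have hB2c : IsCompact (GG f ∩ Prod.snd ⁻¹' B) :=
    hG.inter_right (hBc.isClosed.preimage continuous_snd)
  have hnot := g2 (p := Prod.snd) continuous_snd hG2 hd ha2 hG hB2c inter_subset_left
    (fun w hw => fib2Acy w hw.1 (hBtype' w.2 ⟨by simpa [hSdef] using hw.1.1, fun h =>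
      hw.2 ⟨hw.1, h⟩⟩))
    (fun w hw => fib2A w hw.1 (hBtype w.2 hw.2)) hβ hnβ (hGex _ (by omega))
  have hG2G : GG2 f ∩ Prod.snd ⁻¹' (GG f) = GG2 f := by
    ext q
    exact ⟨fun h => h.1, fun h => ⟨h, h.2⟩⟩
  rw [hG2G] at hnot
  apply hnot
  -- step 6
  have hpc : Continuous fun q : P × (P × E) => (q.1, q.2.1) := by fun_prop
  have hidx : m + d + d = 4 * d + 1 := by omega
  rw [hidx]
  refine vietoris_begle (p := fun q : P × (P × E) => (q.1, q.2.1)) hpc hG2 ?_
    (hPP _ (hG2.image hpc).isClosed ?_)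
  swap
  · intro hun
    have h1 : (x₁, y₁) ∈ (fun q : P × (P × E) => (q.1, q.2.1)) '' GG2 f := by
      rw [hun]; exact mem_univ _
    obtain ⟨⟨x', y', z'⟩, hq, hq2⟩ := h1
    obtain ⟨rfl, rfl⟩ := Prod.mk.inj hq2
    exact hxy ⟨z', hq.2.1, hq.1, hq.2.2⟩
  rintro w ⟨⟨x, y, z⟩, hq, rfl⟩
  have h1 := acy_normal hf h0 (x := x) (y := y) ⟨z, hq.2.1, hq.1, hq.2.2⟩
  refine acy_retract (g := fun q : P × (P × E) => q.2.2) (g' := fun z => (x, (y, z)))
    (fun q _ => (by fun_prop : Continuous fun q : P × (P × E) => q.2.2).continuousAt)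
    (fun z _ => (by fun_prop : Continuous fun z : E => (x, (y, z))).continuousAt) ?_ ?_ ?_
    ⟨_, hq, rfl⟩ h1
  · rintro ⟨x', y', z'⟩ ⟨h2, h3⟩
    have h3' : (x', y') = (x, y) := h3
    obtain ⟨rfl, rfl⟩ := Prod.mk.inj h3'
    exact ⟨h2.2.1, h2.1, h2.2.2⟩
  · rintro z ⟨h2, h3, h4⟩
    exact ⟨⟨h3, h2, h4⟩, rfl⟩
  · rintro ⟨x', y', z'⟩ ⟨h2, h3⟩
    have h3' : (x', y') = (x, y) := h3
    obtain ⟨rfl, rfl⟩ := Prod.mk.inj h3'
    rfl

end core

end Pool.Agent.W595.Plane
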