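import Mathlib

/-!
# The standard models of the projective planes over the quaternions and the Cayley numbers

Definitions used in the statement about tight embeddings of manifolds like projective planes.
-/

set_option autoImplicit false

namespace Pool.Agent.W595.Plane

open scoped Quaternion InnerProductSpace Matrix

noncomputable section

/-- The Cayley numbers (octonions): pairs of real quaternions with the Cayley-Dickson product
`(a, b) (c, d) = (a c - conj d b, d a + b conj c)` and conjugation `conj (a, b) = (conj a, - b)`. -/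
@[ext] structure Oct where
  /-- first component -/
  fst : ℍ[ℝ]
  /-- second component -/
  snd : ℍ[ℝ]

namespace Oct

instance : Zero Oct := ⟨⟨0, 0⟩⟩
instance : One Oct := ⟨⟨1, 0⟩⟩
instance : Add Oct := ⟨fun x y => ⟨x.fst + y.fst, x.snd + y.snd⟩⟩
instance : Neg Oct := ⟨fun x => ⟨-x.fst, -x.snd⟩⟩
instance : Sub Oct := ⟨fun x y => ⟨x.fst - y.fst, x.snd - y.snd⟩⟩
instance : SMul ℝ Oct := ⟨fun r x => ⟨r • x.fst, r • x.snd⟩⟩
instance : Mul Oct := ⟨fun x y =>
  ⟨x.fst * y.fst - star y.snd * x.snd, y.snd * x.fst + x.snd * star y.fst⟩⟩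
instance : Star Oct := ⟨fun x => ⟨star x.fst, -x.snd⟩⟩

@[simp] theorem zero_fst : (0 : Oct).fst = 0 := rfl
@[simp] theorem zero_snd : (0 : Oct).snd = 0 := rfl
@[simp] theorem one_fst : (1 : Oct).fst = 1 := rfl
@[simp] theorem one_snd : (1 : Oct).snd = 0 := rfl
@[simp] theorem add_fst (x y : Oct) : (x + y).fst = x.fst + y.fst := rfl
@[simp] theorem add_snd (x y : Oct) : (x + y).snd = x.snd + y.snd := rfl
@[simp] theorem neg_fst (x : Oct) : (-x).fst = -x.fst := rfl
@[simp] theorem neg_snd (x : Oct) : (-x).snd = -x.snd := rfl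
@[simp] theorem sub_fst (x y : Oct) : (x - y).fst = x.fst - y.fst := rfl
@[simp] theorem sub_snd (x y : Oct) : (x - y).snd = x.snd - y.snd := rfl
@[simp] theorem smul_fst (r : ℝ) (x : Oct) : (r • x).fst = r • x.fst := rfl
@[simp] theorem smul_snd (r : ℝ) (x : Oct) : (r • x).snd = r • x.snd := rfl
@[simp] theorem mul_fst (x y : Oct) :
    (x * y).fst = x.fst * y.fst - star y.snd * x.snd := rfl
@[simp] theorem mul_snd (x y : Oct) :
    (x * y).snd = y.snd * x.fst + x.snd * star y.fst := rfl
@[simp] theorem star_fst (x : Oct) : (star x).fst = star x.fst := rfl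
@[simp] theorem star_snd (x : Oct) : (star x).snd = -x.snd := rfl

instance : AddCommGroup Oct where
  add_assoc x y z := by ext1 <;> simp [add_assoc]
  zero_add x := by ext1 <;> simp
  add_zero x := by ext1 <;> simp
  add_comm x y := by ext1 <;> simp [add_comm]
  neg_add_cancel x := by ext1 <;> simp
  sub_eq_add_neg x y := by ext1 <;> simp [sub_eq_add_neg]
  nsmul := nsmulRec
  zsmul := zsmulRec

instance : Module ℝ Oct where
  one_smul x := by ext1 <;> simp
  mul_smul a b x := by ext1 <;> simp [mul_smul]
  smul_zero a := by ext1 <;> simp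
  smul_add a x y := by ext1 <;> simp
  add_smul a b x := by ext1 <;> simp [add_smul]
  zero_smul x := by ext1 <;> simp

instance : StarAddMonoid Oct where
  star_involutive x := by ext1 <;> simp
  star_add x y := by ext1 <;> simp [add_comm]

instance : StarModule ℝ Oct where
  star_smul a x := by ext1 <;> simp

end Oct

/-- The real vector space of Hermitian `3 × 3` matrices over `K`. -/
def Herm (K : Type) [AddCommGroup K] [Module ℝ K] [StarAddMonoid K] [StarModule ℝ K] :
    Submodule ℝ (Matrix (Fin 3) (Fin 3) K) where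
  carrier := {X | ∀ i j, X j i = star (X i j)}
  zero_mem' := fun i j => by simp
  add_mem' := fun {X Y} hX hY i j => by
    have h1 := hX i j
    have h2 := hY i j
    simp [Matrix.add_apply, h1, h2]
  smul_mem' := fun c X hX i j => by
    have h1 := hX i j
    simp [Matrix.smul_apply, h1]

/-- The standard model of the projective plane over `K`: all Hermitian `3 × 3` matrices `X`
over `K` with `X ^ 2 = X` and trace `1`. -/
def stdModel (K : Type) [AddCommGroup K] [Module ℝ K] [StarAddMonoid K] [StarModule ℝ K]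
    [Mul K] [One K] : Set (Herm K) :=
  {X | (X : Matrix (Fin 3) (Fin 3) K) * (X : Matrix (Fin 3) (Fin 3) K) = X ∧
    Matrix.trace (X : Matrix (Fin 3) (Fin 3) K) = 1}

/-- `S` (a subset of an affine hyperplane of the vector space `H`, which does not contain the
origin) and `T ⊆ E` agree up to a projective transformation: the linear isomorphism
`L : H ≃ ℝ × E` maps the points `[X]`, `X ∈ S`, of the projective space of `H` onto the points
`[1 : y]`, `y ∈ T`, of the projective space of `ℝ × E`, in which `E` sits as `y ↦ [1 : y]`. -/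
def ProjectivelyEquivalent {H E : Type} [AddCommGroup H] [Module ℝ H] [AddCommGroup E]
    [Module ℝ E] (S : Set H) (T : Set E) : Prop :=
  ∃ L : H ≃ₗ[ℝ] ℝ × E,
    (∀ X ∈ S, ∃ y ∈ T, ∃ c : ℝ, c ≠ 0 ∧ L X = c • ((1 : ℝ), y)) ∧
    (∀ y ∈ T, ∃ X ∈ S, ∃ c : ℝ, c ≠ 0 ∧ L X = c • ((1 : ℝ), y))

end

end Pool.Agent.W595.Plane
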