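import Pool.Agent.W595.Plane.FullNull

/-!
# Coordinates adapted to three points
-/

set_option autoImplicit false

namespace Pool.Agent.W595.Plane

open scoped InnerProductSpace
open Set

/-- Euclidean coordinates for a positive definite form -/
theorem exists_coord {d : ℕ} {W : Type} [AddCommGroup W] [Module ℝ W] [FiniteDimensional ℝ W]
    (hW : Module.finrank ℝ W = d) (B : W →ₗ[ℝ] W →ₗ[ℝ] ℝ) (hs : ∀ v w, B v w = B w v)
    (hp : ∀ v, v ≠ 0 → 0 < B v v) :
    ∃ e : Eu d ≃ₗ[ℝ] W, ∀ a b, B (e a) (e b) = ⟪a, b⟫_ℝ := by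
  let core : InnerProductSpace.Core ℝ W :=
    { inner := fun v w => B v w
      conj_inner_symm := fun v w => by
        change B w v = B v w
        rw [hs]
      re_inner_nonneg := fun v => by
        change 0 ≤ B v v
        by_cases hv : v = 0
        · rw [hv]; simp
        · exact (hp v hv).le
      add_left := fun u v w => by
        change B (u + v) w = B u w + B v w
        rw [map_add, LinearMap.add_apply]
      smul_left := fun u v r => by
        change B (r • u) v = r * B u v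
        rw [map_smul, LinearMap.smul_apply, smul_eq_mul]
      definite := fun v hv => by
        by_contra hne
        exact (hp v hne).ne' hv }
  let _ : NormedAddCommGroup W := core.toNormedAddCommGroup
  let _ : InnerProductSpace ℝ W := InnerProductSpace.ofCore core.toCore
  have hin : ∀ v w : W, ⟪v, w⟫_ℝ = B v w := fun v w => rfl
  subst hW
  let e := (stdOrthonormalBasis ℝ W).repr.symm
  refine ⟨e.toLinearEquiv, fun a b => ?_⟩
  rw [← hin]
  exact e.inner_map_map a b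

variable {d : ℕ} {M V T : Type} [TopologicalSpace M] [AddCommGroup V] [Module ℝ V]
  [FiniteDimensional ℝ V] [AddCommGroup T] [Module ℝ T] [FiniteDimensional ℝ T]

/-- coordinates adapted to three points -/
structure Frame (D : TD d M V T) where
  p0 : M
  p1 : M
  p2 : M
  nc : D.Qx p0 (D.hat p1) (D.hat p2) ≠ 0
  Ψ : ((ℝ × ℝ × ℝ) × (Eu d × Eu d × Eu d)) ≃ₗ[ℝ] V
  h0 : Ψ ((1, 0, 0), (0, 0, 0)) = D.hat p0
  h1 : Ψ ((0, 1, 0), (0, 0, 0)) = D.hat p1
  h2 : Ψ ((0, 0, 1), (0, 0, 0)) = D.hat p2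
  m01 : ∀ a, Ψ ((0, 0, 0), (a, 0, 0)) ∈ D.That p1
  m02 : ∀ a, Ψ ((0, 0, 0), (a, 0, 0)) ∈ D.That p2
  m10 : ∀ a, Ψ ((0, 0, 0), (0, a, 0)) ∈ D.That p0
  m12 : ∀ a, Ψ ((0, 0, 0), (0, a, 0)) ∈ D.That p2
  m20 : ∀ a, Ψ ((0, 0, 0), (0, 0, a)) ∈ D.That p0
  m21 : ∀ a, Ψ ((0, 0, 0), (0, 0, a)) ∈ D.That p1
  n0 : ∀ a b, D.Qx p0 (Ψ ((0, 0, 0), (a, 0, 0))) (Ψ ((0, 0, 0), (b, 0, 0))) =
    -2 * D.Qx p0 (D.hat p1) (D.hat p2) * ⟪a, b⟫_ℝ
  n1 : ∀ a b, D.Qx p1 (Ψ ((0, 0, 0), (0, a, 0))) (Ψ ((0, 0, 0), (0, b, 0))) =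
    -2 * D.Qx p1 (D.hat p0) (D.hat p2) * ⟪a, b⟫_ℝ
  n2 : ∀ a b, D.Qx p2 (Ψ ((0, 0, 0), (0, 0, a))) (Ψ ((0, 0, 0), (0, 0, b))) =
    -2 * D.Qx p2 (D.hat p0) (D.hat p1) * ⟪a, b⟫_ℝ

variable (D : TD d M V T)

theorem finrank_inf_ge {q r : M} (h : q ≠ r) :
    d ≤ Module.finrank ℝ (D.That q ⊓ D.That r : Submodule ℝ V) := by
  have h1 := Submodule.finrank_sup_add_finrank_inf_eq (D.That q) (D.That r)
  rw [D.finrank_That, D.finrank_That] at h1
  have h2 : D.That q ⊔ D.That r ≤ LinearMap.ker (D.Qx q (D.hat r)) := by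
    rw [sup_le_iff]
    constructor
    · intro X hX
      exact D.Qx_tang' hX _
    · intro X hX
      exact D.Qx_kill q r hX
  have h3 := Submodule.finrank_mono h2
  have h4 := Module.Dual.finrank_ker_add_one_of_ne_zero (D.Qx_ne (x := q) (y := r) h.symm)
  rw [D.dimV] at h4
  omega

/-- the form on the intersection of two tangent spaces is definite -/
theorem inf_neg {p q r : M} (h : D.Qx p (D.hat q) (D.hat r) ≠ 0) {X : V}
    (hq : X ∈ D.That q) (hr : X ∈ D.That r) (hX : X ≠ 0) : D.Qx p X X < 0 := by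
  have hqp := D.nc_ne12 h
  have h1 : D.Qx p (D.hat q) X = 0 := D.Qx_kill p q hq
  have h2 := (D.L p).orth_null hqp h1
  refine lt_of_le_of_ne h2.1 fun h3 => hX ?_
  obtain ⟨c, hc⟩ := (D.L p).exists_mem hqp h1 h3
  have h4 : D.Qx p (D.hat r) (X - c • D.hat q) = 0 := D.Qx_tang' hc _
  rw [map_sub, map_smul, D.Qx_kill p r hr, zero_sub, neg_eq_zero, smul_eq_mul] at h4
  have h5 : c = 0 := (mul_eq_zero.1 h4).resolve_right (D.nc_swap23 h)
  rw [h5, zero_smul, sub_zero] at hc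
  exact D.triple' h hc hq hr

theorem exists_coord_inf {p q r : M} (h : D.Qx p (D.hat q) (D.hat r) ≠ 0)
    (hfin : Module.finrank ℝ (D.That q ⊓ D.That r : Submodule ℝ V) = d) :
    ∃ e : Eu d ≃ₗ[ℝ] (D.That q ⊓ D.That r : Submodule ℝ V), ∀ a b,
      D.Qx p (e a : V) (e b : V) = -2 * D.Qx p (D.hat q) (D.hat r) * ⟪a, b⟫_ℝ := by
  have hpos : 0 < D.Qx p (D.hat q) (D.hat r) :=
    lt_of_le_of_ne (D.Qx_nonneg p q r) (Ne.symm h)
  let B : (D.That q ⊓ D.That r : Submodule ℝ V) →ₗ[ℝ]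
      (D.That q ⊓ D.That r : Submodule ℝ V) →ₗ[ℝ] ℝ := LinearMap.mk₂ ℝ
    (fun X Y => -(2 * D.Qx p (D.hat q) (D.hat r))⁻¹ * D.Qx p (X : V) (Y : V))
    (fun X X' Y => by simp [mul_add]) (fun c X Y => by simp; ring)
    (fun X Y Y' => by simp [mul_add]) (fun c X Y => by simp; ring)
  have hB : ∀ X Y, B X Y = -(2 * D.Qx p (D.hat q) (D.hat r))⁻¹ * D.Qx p (X : V) (Y : V) :=
    fun X Y => rfl
  obtain ⟨e, he⟩ := exists_coord hfin B (fun X Y => by
    rw [hB, hB, D.Qx_symm p (X : V) (Y : V)]) (fun X hX => by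
    rw [hB]
    have h1 := inf_neg D h X.2.1 X.2.2 (fun h0 => hX (Subtype.ext h0))
    have h2 : 0 < (2 * D.Qx p (D.hat q) (D.hat r))⁻¹ := by positivity
    nlinarith)
  refine ⟨e, fun a b => ?_⟩
  rw [← he, hB]
  field_simp

theorem exists_nc : ∃ p q r : M, D.Qx p (D.hat q) (D.hat r) ≠ 0 := by
  have hd := D.d_pos
  obtain ⟨p⟩ : Nonempty M := by
    by_contra hcon
    rw [not_nonempty_iff] at hcon
    have h1 : ∀ φ : V →ₗ[ℝ] ℝ, φ = 0 := fun φ => D.plus φ fun y _ => (hcon.false y).elim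
    have h2 : Module.finrank ℝ (V →ₗ[ℝ] ℝ) = 3 * d + 3 := by
      rw [← D.dimV]; exact Subspace.dual_finrank_eq
    have : Subsingleton (V →ₗ[ℝ] ℝ) := ⟨fun a b => by rw [h1 a, h1 b]⟩
    rw [Module.finrank_zero_of_subsingleton] at h2
    omega
  obtain ⟨q, hq⟩ : ∃ q, q ≠ p := by
    by_contra hcon
    push Not at hcon
    have h1 : ∀ φ ∈ D.U p, φ = 0 := fun φ hφ => D.plus φ fun y _ => by
      rw [hcon y]; exact (D.mem_U.1 hφ).1
    have h2 := D.finrank_U p
    have : Subsingleton (D.U p) := ⟨fun a b => Subtype.ext (by rw [h1 a.1 a.2, h1 b.1 b.2])⟩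
    rw [Module.finrank_zero_of_subsingleton] at h2
    omega
  by_contra hcon
  push Not at hcon
  exact D.Qx_ne hq (D.plus _ fun y _ => hcon p q y)

theorem exists_frame : Nonempty (Frame D) := by
  obtain ⟨p0, p1, p2, nc⟩ := exists_nc D
  have nc1 : D.Qx p1 (D.hat p0) (D.hat p2) ≠ 0 := D.nc_swap12 nc
  have nc2 : D.Qx p2 (D.hat p0) (D.hat p1) ≠ 0 := D.nc_swap12 (D.nc_swap23 nc)
  set W0 : Submodule ℝ V := D.That p1 ⊓ D.That p2 with hW0
  set W1 : Submodule ℝ V := D.That p0 ⊓ D.That p2 with hW1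
  set W2 : Submodule ℝ V := D.That p0 ⊓ D.That p1 with hW2
  have f0 : d ≤ Module.finrank ℝ W0 := finrank_inf_ge D (D.nc_ne23 nc).symm
  have f1 : d ≤ Module.finrank ℝ W1 := finrank_inf_ge D (D.nc_ne23 nc1).symm
  have f2 : d ≤ Module.finrank ℝ W2 := finrank_inf_ge D (D.nc_ne23 nc2).symm
  let Ψ0 : ((ℝ × ℝ × ℝ) × (W0 × W1 × W2)) →ₗ[ℝ] V :=
    { toFun := fun z => z.1.1 • D.hat p0 + z.1.2.1 • D.hat p1 + z.1.2.2 • D.hat p2 +
        (z.2.1 : V) + (z.2.2.1 : V) + (z.2.2.2 : V)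
      map_add' := fun z z' => by
        simp only [Prod.fst_add, Prod.snd_add, add_smul, Submodule.coe_add]
        abel
      map_smul' := fun c z => by
        simp only [Prod.smul_fst, Prod.smul_snd, smul_add, Submodule.coe_smul, smul_smul,
          smul_eq_mul, RingHom.id_apply] }
  have hΨ0 : ∀ z, Ψ0 z = z.1.1 • D.hat p0 + z.1.2.1 • D.hat p1 + z.1.2.2 • D.hat p2 +
        (z.2.1 : V) + (z.2.2.1 : V) + (z.2.2.2 : V) := fun z => rfl
  have hinj : Function.Injective Ψ0 := by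
    rw [injective_iff_map_eq_zero]
    rintro ⟨⟨x0, x1, x2⟩, a0, a1, a2⟩ h
    rw [hΨ0] at h
    simp only at h
    have e0 : x0 = 0 := by
      have h5 := congrArg (D.Qx p1 (D.hat p2)) h
      simp only [map_add, map_smul, map_zero, smul_eq_mul] at h5
      rw [D.Qx_tang' (D.hat_mem p1), D.Qx_hat, D.Qx_tang' a0.2.1, D.Qx_kill p1 p2 a1.2.2,
        D.Qx_tang' a2.2.2, mul_zero, mul_zero, add_zero, add_zero, add_zero, add_zero,
        add_zero] at h5
      exact (mul_eq_zero.1 h5).resolve_right (D.nc_swap23 nc1)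
    have e1 : x1 = 0 := by
      have h5 := congrArg (D.Qx p0 (D.hat p2)) h
      simp only [map_add, map_smul, map_zero, smul_eq_mul] at h5
      rw [D.Qx_tang' (D.hat_mem p0), D.Qx_hat, D.Qx_kill p0 p2 a0.2.2, D.Qx_tang' a1.2.1,
        D.Qx_tang' a2.2.1, mul_zero, mul_zero, add_zero, add_zero, add_zero, add_zero,
        zero_add] at h5
      exact (mul_eq_zero.1 h5).resolve_right (D.nc_swap23 nc)
    have e2 : x2 = 0 := by
      have h5 := congrArg (D.Qx p0 (D.hat p1)) h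
      simp only [map_add, map_smul, map_zero, smul_eq_mul] at h5
      rw [D.Qx_tang' (D.hat_mem p0), D.Qx_hat, D.Qx_kill p0 p1 a0.2.1, D.Qx_tang' a1.2.1,
        D.Qx_tang' a2.2.1, mul_zero, mul_zero, add_zero, add_zero, add_zero, zero_add,
        zero_add] at h5
      exact (mul_eq_zero.1 h5).resolve_right nc
    rw [e0, e1, e2, zero_smul, zero_smul, zero_smul, zero_add, zero_add, zero_add] at h
    have g0 : (a0 : V) = 0 := by
      refine D.triple' nc ?_ a0.2.1 a0.2.2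
      have : (a0 : V) = -((a1 : V) + (a2 : V)) := by
        rw [add_assoc] at h; exact eq_neg_of_add_eq_zero_left h
      rw [this]
      exact (D.That p0).neg_mem ((D.That p0).add_mem a1.2.1 a2.2.1)
    have g1 : (a1 : V) = 0 := by
      refine D.triple' nc a1.2.1 ?_ a1.2.2
      have : (a1 : V) = -((a0 : V) + (a2 : V)) := by
        have h6 : (a1 : V) + ((a0 : V) + (a2 : V)) = 0 := by rw [← h]; abel
        exact eq_neg_of_add_eq_zero_left h6
      rw [this]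
      exact (D.That p1).neg_mem ((D.That p1).add_mem a0.2.1 a2.2.2)
    have g2 : (a2 : V) = 0 := by
      rw [g0, g1, zero_add, zero_add] at h
      exact h
    have g0' : a0 = 0 := Subtype.ext g0
    have g1' : a1 = 0 := Subtype.ext g1
    have g2' : a2 = 0 := Subtype.ext g2
    rw [e0, e1, e2, g0', g1', g2']
    rfl
  have hle := LinearMap.finrank_le_finrank_of_injective hinj
  rw [Module.finrank_prod, Module.finrank_prod, Module.finrank_prod, Module.finrank_prod,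
    Module.finrank_prod, Module.finrank_self, D.dimV] at hle
  have g0 : Module.finrank ℝ W0 = d := by omega
  have g1 : Module.finrank ℝ W1 = d := by omega
  have g2 : Module.finrank ℝ W2 = d := by omega
  obtain ⟨e0, he0⟩ := exists_coord_inf D nc g0
  obtain ⟨e1, he1⟩ := exists_coord_inf D nc1 g1
  obtain ⟨e2, he2⟩ := exists_coord_inf D nc2 g2
  have hdim : Module.finrank ℝ ((ℝ × ℝ × ℝ) × (W0 × W1 × W2)) = Module.finrank ℝ V := by
    rw [Module.finrank_prod, Module.finrank_prod, Module.finrank_prod, Module.finrank_prod,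
      Module.finrank_prod, Module.finrank_self, D.dimV, g0, g1, g2]
    omega
  let Ψ1 := LinearEquiv.ofInjectiveOfFinrankEq Ψ0 hinj hdim
  let Ψ : ((ℝ × ℝ × ℝ) × (Eu d × Eu d × Eu d)) ≃ₗ[ℝ] V :=
    ((LinearEquiv.refl ℝ (ℝ × ℝ × ℝ)).prodCongr (e0.prodCongr (e1.prodCongr e2))).trans Ψ1
  have hΨ : ∀ x0 x1 x2 a0 a1 a2, Ψ ((x0, x1, x2), (a0, a1, a2)) =
      x0 • D.hat p0 + x1 • D.hat p1 + x2 • D.hat p2 + (e0 a0 : V) + (e1 a1 : V) +
        (e2 a2 : V) := fun x0 x1 x2 a0 a1 a2 => rfl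
  have k0 : ∀ a, Ψ ((0, 0, 0), (a, 0, 0)) = (e0 a : V) := by intro a; rw [hΨ]; simp
  have k1 : ∀ a, Ψ ((0, 0, 0), (0, a, 0)) = (e1 a : V) := by intro a; rw [hΨ]; simp
  have k2 : ∀ a, Ψ ((0, 0, 0), (0, 0, a)) = (e2 a : V) := by intro a; rw [hΨ]; simp
  exact ⟨{
    p0 := p0
    p1 := p1
    p2 := p2
    nc := nc
    Ψ := Ψ
    h0 := by rw [hΨ]; simp
    h1 := by rw [hΨ]; simp
    h2 := by rw [hΨ]; simp
    m01 := fun a => by rw [k0]; exact (e0 a).2.1
    m02 := fun a => by rw [k0]; exact (e0 a).2.2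
    m10 := fun a => by rw [k1]; exact (e1 a).2.1
    m12 := fun a => by rw [k1]; exact (e1 a).2.2
    m20 := fun a => by rw [k2]; exact (e2 a).2.1
    m21 := fun a => by rw [k2]; exact (e2 a).2.2
    n0 := fun a b => by rw [k0, k0]; exact he0 a b
    n1 := fun a b => by rw [k1, k1]; exact he1 a b
    n2 := fun a b => by rw [k2, k2]; exact he2 a b }⟩

end Pool.Agent.W595.Plane
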