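import Pool.Agent.W595.Plane.PlusAll

/-!
# Top sets are full null cones
-/

set_option autoImplicit false

namespace Pool.Agent.W595.Plane

open scoped InnerProductSpace
open Set

variable {d : ℕ} {M V T : Type} [TopologicalSpace M] [AddCommGroup V] [Module ℝ V]
  [FiniteDimensional ℝ V] [AddCommGroup T] [Module ℝ T] [FiniteDimensional ℝ T]
  (D : TD d M V T)

namespace TD

/-- the Lorentz structure at `x` -/
noncomputable def L (x : M) : LS D x := (exists_LS D (plus_all D x)).some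

/-- the quadric at `x` -/
noncomputable def Qx (x : M) : V →ₗ[ℝ] V →ₗ[ℝ] ℝ := (D.L x).Q

theorem Qx_symm (x : M) (X Y : V) : D.Qx x X Y = D.Qx x Y X := (D.L x).Q_symm X Y

theorem Qx_hat (x y : M) : D.Qx x (D.hat y) (D.hat y) = 0 := (D.L x).Q_hat y

theorem Qx_tang {x : M} {X : V} (hX : X ∈ D.That x) (Y : V) : D.Qx x X Y = 0 :=
  (D.L x).Q_tang hX Y

theorem Qx_tang' {x : M} {X : V} (hX : X ∈ D.That x) (Y : V) : D.Qx x Y X = 0 :=
  (D.L x).Q_tang' hX Y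

theorem Qx_nonneg (x y z : M) : 0 ≤ D.Qx x (D.hat y) (D.hat z) := (D.L x).Q_nonneg y z

theorem Qx_ne {x y : M} (h : y ≠ x) : D.Qx x (D.hat y) ≠ 0 := (D.L x).phi_ne h

/-- the functional `Q_x(ŷ, ·)` kills the tangent space at `y` -/
theorem Qx_kill (x y : M) {X : V} (hX : X ∈ D.That y) : D.Qx x (D.hat y) X = 0 :=
  kill (fun z => D.Qx_nonneg x y z) (D.Qx_hat x y) hX

theorem Qx_prop {x y : M} (h : x ≠ y) :
    ∃ c : ℝ, 0 < c ∧ ∀ X, D.Qx x (D.hat y) X = c * D.Qx y (D.hat x) X := by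
  obtain ⟨c, hc, h2⟩ := (D.L y).unique h (D.Qx x (D.hat y)) (fun z => D.Qx_nonneg x y z)
    (D.Qx_hat x y) (D.Qx_tang' (D.hat_mem x) _)
  refine ⟨c, lt_of_le_of_ne hc fun h0 => ?_, fun X => by rw [h2]; rfl⟩
  rw [← h0, zero_smul] at h2
  exact D.Qx_ne h.symm h2

theorem nc_ne12 {p q r : M} (h : D.Qx p (D.hat q) (D.hat r) ≠ 0) : q ≠ p := by
  rintro rfl
  exact h (D.Qx_tang (D.hat_mem _) _)

theorem nc_ne13 {p q r : M} (h : D.Qx p (D.hat q) (D.hat r) ≠ 0) : r ≠ p := by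
  rintro rfl
  exact h (D.Qx_tang' (D.hat_mem _) _)

theorem nc_ne23 {p q r : M} (h : D.Qx p (D.hat q) (D.hat r) ≠ 0) : r ≠ q := by
  rintro rfl
  exact h (D.Qx_hat _ _)

theorem nc_swap23 {p q r : M} (h : D.Qx p (D.hat q) (D.hat r) ≠ 0) :
    D.Qx p (D.hat r) (D.hat q) ≠ 0 := by
  rw [D.Qx_symm]; exact h

theorem nc_swap12 {p q r : M} (h : D.Qx p (D.hat q) (D.hat r) ≠ 0) :
    D.Qx q (D.hat p) (D.hat r) ≠ 0 := by
  obtain ⟨c, hc, h2⟩ := D.Qx_prop (D.nc_ne12 h).symm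
  intro h3
  rw [h2, h3, mul_zero] at h
  exact h rfl

/-- three tangent spaces have trivial intersection -/
theorem triple' {p q r : M} (h : D.Qx p (D.hat q) (D.hat r) ≠ 0) {u : V} (hp : u ∈ D.That p)
    (hq : u ∈ D.That q) (hr : u ∈ D.That r) : u = 0 :=
  triple (D.L p) (D.L q) (D.L r) (D.nc_ne12 h) (D.nc_ne13 h) h hp hq hr

/-- every future null direction modulo the tangent space at `p` is hit by the top set through
`q` and `r`. -/
theorem full_null {p q r : M} (h : D.Qx p (D.hat q) (D.hat r) ≠ 0) (X : V)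
    (h0 : D.Qx p X X = 0) (hf : ∃ w, 0 < D.Qx p X (D.hat w)) :
    ∃ (z : M) (κ : ℝ), 0 < κ ∧ D.Qx q (D.hat r) (D.hat z) = 0 ∧
      D.hat z - κ • X ∈ D.That p := by
  classical
  set Lp := D.L p with hLp
  set Lq := D.L q with hLq
  have hqp := D.nc_ne12 h
  have hrp := D.nc_ne13 h
  have hrq := D.nc_ne23 h
  -- the supporting functional
  have hn := Lq.pos r hrq
  have hnn := Lq.null r
  set n := Lq.π (D.hat r) with hndef
  set s : Eu (d + 1) := -(n.1⁻¹ • n.2) with hs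
  have hs1 : ‖s‖ = 1 := by
    rw [hs, norm_neg, norm_smul, hnn, Real.norm_eq_abs, abs_of_pos (by positivity),
      inv_mul_cancel₀ hn.ne']
  have hφ : ∀ Y, (n.1⁻¹ • D.Qx q (D.hat r)) Y = (Lq.π Y).1 + ⟪s, (Lq.π Y).2⟫_ℝ := by
    intro Y
    change n.1⁻¹ * (n.1 * (Lq.π Y).1 - ⟪n.2, (Lq.π Y).2⟫_ℝ) = _
    rw [hs, inner_neg_left, real_inner_smul_left]
    field_simp
    ring
  obtain ⟨b, ε, hb1, hb2, hb3, hb4⟩ := Lq.eig s hs1
  have hφnn : ∀ y, 0 ≤ (n.1⁻¹ • D.Qx q (D.hat r)) (D.hat y) := fun y =>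
    mul_nonneg (by positivity) (D.Qx_nonneg q r y)
  have hφ0 : ∀ y, (n.1⁻¹ • D.Qx q (D.hat r)) (D.hat y) = 0 ↔
      D.Qx q (D.hat r) (D.hat y) = 0 := by
    intro y
    change n.1⁻¹ * _ = 0 ↔ _
    constructor
    · intro h; exact (mul_eq_zero.1 h).resolve_left (by positivity)
    · intro h; rw [h, mul_zero]
  -- `p` is not in the top set
  have hpL : ∀ y, D.Qx q (D.hat r) (D.hat y) = 0 → y ≠ p := by
    rintro y hy rfl
    exact D.nc_swap12 (D.nc_swap23 (D.nc_swap12 h)) (by rw [D.Qx_symm]; exact absurd hy (D.nc_swap23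
      (D.nc_swap12 h)))
  set g : M → Eu (d + 1) := fun y => (Lp.π (D.hat y)).1⁻¹ • (Lp.π (D.hat y)).2 with hg
  have hfull := D.full q (n.1⁻¹ • D.Qx q (D.hat r))
    (LinearMap.fst ℝ ℝ (Eu (d + 1)) ∘ₗ Lq.π) hφnn ((hφ0 q).2 (D.Qx_tang' (D.hat_mem q) _))
    (by
      rw [LinearMap.comp_apply, (Lq.ker _).2 (D.hat_mem q)]; rfl)
    (fun v => by
      rw [LinearMap.comp_apply, (Lq.ker _).2 (D.A_mem q v)]; rfl) b ε hb3
    (fun i j => by rw [hφ]; exact hb1 i j) (fun i j => hb2 i j) hb4 g ?_ ?_ ?_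
  · -- apply to the direction of `X`
    set m := Lp.π X with hm
    have hm0 : ‖m.2‖ ^ 2 = m.1 ^ 2 := by
      have : m.1 * m.1 - ⟪m.2, m.2⟫_ℝ = 0 := h0
      rw [real_inner_self_eq_norm_sq] at this
      linarith
    have hm1 : 0 < m.1 := by
      obtain ⟨w, hw⟩ := hf
      have hw' : 0 < m.1 * (Lp.π (D.hat w)).1 - ⟪m.2, (Lp.π (D.hat w)).2⟫_ℝ := hw
      have h3 := abs_real_inner_le_norm m.2 (Lp.π (D.hat w)).2
      rw [Lp.null w] at h3
      have h4 := (abs_le.1 h3).1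
      have h5 := Lp.nonneg w
      by_contra hcon
      push Not at hcon
      have h6 : ‖m.2‖ = -m.1 := by
        have : ‖m.2‖ ^ 2 = (-m.1) ^ 2 := by rw [hm0]; ring
        exact (sq_eq_sq₀ (norm_nonneg _) (by linarith)).1 this
      rw [h6] at h4
      linarith
    have hm2 : ‖m.2‖ = m.1 := (sq_eq_sq₀ (norm_nonneg _) hm1.le).1 hm0
    obtain ⟨z, hz1, hz2⟩ := hfull (m.1⁻¹ • m.2) (by
      rw [norm_smul, hm2, Real.norm_eq_abs, abs_of_pos (by positivity), inv_mul_cancel₀ hm1.ne'])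
    have hz3 := (hφ0 z).1 hz1
    have hzp := hpL z hz3
    have hz4 := Lp.pos z hzp
    refine ⟨z, (Lp.π (D.hat z)).1 / m.1, by positivity, hz3, ?_⟩
    rw [← Lp.ker, map_sub, map_smul, ← hm, sub_eq_zero]
    refine Prod.ext ?_ ?_
    · rw [Prod.smul_fst, smul_eq_mul]
      field_simp
    · rw [Prod.smul_snd]
      have h5 : (Lp.π (D.hat z)).1⁻¹ • (Lp.π (D.hat z)).2 = m.1⁻¹ • m.2 := hz2
      have h6 : (Lp.π (D.hat z)).1 • ((Lp.π (D.hat z)).1⁻¹ • (Lp.π (D.hat z)).2) =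
          (Lp.π (D.hat z)).1 • (m.1⁻¹ • m.2) := by rw [h5]
      rw [smul_smul, mul_inv_cancel₀ hz4.ne', one_smul, smul_smul] at h6
      rw [h6, div_eq_mul_inv]
  · -- continuity
    intro y hy
    have hy0 : y ≠ p := hpL y ((hφ0 y).1 hy)
    have h1 : Continuous fun y => (Lp.π (D.hat y)).1 :=
      D.cont (LinearMap.fst ℝ ℝ (Eu (d + 1)) ∘ₗ Lp.π)
    have h2 : Continuous fun y => (Lp.π (D.hat y)).2 := by
      have h3 : ∀ i, Continuous fun y => (Lp.π (D.hat y)).2 i := fun i =>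
        D.cont ((EuclideanSpace.proj i).toLinearMap ∘ₗ LinearMap.snd ℝ ℝ (Eu (d + 1)) ∘ₗ Lp.π)
      exact (PiLp.continuous_toLp 2 _).comp (continuous_pi h3)
    exact ((h1.continuousAt.inv₀ (Lp.pos y hy0).ne').smul h2.continuousAt).continuousWithinAt
  · -- injectivity
    intro y hy y' hy' hgy
    have hy1 := (hφ0 y).1 hy
    have hy1' := (hφ0 y').1 hy'
    have hyp := hpL y hy1
    have hyp' := hpL y' hy1'
    by_contra hne
    have ha := Lp.pos y hyp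
    have ha' := Lp.pos y' hyp'
    have h1 : D.Qx p (D.hat y) (D.hat y') = 0 := by
      change (Lp.π (D.hat y)).1 * (Lp.π (D.hat y')).1 -
        ⟪(Lp.π (D.hat y)).2, (Lp.π (D.hat y')).2⟫_ℝ = 0
      have h5 : (Lp.π (D.hat y)).1⁻¹ • (Lp.π (D.hat y)).2 =
        (Lp.π (D.hat y')).1⁻¹ • (Lp.π (D.hat y')).2 := hgy
      have h6 : (Lp.π (D.hat y)).2 = ((Lp.π (D.hat y)).1 * (Lp.π (D.hat y')).1⁻¹) •
          (Lp.π (D.hat y')).2 := by
        rw [mul_smul, ← h5, smul_smul, mul_inv_cancel₀ ha.ne', one_smul]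
      rw [h6, real_inner_smul_left, real_inner_self_eq_norm_sq, Lp.null]
      field_simp
      ring
    -- both functionals are multiples of `Q_y(ŷ', ·)`
    obtain ⟨c, hc, h2⟩ := (D.L y).unique (Ne.symm hne) (D.Qx p (D.hat y))
      (fun z => D.Qx_nonneg p y z) (D.Qx_hat p y) h1
    obtain ⟨c', hc', h3⟩ := (D.L y).unique (Ne.symm hne) (D.Qx q (D.hat r))
      (fun z => D.Qx_nonneg q r z) hy1 hy1'
    have hc0 : c ≠ 0 := by
      rintro rfl
      rw [zero_smul] at h2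
      exact D.Qx_ne hyp h2
    have h4 : (D.L y).Q (D.hat y') (D.hat p) = 0 := by
      have h5 : D.Qx p (D.hat y) (D.hat p) = 0 := D.Qx_tang' (D.hat_mem p) _
      rw [h2, LinearMap.smul_apply, smul_eq_mul] at h5
      exact (mul_eq_zero.1 h5).resolve_left hc0
    have h6 : D.Qx q (D.hat r) (D.hat p) = 0 := by
      rw [h3, LinearMap.smul_apply, smul_eq_mul, h4, mul_zero]
    exact hpL p h6 rfl
  · intro y hy
    have hyp := hpL y ((hφ0 y).1 hy)
    have ha := Lp.pos y hyp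
    change ‖(Lp.π (D.hat y)).1⁻¹ • (Lp.π (D.hat y)).2‖ = 1
    rw [norm_smul, Lp.null y, Real.norm_eq_abs, abs_of_pos (by positivity),
      inv_mul_cancel₀ ha.ne']

end TD

end Pool.Agent.W595.Plane
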