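import Pool.Agent.W595.Plane.Frame

/-!
# The cone over `M` in adapted coordinates
-/

set_option autoImplicit false

namespace Pool.Agent.W595.Plane

open scoped InnerProductSpace
open Set

variable {d : ℕ} {M V T : Type} [TopologicalSpace M] [AddCommGroup V] [Module ℝ V]
  [FiniteDimensional ℝ V] [AddCommGroup T] [Module ℝ T] [FiniteDimensional ℝ T]
  {D : TD d M V T}

namespace Frame

variable (F : Frame D)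

theorem nc1 : D.Qx F.p1 (D.hat F.p0) (D.hat F.p2) ≠ 0 := D.nc_swap12 F.nc

theorem nc2 : D.Qx F.p2 (D.hat F.p0) (D.hat F.p1) ≠ 0 := D.nc_swap12 (D.nc_swap23 F.nc)

theorem q0_pos : 0 < D.Qx F.p0 (D.hat F.p1) (D.hat F.p2) :=
  lt_of_le_of_ne (D.Qx_nonneg _ _ _) (Ne.symm F.nc)

theorem q1_pos : 0 < D.Qx F.p1 (D.hat F.p0) (D.hat F.p2) :=
  lt_of_le_of_ne (D.Qx_nonneg _ _ _) (Ne.symm F.nc1)

theorem q2_pos : 0 < D.Qx F.p2 (D.hat F.p0) (D.hat F.p1) :=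
  lt_of_le_of_ne (D.Qx_nonneg _ _ _) (Ne.symm F.nc2)

theorem decomp (z : (ℝ × ℝ × ℝ) × (Eu d × Eu d × Eu d)) :
    F.Ψ z = z.1.1 • D.hat F.p0 + z.1.2.1 • D.hat F.p1 + z.1.2.2 • D.hat F.p2 +
      F.Ψ ((0, 0, 0), (z.2.1, 0, 0)) + F.Ψ ((0, 0, 0), (0, z.2.2.1, 0)) +
      F.Ψ ((0, 0, 0), (0, 0, z.2.2.2)) := by
  rw [← F.h0, ← F.h1, ← F.h2]
  simp only [← map_smul, ← map_add]
  congr 1
  obtain ⟨⟨x0, x1, x2⟩, a0, a1, a2⟩ := z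
  simp

/-- the quadratic form at `p0` -/
theorem Q0_eq (z z' : (ℝ × ℝ × ℝ) × (Eu d × Eu d × Eu d)) :
    D.Qx F.p0 (F.Ψ z) (F.Ψ z') = D.Qx F.p0 (D.hat F.p1) (D.hat F.p2) *
      (z.1.2.1 * z'.1.2.2 + z.1.2.2 * z'.1.2.1 - 2 * ⟪z.2.1, z'.2.1⟫_ℝ) := by
  have hR : ∀ w : (ℝ × ℝ × ℝ) × (Eu d × Eu d × Eu d), ∃ R ∈ D.That F.p0,
      F.Ψ w = (w.1.2.1 • D.hat F.p1 + w.1.2.2 • D.hat F.p2 +
        F.Ψ ((0, 0, 0), (w.2.1, 0, 0))) + R := by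
    intro w
    refine ⟨w.1.1 • D.hat F.p0 + F.Ψ ((0, 0, 0), (0, w.2.2.1, 0)) +
      F.Ψ ((0, 0, 0), (0, 0, w.2.2.2)), ?_, ?_⟩
    · exact (D.That F.p0).add_mem ((D.That F.p0).add_mem
        ((D.That F.p0).smul_mem _ (D.hat_mem _)) (F.m10 _)) (F.m20 _)
    · conv_lhs => rw [F.decomp w]
      abel
  obtain ⟨R, hR1, hR2⟩ := hR z
  obtain ⟨R', hR1', hR2'⟩ := hR z'
  rw [hR2, hR2', map_add (D.Qx F.p0) _ R, LinearMap.add_apply, D.Qx_tang hR1, add_zero,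
    map_add _ _ R', D.Qx_tang' hR1', add_zero]
  simp only [map_add, map_smul, LinearMap.add_apply, LinearMap.smul_apply, smul_eq_mul]
  rw [D.Qx_hat, D.Qx_hat, D.Qx_kill F.p0 F.p1 (F.m01 z'.2.1), D.Qx_kill F.p0 F.p2 (F.m02 z'.2.1),
    D.Qx_symm F.p0 (F.Ψ ((0, 0, 0), (z.2.1, 0, 0))) (D.hat F.p1),
    D.Qx_symm F.p0 (F.Ψ ((0, 0, 0), (z.2.1, 0, 0))) (D.hat F.p2),
    D.Qx_kill F.p0 F.p1 (F.m01 z.2.1), D.Qx_kill F.p0 F.p2 (F.m02 z.2.1), F.n0,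
    D.Qx_symm F.p0 (D.hat F.p2) (D.hat F.p1)]
  ring

theorem Q1_eq (z z' : (ℝ × ℝ × ℝ) × (Eu d × Eu d × Eu d)) :
    D.Qx F.p1 (F.Ψ z) (F.Ψ z') = D.Qx F.p1 (D.hat F.p0) (D.hat F.p2) *
      (z.1.1 * z'.1.2.2 + z.1.2.2 * z'.1.1 - 2 * ⟪z.2.2.1, z'.2.2.1⟫_ℝ) := by
  have hR : ∀ w : (ℝ × ℝ × ℝ) × (Eu d × Eu d × Eu d), ∃ R ∈ D.That F.p1,
      F.Ψ w = (w.1.1 • D.hat F.p0 + w.1.2.2 • D.hat F.p2 +
        F.Ψ ((0, 0, 0), (0, w.2.2.1, 0))) + R := by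
    intro w
    refine ⟨w.1.2.1 • D.hat F.p1 + F.Ψ ((0, 0, 0), (w.2.1, 0, 0)) +
      F.Ψ ((0, 0, 0), (0, 0, w.2.2.2)), ?_, ?_⟩
    · exact (D.That F.p1).add_mem ((D.That F.p1).add_mem
        ((D.That F.p1).smul_mem _ (D.hat_mem _)) (F.m01 _)) (F.m21 _)
    · conv_lhs => rw [F.decomp w]
      abel
  obtain ⟨R, hR1, hR2⟩ := hR z
  obtain ⟨R', hR1', hR2'⟩ := hR z'
  rw [hR2, hR2', map_add (D.Qx F.p1) _ R, LinearMap.add_apply, D.Qx_tang hR1, add_zero,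
    map_add _ _ R', D.Qx_tang' hR1', add_zero]
  simp only [map_add, map_smul, LinearMap.add_apply, LinearMap.smul_apply, smul_eq_mul]
  rw [D.Qx_hat, D.Qx_hat, D.Qx_kill F.p1 F.p0 (F.m10 z'.2.2.1),
    D.Qx_kill F.p1 F.p2 (F.m12 z'.2.2.1),
    D.Qx_symm F.p1 (F.Ψ ((0, 0, 0), (0, z.2.2.1, 0))) (D.hat F.p0),
    D.Qx_symm F.p1 (F.Ψ ((0, 0, 0), (0, z.2.2.1, 0))) (D.hat F.p2),
    D.Qx_kill F.p1 F.p0 (F.m10 z.2.2.1), D.Qx_kill F.p1 F.p2 (F.m12 z.2.2.1), F.n1,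
    D.Qx_symm F.p1 (D.hat F.p2) (D.hat F.p0)]
  ring

theorem Q2_eq (z z' : (ℝ × ℝ × ℝ) × (Eu d × Eu d × Eu d)) :
    D.Qx F.p2 (F.Ψ z) (F.Ψ z') = D.Qx F.p2 (D.hat F.p0) (D.hat F.p1) *
      (z.1.1 * z'.1.2.1 + z.1.2.1 * z'.1.1 - 2 * ⟪z.2.2.2, z'.2.2.2⟫_ℝ) := by
  have hR : ∀ w : (ℝ × ℝ × ℝ) × (Eu d × Eu d × Eu d), ∃ R ∈ D.That F.p2,
      F.Ψ w = (w.1.1 • D.hat F.p0 + w.1.2.1 • D.hat F.p1 +
        F.Ψ ((0, 0, 0), (0, 0, w.2.2.2))) + R := by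
    intro w
    refine ⟨w.1.2.2 • D.hat F.p2 + F.Ψ ((0, 0, 0), (w.2.1, 0, 0)) +
      F.Ψ ((0, 0, 0), (0, w.2.2.1, 0)), ?_, ?_⟩
    · exact (D.That F.p2).add_mem ((D.That F.p2).add_mem
        ((D.That F.p2).smul_mem _ (D.hat_mem _)) (F.m02 _)) (F.m12 _)
    · conv_lhs => rw [F.decomp w]
      abel
  obtain ⟨R, hR1, hR2⟩ := hR z
  obtain ⟨R', hR1', hR2'⟩ := hR z'
  rw [hR2, hR2', map_add (D.Qx F.p2) _ R, LinearMap.add_apply, D.Qx_tang hR1, add_zero,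
    map_add _ _ R', D.Qx_tang' hR1', add_zero]
  simp only [map_add, map_smul, LinearMap.add_apply, LinearMap.smul_apply, smul_eq_mul]
  rw [D.Qx_hat, D.Qx_hat, D.Qx_kill F.p2 F.p0 (F.m20 z'.2.2.2),
    D.Qx_kill F.p2 F.p1 (F.m21 z'.2.2.2),
    D.Qx_symm F.p2 (F.Ψ ((0, 0, 0), (0, 0, z.2.2.2))) (D.hat F.p0),
    D.Qx_symm F.p2 (F.Ψ ((0, 0, 0), (0, 0, z.2.2.2))) (D.hat F.p1),
    D.Qx_kill F.p2 F.p0 (F.m20 z.2.2.2), D.Qx_kill F.p2 F.p1 (F.m21 z.2.2.2), F.n2,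
    D.Qx_symm F.p2 (D.hat F.p1) (D.hat F.p0)]
  ring

/-- coordinates -/
noncomputable def c (X : V) : (ℝ × ℝ × ℝ) × (Eu d × Eu d × Eu d) := F.Ψ.symm X

theorem Ψ_c (X : V) : F.Ψ (F.c X) = X := F.Ψ.apply_symm_apply X

theorem c_Ψ (z : (ℝ × ℝ × ℝ) × (Eu d × Eu d × Eu d)) : F.c (F.Ψ z) = z :=
  F.Ψ.symm_apply_apply z

theorem c_add (X Y : V) : F.c (X + Y) = F.c X + F.c Y := map_add _ _ _

theorem c_sub (X Y : V) : F.c (X - Y) = F.c X - F.c Y := map_sub _ _ _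

theorem c_smul (r : ℝ) (X : V) : F.c (r • X) = r • F.c X := map_smul _ _ _

theorem Q0c (X Y : V) : D.Qx F.p0 X Y = D.Qx F.p0 (D.hat F.p1) (D.hat F.p2) *
      ((F.c X).1.2.1 * (F.c Y).1.2.2 + (F.c X).1.2.2 * (F.c Y).1.2.1 -
        2 * ⟪(F.c X).2.1, (F.c Y).2.1⟫_ℝ) := by
  rw [← F.Q0_eq, Ψ_c, Ψ_c]

theorem Q1c (X Y : V) : D.Qx F.p1 X Y = D.Qx F.p1 (D.hat F.p0) (D.hat F.p2) *
      ((F.c X).1.1 * (F.c Y).1.2.2 + (F.c X).1.2.2 * (F.c Y).1.1 -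
        2 * ⟪(F.c X).2.2.1, (F.c Y).2.2.1⟫_ℝ) := by
  rw [← F.Q1_eq, Ψ_c, Ψ_c]

theorem Q2c (X Y : V) : D.Qx F.p2 X Y = D.Qx F.p2 (D.hat F.p0) (D.hat F.p1) *
      ((F.c X).1.1 * (F.c Y).1.2.1 + (F.c X).1.2.1 * (F.c Y).1.1 -
        2 * ⟪(F.c X).2.2.2, (F.c Y).2.2.2⟫_ℝ) := by
  rw [← F.Q2_eq, Ψ_c, Ψ_c]

theorem c0 : F.c (D.hat F.p0) = ((1, 0, 0), (0, 0, 0)) := by rw [← F.h0, c_Ψ]

theorem c1 : F.c (D.hat F.p1) = ((0, 1, 0), (0, 0, 0)) := by rw [← F.h1, c_Ψ]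

theorem c2 : F.c (D.hat F.p2) = ((0, 0, 1), (0, 0, 0)) := by rw [← F.h2, c_Ψ]

/-- the tangent space at `p0` -/
theorem c_That {X : V} (hX : X ∈ D.That F.p0) :
    (F.c X).1.2.1 = 0 ∧ (F.c X).1.2.2 = 0 ∧ (F.c X).2.1 = 0 := by
  have hq := F.q0_pos
  have h1 := F.Q0c X (D.hat F.p2)
  rw [D.Qx_tang hX, c2] at h1
  have h2 := F.Q0c X (D.hat F.p1)
  rw [D.Qx_tang hX, c1] at h2
  have h3 := F.Q0c X X
  rw [D.Qx_tang hX] at h3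
  simp only [mul_one, mul_zero, inner_zero_right, sub_zero, add_zero, zero_add] at h1 h2
  have e1 : (F.c X).1.2.1 = 0 := (mul_eq_zero.1 h1.symm).resolve_left hq.ne'
  have e2 : (F.c X).1.2.2 = 0 := (mul_eq_zero.1 h2.symm).resolve_left hq.ne'
  refine ⟨e1, e2, ?_⟩
  rw [e1, e2, real_inner_self_eq_norm_sq] at h3
  have h4 : ‖(F.c X).2.1‖ ^ 2 = 0 := by
    have := (mul_eq_zero.1 h3.symm).resolve_left hq.ne'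
    linarith
  exact norm_eq_zero.1 (pow_eq_zero_iff two_ne_zero |>.1 h4)

/-- basic relations on `M` -/
theorem rel (y : M) : 0 ≤ (F.c (D.hat y)).1.1 ∧ 0 ≤ (F.c (D.hat y)).1.2.1 ∧
    0 ≤ (F.c (D.hat y)).1.2.2 ∧
    (F.c (D.hat y)).1.2.1 * (F.c (D.hat y)).1.2.2 = ‖(F.c (D.hat y)).2.1‖ ^ 2 ∧
    (F.c (D.hat y)).1.2.2 * (F.c (D.hat y)).1.1 = ‖(F.c (D.hat y)).2.2.1‖ ^ 2 ∧
    (F.c (D.hat y)).1.1 * (F.c (D.hat y)).1.2.1 = ‖(F.c (D.hat y)).2.2.2‖ ^ 2 := by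
  have hq0 := F.q0_pos
  have hq1 := F.q1_pos
  have hq2 := F.q2_pos
  have a1 := D.Qx_nonneg F.p1 F.p2 y
  rw [F.Q1c, c2] at a1
  have a2 := D.Qx_nonneg F.p0 F.p2 y
  rw [F.Q0c, c2] at a2
  have a3 := D.Qx_nonneg F.p0 F.p1 y
  rw [F.Q0c, c1] at a3
  simp only [zero_mul, one_mul, inner_zero_left, mul_zero, sub_zero, zero_add, add_zero]
    at a1 a2 a3
  have b1 := D.Qx_hat F.p0 y
  rw [F.Q0c, real_inner_self_eq_norm_sq] at b1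
  have b2 := D.Qx_hat F.p1 y
  rw [F.Q1c, real_inner_self_eq_norm_sq] at b2
  have b3 := D.Qx_hat F.p2 y
  rw [F.Q2c, real_inner_self_eq_norm_sq] at b3
  have b1' := (mul_eq_zero.1 b1).resolve_left hq0.ne'
  have b2' := (mul_eq_zero.1 b2).resolve_left hq1.ne'
  have b3' := (mul_eq_zero.1 b3).resolve_left hq2.ne'
  exact ⟨nonneg_of_mul_nonneg_right a1 hq1, nonneg_of_mul_nonneg_right a2 hq0,
    nonneg_of_mul_nonneg_right a3 hq0, by linarith, by linarith, by linarith⟩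

/-- points with `ξ₀ = 0` -/
theorem rel_zero {y : M} (h : (F.c (D.hat y)).1.1 = 0) :
    (F.c (D.hat y)).2.2.1 = 0 ∧ (F.c (D.hat y)).2.2.2 = 0 := by
  obtain ⟨-, -, -, -, h1, h2⟩ := F.rel y
  rw [h, mul_zero] at h1
  rw [h, zero_mul] at h2
  exact ⟨norm_eq_zero.1 (pow_eq_zero_iff two_ne_zero |>.1 h1.symm),
    norm_eq_zero.1 (pow_eq_zero_iff two_ne_zero |>.1 h2.symm)⟩

/-- the top set through `p1` and `p2` is full -/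
theorem full0 (X : V) (h0 : D.Qx F.p0 X X = 0) (hf : ∃ w, 0 < D.Qx F.p0 X (D.hat w)) :
    ∃ (z : M) (κ : ℝ), 0 < κ ∧ (F.c (D.hat z)).1.1 = 0 ∧ D.hat z - κ • X ∈ D.That F.p0 := by
  obtain ⟨z, κ, hκ, h1, h2⟩ := D.full_null F.nc X h0 hf
  refine ⟨z, κ, hκ, ?_, h2⟩
  rw [F.Q1c, c2] at h1
  simp only [zero_mul, one_mul, inner_zero_left, mul_zero, sub_zero, zero_add] at h1
  exact (mul_eq_zero.1 h1).resolve_left F.q1_pos.ne'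

end Frame

end Pool.Agent.W595.Plane
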