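import Pool.Agent.Helper775.Tight.Final

/-!
# The index of a nondegenerate critical point, in Alexander-Spanier cohomology
-/

set_option autoImplicit false

namespace Pool.Agent.W595.Plane

open Set Topology Pool.Agent.Helper775.Tight Pool.Agent.Helper775.Tight.SoftCx

/-- The connecting part of the Mayer-Vietoris sequence. -/
theorem mv_split {Y K : Type*} [TopologicalSpace Y] [AddCommGroup K] {C : SoftCx Y K} {n : ℕ}
    {Z₁ Z₂ : Set Y} (h₁ : IsClosed Z₁) (h₂ : IsClosed Z₂) (hE : C.Ex (Z₁ ∪ Z₂) (n + 1)) {b : K}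
    (hb : C.Coc (Z₁ ∩ Z₂) n b) : ∃ e, C.Coc Z₁ n e ∧ C.Coc Z₂ n (b - e) := by
  obtain ⟨k, hk₁, hk₂⟩ := C.soft (n + 1) (C.D b) Z₁ Z₂ h₁ h₂ hb
  have hk : C.Coc (Z₁ ∪ Z₂) (n + 1) k := by
    rintro z (hz | hz)
    · exact C.D_mem z _ _ (hk₁ z hz)
    · have h3 := C.D_mem z _ _ (hk₂ z hz)
      rw [map_sub] at h3
      have h4 := sub_mem (C.DD_mem z (n + 1 + 1) b) h3
      simpa using h4
  obtain ⟨e, he⟩ := hE k hk
  refine ⟨e, fun z hz => ?_, fun z hz => ?_⟩
  · have h3 := sub_mem (hk₁ z hz) (he z (Or.inl hz))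
    simpa using h3
  · have h3 := add_mem (hk₂ z hz) (he z (Or.inr hz))
    rw [map_sub]
    simpa using h3

/-- Index lemma: near `p` the function `g` is close to `- ‖X‖² + ‖Y‖²`, where `X` is in `ℝ^i`. Then
it is impossible that `{g ≤ 0}` has no cohomology in degree `i` and the cohomology of degree
`i - 1` of `{g ≤ - ρ² / 2}` comes from the whole space. (The index is the degree plus one.) -/
theorem index_lemma {P : Type*} [MetricSpace P] [CompactSpace P] {i j : ℕ} (hi : 2 ≤ i)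
    (g : P → ℝ) (hg : Continuous g)
    (e : OpenPartialHomeomorph P (EuclideanSpace ℝ (Fin i) × EuclideanSpace ℝ (Fin j)))
    {ρ : ℝ} (hρ : 0 < ρ) (hball : Metric.closedBall 0 ρ ⊆ e.target)
    (hexp : ∀ v ∈ Metric.closedBall
      (0 : EuclideanSpace ℝ (Fin i) × EuclideanSpace ℝ (Fin j)) ρ,
      |g (e.symm v) + ‖v.1‖ ^ 2 - ‖v.2‖ ^ 2| ≤ ‖v‖ ^ 2 / 4)
    (hex : (AS P).Ex {x | g x ≤ 0} (i + 1))
    (hsurj : ∀ c, (AS P).Coc {x | g x ≤ -ρ ^ 2 / 2} i c →
      ∃ c', (AS P).Coc univ i c' ∧ (AS P).Cob {x | g x ≤ -ρ ^ 2 / 2} i (c - c')) : False := by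
  set A₁ : Set P := {x | g x ≤ 0} ∩ e.symm '' Metric.closedBall 0 ρ with hA₁
  set A₂ : Set P := {x | g x ≤ 0} \ e.symm '' Metric.ball 0 (ρ / 2) with hA₂
  have hA : IsClosed {x | g x ≤ 0} := isClosed_le hg continuous_const
  have hballsub : Metric.ball (0 : EuclideanSpace ℝ (Fin i) × EuclideanSpace ℝ (Fin j)) (ρ / 2)
      ⊆ Metric.closedBall 0 ρ := by
    intro v hv
    rw [Metric.mem_ball] at hv
    rw [Metric.mem_closedBall]
    linarith
  have hA₁c : IsClosed A₁ := by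
    refine hA.inter (IsCompact.isClosed ?_)
    exact (isCompact_closedBall _ _).image_of_continuousOn (e.continuousOn_symm.mono hball)
  have hA₂c : IsClosed A₂ := by
    refine hA.sdiff ?_
    exact e.isOpen_image_symm_of_subset_target Metric.isOpen_ball (hballsub.trans hball)
  have hun : A₁ ∪ A₂ = {x | g x ≤ 0} := by
    ext x
    constructor
    · rintro (h | h)
      · exact h.1
      · exact h.1
    · intro h
      by_cases hx : x ∈ e.symm '' Metric.ball 0 (ρ / 2)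
      · exact Or.inl ⟨h, image_mono hballsub hx⟩
      · exact Or.inr ⟨h, hx⟩
  -- points of the intersection
  have hint : ∀ x ∈ A₁ ∩ A₂, x ∈ e.source ∧ (e x).1 ≠ 0 := by
    rintro x ⟨⟨h1, v, hv, rfl⟩, h2, h3⟩
    have hvt := hball hv
    refine ⟨e.map_target hvt, ?_⟩
    rw [e.right_inv hvt]
    intro h0
    have hvn : ρ / 2 ≤ ‖v‖ := by
      by_contra hlt
      push Not at hlt
      exact h3 ⟨v, by rwa [mem_ball_zero_iff], rfl⟩
    have hv2 : ‖v‖ = ‖v.2‖ := by
      rw [Prod.norm_def, h0, norm_zero]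
      exact max_eq_right (norm_nonneg _)
    have h4 := hexp v hv
    rw [h0, norm_zero] at h4
    have h5 := (abs_le.1 h4).1
    have h6 : g (e.symm v) ≤ 0 := h1
    rw [hv2] at h5 hvn
    nlinarith
  -- the map to the sphere
  set u : P → EuclideanSpace ℝ (Fin i) := fun x => ‖(e x).1‖⁻¹ • (e x).1 with hu
  have hucont : ∀ x ∈ A₁ ∩ A₂, ContinuousAt u x := by
    intro x hx
    obtain ⟨h1, h2⟩ := hint x hx
    have h3 : ContinuousAt (fun x => (e x).1) x :=
      continuous_fst.continuousAt.comp (e.continuousAt h1)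
    exact (h3.norm.inv₀ (norm_ne_zero_iff.2 h2)).smul h3
  have hunorm : MapsTo u (A₁ ∩ A₂) (Sp i i) := by
    intro x hx
    obtain ⟨h1, h2⟩ := hint x hx
    rw [sp_eq_sphere, mem_sphere_zero_iff_norm]
    exact norm_smul_inv_norm h2
  obtain ⟨s, hs, hns⟩ := sp_top (M := i) (k := i) hi le_rfl
  have hσ : (AS P).Coc (A₁ ∩ A₂) i (pb u s) := coc_pb hucont hunorm hs
  obtain ⟨b, hb₁, hb₂⟩ := mv_split hA₁c hA₂c (by rw [hun]; exact hex) hσ
  -- the disc
  set jm : EuclideanSpace ℝ (Fin i) → P := fun X => e.symm (ρ • X, 0) with hjm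
  have hjb : ∀ X : EuclideanSpace ℝ (Fin i), ‖X‖ ≤ 1 →
      ((ρ • X, 0) : EuclideanSpace ℝ (Fin i) × EuclideanSpace ℝ (Fin j)) ∈
        Metric.closedBall 0 ρ := by
    intro X hX
    rw [mem_closedBall_zero_iff, Prod.norm_def, norm_zero, norm_smul, Real.norm_eq_abs,
      abs_of_pos hρ]
    exact max_le (by nlinarith) hρ.le
  have hjcont : ∀ X : EuclideanSpace ℝ (Fin i), ‖X‖ ≤ 1 → ContinuousAt jm X := by
    intro X hX
    have h1 : ContinuousAt e.symm ((ρ • X, 0) :
      EuclideanSpace ℝ (Fin i) × EuclideanSpace ℝ (Fin j)) :=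
      e.continuousAt_symm (hball (hjb X hX))
    have h2 : ContinuousAt (fun X : EuclideanSpace ℝ (Fin i) =>
      ((ρ • X, 0) : EuclideanSpace ℝ (Fin i) × EuclideanSpace ℝ (Fin j))) X := by fun_prop
    exact ContinuousAt.comp (f := fun X : EuclideanSpace ℝ (Fin i) =>
      ((ρ • X, 0) : EuclideanSpace ℝ (Fin i) × EuclideanSpace ℝ (Fin j))) h1 h2
  have hjg : ∀ X : EuclideanSpace ℝ (Fin i), ‖X‖ ≤ 1 →
      g (jm X) ≤ - (3 / 4) * (ρ ^ 2 * ‖X‖ ^ 2) := by
    intro X hX
    have h1 := hexp _ (hjb X hX)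
    have h2 : ‖((ρ • X, 0) : EuclideanSpace ℝ (Fin i) × EuclideanSpace ℝ (Fin j))‖ = ρ * ‖X‖ := by
      rw [Prod.norm_def, norm_zero, norm_smul, Real.norm_eq_abs, abs_of_pos hρ]
      exact max_eq_left (by positivity)
    rw [h2] at h1
    simp only [norm_zero] at h1
    rw [norm_smul, Real.norm_eq_abs, abs_of_pos hρ] at h1
    have h3 := (abs_le.1 h1).2
    change g (e.symm (ρ • X, 0)) ≤ _
    nlinarith
  have hjA₁ : MapsTo jm (Metric.closedBall 0 1) A₁ := by
    intro X hX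
    rw [mem_closedBall_zero_iff] at hX
    refine ⟨?_, _, hjb X hX, rfl⟩
    have h1 := hjg X hX
    have h2 : 0 ≤ ρ ^ 2 * ‖X‖ ^ 2 := by positivity
    change g (jm X) ≤ 0
    linarith
  have hjS : MapsTo jm (Sp i i) {x | g x ≤ -ρ ^ 2 / 2} := by
    intro X hX
    rw [sp_eq_sphere, mem_sphere_zero_iff_norm] at hX
    have h1 := hjg X hX.le
    rw [hX] at h1
    change g (jm X) ≤ _
    nlinarith [sq_nonneg ρ]
  have hSsub : Sp i i ⊆ Metric.closedBall 0 1 := by
    rw [sp_eq_sphere]; exact Metric.sphere_subset_closedBall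
  have hscont : ∀ X ∈ Sp i i, ContinuousAt jm X := fun X hX =>
    hjcont X (by simpa using hSsub hX)
  have hdisc : (AS (EuclideanSpace ℝ (Fin i))).Ex (Metric.closedBall 0 1) i := by
    refine (acy_of_contract (isCompact_closedBall (0 : EuclideanSpace ℝ (Fin i)) 1)
      (fun t X => (1 - t) • X) 0 ?_ ?_ ?_ ?_ ?_).2.2 i hi
    · intro t _ X _
      have : Continuous fun p : ℝ × EuclideanSpace ℝ (Fin i) => (1 - p.1) • p.2 := by fun_prop
      exact this.continuousAt
    · intro t ht X hX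
      rw [mem_closedBall_zero_iff] at hX ⊢
      rw [norm_smul, Real.norm_eq_abs, abs_of_nonneg (by linarith [ht.2])]
      have h1 := ht.1
      have h2 := ht.2
      have h3 := norm_nonneg X
      nlinarith
    · intro X _; simp
    · intro X _; simp
    · simp
  -- `A_ε ⊆ A₂`
  have hAε : {x | g x ≤ -ρ ^ 2 / 2} ⊆ A₂ := by
    intro x hx
    have hx' : g x ≤ -ρ ^ 2 / 2 := hx
    refine ⟨?_, ?_⟩
    · change g x ≤ 0
      have : 0 ≤ ρ ^ 2 := by positivity
      linarith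
    · rintro ⟨v, hv, rfl⟩
      have h1 := (abs_le.1 (hexp v (hballsub hv))).1
      rw [mem_ball_zero_iff] at hv
      have h2 : ‖v.1‖ ≤ ‖v‖ := norm_fst_le v
      have h3 := norm_nonneg v
      have h4 := norm_nonneg v.1
      have h5 := norm_nonneg v.2
      nlinarith
  -- contradiction
  apply hns
  have hcS : ∀ X ∈ Sp i i, jm X ∈ A₁ ∩ A₂ := fun X hX => ⟨hjA₁ (hSsub hX), hAε (hjS hX)⟩
  have huj : ∀ X ∈ Sp i i, u (jm X) = X := by
    intro X hX
    have hX1 : ‖X‖ = 1 := by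
      rw [sp_eq_sphere, mem_sphere_zero_iff_norm] at hX; exact hX
    have h1 : e (jm X) = (ρ • X, 0) := e.right_inv (hball (hjb X hX1.le))
    change ‖(e (jm X)).1‖⁻¹ • (e (jm X)).1 = X
    rw [h1]
    simp only
    rw [norm_smul, Real.norm_eq_abs, abs_of_pos hρ, hX1, mul_one, smul_smul,
      inv_mul_cancel₀ hρ.ne', one_smul]
  have h1 : (AS _).Cob (Sp i i) i (pb id s - pb (u ∘ jm) s) :=
    cob_pb_sub (fun X _ => continuousAt_id)
      (fun X hX => (hucont _ (hcS X hX)).comp (hscont X hX)) (fun X hX => (huj X hX).symm)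
      (mapsTo_id _) hs
  have e1 : pb (id : EuclideanSpace ℝ (Fin i) → EuclideanSpace ℝ (Fin i)) s = s := by
    funext l; simp [pb]
  have e2 : pb (u ∘ jm) s = pb jm (pb u s) := by
    funext l; simp [pb]
  -- first part
  have h2 : (AS _).Cob (Sp i i) i (pb jm b) := by
    refine (hdisc _ (coc_pb (fun X hX => hjcont X (by simpa using hX)) hjA₁ hb₁)).mono hSsub
  -- second part
  obtain ⟨c', hc', hc''⟩ := hsurj (pb u s - b) (hb₂.mono hAε)
  have h3 : (AS _).Cob (Sp i i) i (pb jm (pb u s - b - c')) := cob_pb hscont hjS hc''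
  have h4 : (AS _).Cob (Sp i i) i (pb jm c') :=
    (hdisc _ (coc_pb (fun X hX => hjcont X (by simpa using hX)) (mapsTo_univ _ _) hc')).mono hSsub
  have h5 := ((h1.add h2).add h3).add h4
  rw [e1, e2] at h5
  have e3 : s - pb jm (pb u s) + pb jm b + pb jm (pb u s - b - c') + pb jm c' = s := by
    have e4 : pb jm (pb u s - b - c') = pb jm (pb u s) - pb jm b - pb jm c' := by
      funext l; simp [pb]
    rw [e4]
    abel
  rwa [e3] at h5

end Pool.Agent.W595.Plane
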