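import Pool.Agent.W595.Plane.Lorentz

/-!
# The Lorentz structure at a point with a definite supporting functional
-/

set_option autoImplicit false

namespace Pool.Agent.W595.Plane

open scoped InnerProductSpace
open Set

variable {d : ℕ} {M V T : Type} [TopologicalSpace M] [AddCommGroup V] [Module ℝ V]
  [FiniteDimensional ℝ V] [AddCommGroup T] [Module ℝ T] [FiniteDimensional ℝ T]

namespace TD

/-- the extended tangent space -/
def That (D : TD d M V T) (x : M) : Submodule ℝ V :=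
  LinearMap.range (LinearMap.coprod (LinearMap.toSpanSingleton ℝ V (D.hat x)) (D.A x))

theorem mem_That (D : TD d M V T) {x : M} {X : V} :
    X ∈ D.That x ↔ ∃ (c : ℝ) (v : T), X = c • D.hat x + D.A x v := by
  constructor
  · rintro ⟨⟨c, v⟩, h⟩
    refine ⟨c, v, ?_⟩
    rw [← h]
    simp
  · rintro ⟨c, v, rfl⟩
    exact ⟨(c, v), by simp⟩

theorem hat_mem (D : TD d M V T) (x : M) : D.hat x ∈ D.That x :=
  D.mem_That.2 ⟨1, 0, by simp⟩

theorem A_mem (D : TD d M V T) (x : M) (v : T) : D.A x v ∈ D.That x :=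
  D.mem_That.2 ⟨0, v, by simp⟩

/-- definite supporting functional -/
def Plus (D : TD d M V T) (x : M) : Prop :=
  ∃ ψ : V →ₗ[ℝ] ℝ, ψ (D.hat x) = 0 ∧ (∀ v, ψ (D.A x v) = 0) ∧ ∀ v, v ≠ 0 → 0 < ψ (D.S x v v)

theorem finrank_That (D : TD d M V T) (x : M) : Module.finrank ℝ (D.That x) = 2 * d + 1 := by
  rw [That, LinearMap.finrank_range_of_inj, Module.finrank_prod, D.dimT, Module.finrank_self]
  · omega
  · rw [← LinearMap.ker_eq_bot, LinearMap.ker_eq_bot']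
    rintro ⟨c, v⟩ h
    have := D.imm x c v (by simpa using h)
    rw [this.1, this.2]
    rfl

/-- functionals vanishing on the extended tangent space -/
def U (D : TD d M V T) (x : M) : Submodule ℝ (V →ₗ[ℝ] ℝ) :=
  (D.That x).dualAnnihilator

theorem mem_U (D : TD d M V T) {x : M} {φ : V →ₗ[ℝ] ℝ} :
    φ ∈ D.U x ↔ φ (D.hat x) = 0 ∧ ∀ v, φ (D.A x v) = 0 := by
  rw [U, Submodule.mem_dualAnnihilator]
  constructor
  · intro h
    exact ⟨h _ (D.hat_mem x), fun v => h _ (D.A_mem x v)⟩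
  · rintro ⟨h1, h2⟩ X hX
    obtain ⟨c, v, rfl⟩ := D.mem_That.1 hX
    rw [map_add, map_smul, h1, h2]
    simp

theorem finrank_U (D : TD d M V T) (x : M) : Module.finrank ℝ (D.U x) = d + 2 := by
  have h1 := Subspace.finrank_add_finrank_dualAnnihilator_eq (D.That x)
  rw [D.finrank_That, D.dimV] at h1
  have h2 : Module.finrank ℝ (D.U x) = Module.finrank ℝ (D.That x).dualAnnihilator := rfl
  omega

/-- a functional in `U` whose Hessian vanishes is zero, if there is a definite one -/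
theorem eq_zero_of_S (D : TD d M V T) {x : M} (hx : D.Plus x) (φ : V →ₗ[ℝ] ℝ) (h : φ ∈ D.U x)
    (h0 : ∀ v, φ (D.S x v v) = 0) : φ = 0 := by
  obtain ⟨ψ, hψ1, hψ2, hψ3⟩ := hx
  rw [D.mem_U] at h
  refine D.plus φ fun y _ => ?_
  by_cases hyx : y = x
  · rw [hyx]; exact h.1
  have key : ∀ r : ℝ, 0 < ψ (D.hat y) + r * φ (D.hat y) := by
    intro r
    have := D.F3 x (ψ + r • φ) (by simp [hψ1, h.1]) (fun v => by simp [hψ2, h.2])
      (fun v hv => by simpa [h0] using hψ3 v hv) y hyx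
    simpa using this
  by_contra hne
  have h1 := key (-(ψ (D.hat y) + 1) / φ (D.hat y))
  rw [div_mul_cancel₀ _ hne] at h1
  linarith

end TD

/-- The Lorentz structure at `p`. -/
structure LS (D : TD d M V T) (p : M) where
  π : V →ₗ[ℝ] ℝ × Eu (d + 1)
  ker : ∀ X, π X = 0 ↔ X ∈ D.That p
  null : ∀ y, ‖(π (D.hat y)).2‖ = (π (D.hat y)).1
  pos : ∀ y, y ≠ p → 0 < (π (D.hat y)).1
  S1 : ∀ v, v ≠ 0 → 0 < (π (D.S p v v)).1
  S2 : ∀ v, ‖(π (D.S p v v)).2‖ = (π (D.S p v v)).1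
  rep : ∀ φ : V →ₗ[ℝ] ℝ, φ (D.hat p) = 0 → (∀ v, φ (D.A p v) = 0) →
    (∀ v, 0 ≤ φ (D.S p v v)) →
    ∃ (t : ℝ) (s : Eu (d + 1)), ‖s‖ ≤ t ∧ ∀ X, φ X = t * (π X).1 + ⟪s, (π X).2⟫_ℝ
  inj : ∀ (t : ℝ) (s : Eu (d + 1)), (∀ X, t * (π X).1 + ⟪s, (π X).2⟫_ℝ = 0) → t = 0 ∧ s = 0
  eig : ∀ s : Eu (d + 1), ‖s‖ = 1 →
    ∃ (b : Module.Basis (Fin (2 * d)) ℝ T) (ε : Fin (2 * d) → ℝ),
      (∀ i j, (π (D.S p (b i) (b j))).1 + ⟪s, (π (D.S p (b i) (b j))).2⟫_ℝ =
        if i = j then ε i else 0) ∧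
      (∀ i j, (π (D.S p (b i) (b j))).1 = if i = j then 1 else 0) ∧
      (∀ i, 0 ≤ ε i) ∧ (Finset.univ.filter fun i => ε i = 0).card = d

end Pool.Agent.W595.Plane
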