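import Pool.Agent.W595.Plane.LS

/-!
# Existence of the Lorentz structure
-/

set_option autoImplicit false

namespace Pool.Agent.W595.Plane

open scoped InnerProductSpace
open Set

variable {d : ℕ} {M V T : Type} [TopologicalSpace M] [AddCommGroup V] [Module ℝ V]
  [FiniteDimensional ℝ V] [AddCommGroup T] [Module ℝ T] [FiniteDimensional ℝ T]

/-- what `lorentz_cone` gives at `p` -/
theorem exists_theta (D : TD d M V T) {p : M} (ψ : V →ₗ[ℝ] ℝ) (hψ0 : ψ (D.hat p) = 0)
    (hψA : ∀ v, ψ (D.A p v) = 0) (hψS : ∀ v, v ≠ 0 → 0 < ψ (D.S p v v)) :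
    ∃ (Θ : (ℝ × Eu (d + 1)) ≃ₗ[ℝ] D.U p), (Θ (1, 0) : V →ₗ[ℝ] ℝ) = ψ ∧
      (∀ t s v, (t - ‖s‖) * ψ (D.S p v v) ≤ (Θ (t, s) : V →ₗ[ℝ] ℝ) (D.S p v v)) ∧
      (∀ t s, (∀ v, 0 ≤ (Θ (t, s) : V →ₗ[ℝ] ℝ) (D.S p v v)) → ‖s‖ ≤ t) ∧
      ∀ s : Eu (d + 1), ‖s‖ = 1 →
        ∃ (b : Module.Basis (Fin (2 * d)) ℝ T) (ε : Fin (2 * d) → ℝ),
          (∀ i j, (Θ (1, s) : V →ₗ[ℝ] ℝ) (D.S p (b i) (b j)) = if i = j then ε i else 0) ∧
          (∀ i j, ψ (D.S p (b i) (b j)) = if i = j then 1 else 0) ∧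
          (∀ i, 0 ≤ ε i) ∧ (Finset.univ.filter fun i => ε i = 0).card = d := by
  classical
  let core : InnerProductSpace.Core ℝ T :=
    { inner := fun v w => ψ (D.S p v w)
      conj_inner_symm := fun v w => by
        change ψ (D.S p w v) = ψ (D.S p v w)
        rw [D.symm]
      re_inner_nonneg := fun v => by
        change 0 ≤ ψ (D.S p v v)
        by_cases hv : v = 0
        · rw [hv]; simp
        · exact (hψS v hv).le
      add_left := fun u v w => by
        change ψ (D.S p (u + v) w) = ψ (D.S p u w) + ψ (D.S p v w)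
        rw [map_add, LinearMap.add_apply, map_add]
      smul_left := fun u v r => by
        change ψ (D.S p (r • u) v) = r * ψ (D.S p u v)
        rw [map_smul, LinearMap.smul_apply, map_smul, smul_eq_mul]
      definite := fun v hv => by
        by_contra hne
        exact (hψS v hne).ne' hv }
  let _ : NormedAddCommGroup T := core.toNormedAddCommGroup
  let _ : InnerProductSpace ℝ T := InnerProductSpace.ofCore core.toCore
  have hin : ∀ v w : T, ⟪v, w⟫_ℝ = ψ (D.S p v w) := fun v w => rfl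
  have hinj : Function.Injective ((D.S p).compr₂ ψ) := by
    rw [injective_iff_map_eq_zero]
    intro v hv
    by_contra hne
    have h1 : ((D.S p).compr₂ ψ) v v = 0 := by rw [hv]; rfl
    rw [LinearMap.compr₂_apply] at h1
    exact (hψS v hne).ne' h1
  let eψ : T ≃ₗ[ℝ] (T →ₗ[ℝ] ℝ) := LinearEquiv.ofInjectiveOfFinrankEq ((D.S p).compr₂ ψ) hinj
    (Subspace.dual_finrank_eq (K := ℝ) (V := T)).symm
  have heψ : ∀ v w, eψ v w = ψ (D.S p v w) := fun v w => rfl
  let H : D.U p →ₗ[ℝ] (T →ₗ[ℝ] T) :=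
    { toFun := fun φ => eψ.symm.toLinearMap ∘ₗ ((D.S p).compr₂ φ.1)
      map_add' := fun φ χ => by
        ext v
        simp only [LinearMap.comp_apply, LinearMap.add_apply, LinearEquiv.coe_coe, ← map_add]
        congr 1
      map_smul' := fun c φ => by
        ext v
        change eψ.symm (((D.S p).compr₂ (c • φ).1) v) = c • eψ.symm (((D.S p).compr₂ φ.1) v)
        rw [← map_smul eψ.symm]
        congr 1 }
  have hH : ∀ (φ : D.U p) (v w : T), ⟪H φ v, w⟫_ℝ = φ.1 (D.S p v w) := by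
    intro φ v w
    rw [hin, ← heψ]
    change eψ (eψ.symm (((D.S p).compr₂ φ.1) v)) w = _
    rw [LinearEquiv.apply_symm_apply]
    rfl
  have hsym : ∀ φ, (H φ).IsSymmetric := by
    intro φ v w
    rw [hH, real_inner_comm, hH, D.symm]
  have hUinj : ∀ φ, H φ = 0 → φ = 0 := by
    intro φ h
    apply Subtype.ext
    refine D.eq_zero_of_S ⟨ψ, hψ0, hψA, hψS⟩ φ.1 φ.2 fun v => ?_
    rw [← hH, h]
    simp
  let φ₀ : D.U p := ⟨ψ, D.mem_U.2 ⟨hψ0, hψA⟩⟩
  have h0 : H φ₀ = LinearMap.id := by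
    ext v
    change eψ.symm (eψ v) = v
    rw [LinearEquiv.symm_apply_apply]
  have horth : ∀ (φ : D.U p) (b : OrthonormalBasis (Fin (2 * d)) ℝ T) (ε : Fin (2 * d) → ℝ),
      (∀ i, H φ (b i) = ε i • b i) →
      ∀ i j, φ.1 (D.S p (b i) (b j)) = if i = j then ε i else 0 := by
    intro φ b ε h i j
    rw [← hH, h, real_inner_smul_left, orthonormal_iff_ite.1 b.orthonormal i j]
    split_ifs <;> simp
  obtain ⟨Θ, R, hΘ0, hΘ, hR, heig⟩ := lorentz_cone (d := d) (by have := D.d_pos; omega) D.dimT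
    (D.finrank_U p) H hsym hUinj φ₀ h0 (fun φ b ε hε hb =>
      D.idx p φ.1 (D.mem_U.1 φ.2).1 (D.mem_U.1 φ.2).2 b.toBasis ε hε (fun i j => by
        rw [OrthonormalBasis.coe_toBasis]
        exact horth φ b ε hb i j))
  have hΘS : ∀ t s v w, (Θ (t, s) : V →ₗ[ℝ] ℝ) (D.S p v w) = t * ⟪v, w⟫_ℝ + ⟪R s v, w⟫_ℝ := by
    intro t s v w
    rw [← hH, hΘ, LinearMap.add_apply, inner_add_left, LinearMap.smul_apply,
      real_inner_smul_left]
    rfl
  have hRsym : ∀ s v w, ⟪R s v, w⟫_ℝ = ⟪v, R s w⟫_ℝ := by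
    intro s v w
    have h1 := hsym (Θ (0, s)) v w
    rw [hΘ, zero_smul, zero_add] at h1
    exact h1
  have hRn : ∀ s v, ‖R s v‖ = ‖s‖ * ‖v‖ := by
    intro s v
    have h1 : ‖R s v‖ ^ 2 = (‖s‖ * ‖v‖) ^ 2 := by
      rw [← real_inner_self_eq_norm_sq, hRsym, hR, real_inner_smul_right,
        real_inner_self_eq_norm_sq, mul_pow]
    exact (sq_eq_sq₀ (norm_nonneg _) (by positivity)).1 h1
  refine ⟨Θ, by rw [hΘ0], ?_, ?_, ?_⟩
  · intro t s v
    rw [hΘS, ← hin]
    have h1 := abs_real_inner_le_norm (R s v) v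
    rw [hRn] at h1
    have h2 := (abs_le.1 h1).1
    rw [real_inner_self_eq_norm_sq]
    nlinarith
  · intro t s h
    have hd := D.d_pos
    by_cases hs : s = 0
    · subst hs
      rw [norm_zero]
      obtain ⟨v, hv⟩ : ∃ v : T, v ≠ 0 := by
        by_contra hcon
        push Not at hcon
        have : Subsingleton T := ⟨fun a b => by rw [hcon a, hcon b]⟩
        have h2 := Module.finrank_zero_of_subsingleton (R := ℝ) (M := T)
        rw [D.dimT] at h2
        omega
      have h1 := h v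
      rw [hΘS, map_zero] at h1
      simp only [LinearMap.zero_apply, inner_zero_left, add_zero] at h1
      have h2 : 0 < ⟪v, v⟫_ℝ := by rw [hin]; exact hψS v hv
      exact nonneg_of_mul_nonneg_left h1 h2
    · have hsn : ‖s‖ ≠ 0 := norm_ne_zero_iff.2 hs
      obtain ⟨b, ε, hb, -, hc⟩ := heig (‖s‖⁻¹ • s) (norm_smul_inv_norm hs)
      obtain ⟨i, hi⟩ : ∃ i, ε i = 0 := by
        by_contra hcon
        push Not at hcon
        have : (Finset.univ.filter fun i => ε i = 0) = ∅ := by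
          ext i; simp [hcon i]
        rw [this] at hc
        simp at hc
        omega
      have h1 := hb i
      rw [hΘ, hi, zero_smul, LinearMap.add_apply, map_smul, LinearMap.smul_apply,
        LinearMap.smul_apply, one_smul, LinearMap.id_apply] at h1
      have h2 : R s (b i) = -(‖s‖ • b i) := by
        have h3 : ‖s‖ • (b i + ‖s‖⁻¹ • R s (b i)) = 0 := by rw [h1, smul_zero]
        rw [smul_add, smul_smul, mul_inv_cancel₀ hsn, one_smul] at h3
        exact eq_neg_of_add_eq_zero_right h3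
      have h4 := h (b i)
      rw [hΘS, h2, inner_neg_left, real_inner_smul_left, real_inner_self_eq_norm_sq,
        b.orthonormal.1 i] at h4
      linarith
  · intro s hs
    obtain ⟨b, ε, hb, hε, hc⟩ := heig s hs
    refine ⟨b.toBasis, ε, fun i j => ?_, fun i j => ?_, fun i => ?_, hc⟩
    · rw [OrthonormalBasis.coe_toBasis]
      exact horth _ b ε hb i j
    · rw [OrthonormalBasis.coe_toBasis, ← hin]
      exact orthonormal_iff_ite.1 b.orthonormal i j
    · rcases hε i with h | h <;> rw [h]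
      norm_num

end Pool.Agent.W595.Plane
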