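import Pool.Agent.W595.Plane.LSExist

/-!
# Construction of the Lorentz structure
-/

set_option autoImplicit false

namespace Pool.Agent.W595.Plane

open scoped InnerProductSpace
open Set

variable {d : ℕ} {M V T : Type} [TopologicalSpace M] [AddCommGroup V] [Module ℝ V]
  [FiniteDimensional ℝ V] [AddCommGroup T] [Module ℝ T] [FiniteDimensional ℝ T]

/-- a linear functional on Euclidean space in coordinates -/
theorem lin_eu {n : ℕ} (F : Eu n →ₗ[ℝ] ℝ) (s : Eu n) :
    F s = ⟪s, WithLp.toLp 2 fun i => F (EuclideanSpace.single i 1)⟫_ℝ := by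
  classical
  have h1 : s = ∑ i, s i • (EuclideanSpace.single i (1 : ℝ) : Eu n) := by
    have h2 := (EuclideanSpace.basisFun (Fin n) ℝ).sum_repr s
    simpa using h2.symm
  conv_lhs => rw [h1]
  rw [map_sum, PiLp.inner_apply]
  refine Finset.sum_congr rfl fun i _ => ?_
  rw [map_smul, smul_eq_mul]
  simp [mul_comm]

/-- Lorentz geometry: a null vector and a causal covector with zero pairing -/
theorem null_pair {n : ℕ} {a t : ℝ} {b s : Eu n} (hb : ‖b‖ = a) (hs : ‖s‖ ≤ t)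
    (h : t * a + ⟪s, b⟫_ℝ = 0) : a • s = -(t • b) := by
  have ha : 0 ≤ a := hb ▸ norm_nonneg b
  have ht : 0 ≤ t := (norm_nonneg s).trans hs
  have h1 : ‖a • s + t • b‖ ^ 2 ≤ 0 := by
    rw [norm_add_sq_real, norm_smul, norm_smul, real_inner_smul_left, real_inner_smul_right,
      Real.norm_eq_abs, Real.norm_eq_abs, abs_of_nonneg ha, abs_of_nonneg ht, hb]
    have h2 : ⟪s, b⟫_ℝ = -(t * a) := by linarith
    rw [h2]
    have h3 : ‖s‖ ^ 2 ≤ t ^ 2 := by gcongr
    have h4 : 0 ≤ a ^ 2 := by positivity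
    nlinarith
  have h2 : a • s + t • b = 0 := by
    have h3 : ‖a • s + t • b‖ = 0 := by
      have := norm_nonneg (a • s + t • b)
      nlinarith
    exact norm_eq_zero.1 h3
  exact eq_neg_of_add_eq_zero_left h2

theorem exists_LS (D : TD d M V T) {p : M} (hp : D.Plus p) : Nonempty (LS D p) := by
  classical
  obtain ⟨ψ, hψ0, hψA, hψS⟩ := hp
  obtain ⟨Θ, hΘ0, hΘ1, hΘ2, hΘ3⟩ := exists_theta D ψ hψ0 hψA hψS
  -- the linear functional `s ↦ Θ (0, s) X`
  let F : V → Eu (d + 1) →ₗ[ℝ] ℝ := fun X =>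
    { toFun := fun s => (Θ (0, s) : V →ₗ[ℝ] ℝ) X
      map_add' := fun s s' => by
        have : ((0 : ℝ), s + s') = (0, s) + (0, s') := by simp
        rw [this, map_add]
        rfl
      map_smul' := fun c s => by
        have : ((0 : ℝ), c • s) = c • (0, s) := by simp
        rw [this, map_smul]
        rfl }
  let π : V →ₗ[ℝ] ℝ × Eu (d + 1) :=
    { toFun := fun X => (ψ X, WithLp.toLp 2 fun i => F X (EuclideanSpace.single i 1))
      map_add' := fun X Y => by
        refine Prod.ext ?_ ?_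
        · simp
        · ext i
          change (Θ (0, EuclideanSpace.single i 1) : V →ₗ[ℝ] ℝ) (X + Y) = _
          rw [map_add]
          rfl
      map_smul' := fun c X => by
        refine Prod.ext ?_ ?_
        · simp
        · ext i
          change (Θ (0, EuclideanSpace.single i 1) : V →ₗ[ℝ] ℝ) (c • X) = _
          rw [map_smul]
          rfl }
  have hπ1 : ∀ X, (π X).1 = ψ X := fun X => rfl
  have key : ∀ t s X, (Θ (t, s) : V →ₗ[ℝ] ℝ) X = t * (π X).1 + ⟪s, (π X).2⟫_ℝ := by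
    intro t s X
    have h1 : ((t, s) : ℝ × Eu (d + 1)) = t • (1, 0) + (0, s) := by simp
    rw [h1, map_add, map_smul]
    change t * (Θ (1, 0) : V →ₗ[ℝ] ℝ) X + (Θ (0, s) : V →ₗ[ℝ] ℝ) X = _
    rw [hΘ0]
    congr 1
    exact lin_eu (F X) s
  have hrep0 : ∀ φ ∈ D.U p, ∃ t s, ∀ X, φ X = t * (π X).1 + ⟪s, (π X).2⟫_ℝ ∧
      (Θ (t, s) : V →ₗ[ℝ] ℝ) = φ := by
    intro φ hφ
    refine ⟨(Θ.symm ⟨φ, hφ⟩).1, (Θ.symm ⟨φ, hφ⟩).2, fun X => ?_⟩
    have h2 : (Θ ((Θ.symm ⟨φ, hφ⟩).1, (Θ.symm ⟨φ, hφ⟩).2) : V →ₗ[ℝ] ℝ) = φ := by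
      rw [Prod.mk.eta, LinearEquiv.apply_symm_apply]
    refine ⟨?_, h2⟩
    rw [← key, h2]
  have hS1 : ∀ v, v ≠ 0 → 0 < (π (D.S p v v)).1 := fun v hv => hψS v hv
  have hpos : ∀ y, y ≠ p → 0 < (π (D.hat y)).1 := fun y hy => D.F3 p ψ hψ0 hψA hψS y hy
  have hrep : ∀ φ : V →ₗ[ℝ] ℝ, φ (D.hat p) = 0 → (∀ v, φ (D.A p v) = 0) →
    (∀ v, 0 ≤ φ (D.S p v v)) →
    ∃ (t : ℝ) (s : Eu (d + 1)), ‖s‖ ≤ t ∧ ∀ X, φ X = t * (π X).1 + ⟪s, (π X).2⟫_ℝ := by
    intro φ h1 h2 h3
    obtain ⟨t, s, hts⟩ := hrep0 φ (D.mem_U.2 ⟨h1, h2⟩)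
    refine ⟨t, s, hΘ2 t s fun v => ?_, fun X => (hts X).1⟩
    rw [(hts (D.hat p)).2]
    exact h3 v
  have hker : ∀ X, π X = 0 ↔ X ∈ D.That p := by
    intro X
    constructor
    · intro h
      rw [← Subspace.forall_mem_dualAnnihilator_apply_eq_zero_iff]
      intro φ hφ
      obtain ⟨t, s, hts⟩ := hrep0 φ hφ
      rw [(hts X).1, h]
      simp
    · intro h
      have h1 : ∀ φ ∈ D.U p, φ X = 0 := fun φ hφ => (Submodule.mem_dualAnnihilator _).1 hφ X h
      refine Prod.ext ?_ ?_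
      · exact h1 ψ (D.mem_U.2 ⟨hψ0, hψA⟩)
      · ext i
        exact h1 _ (Θ (0, EuclideanSpace.single i 1)).2
  -- strictly inside the cone
  have hin : ∀ (t : ℝ) (s : Eu (d + 1)), ‖s‖ < t → ∀ y, y ≠ p →
      0 < t * (π (D.hat y)).1 + ⟪s, (π (D.hat y)).2⟫_ℝ := by
    intro t s hts y hy
    rw [← key]
    have hm := D.mem_U.1 (Θ (t, s)).2
    refine D.F3 p _ hm.1 hm.2 (fun v hv => ?_) y hy
    refine lt_of_lt_of_le ?_ (hΘ1 t s v)
    exact mul_pos (by linarith) (hψS v hv)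
  have hle : ∀ y, ‖(π (D.hat y)).2‖ ≤ (π (D.hat y)).1 := by
    intro y
    by_cases hy : y = p
    · rw [hy, (hker _).2 (D.hat_mem p)]
      simp
    by_contra hcon
    push Not at hcon
    set a := (π (D.hat y)).1 with ha
    set b := (π (D.hat y)).2 with hb
    have ha0 : 0 < a := hpos y hy
    have hbn : 0 < ‖b‖ := lt_trans ha0 hcon
    have h1 := hin 1 (-((a / ‖b‖ ^ 2) • b)) (by
      rw [norm_neg, norm_smul, Real.norm_eq_abs, abs_of_pos (by positivity)]
      have : a / ‖b‖ ^ 2 * ‖b‖ = a / ‖b‖ := by field_simp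
      rw [this, div_lt_one hbn]
      exact hcon) y hy
    rw [← ha, ← hb, inner_neg_left, real_inner_smul_left, real_inner_self_eq_norm_sq,
      div_mul_cancel₀ _ (by positivity)] at h1
    linarith
  have hnull : ∀ y, ‖(π (D.hat y)).2‖ = (π (D.hat y)).1 := by
    intro y
    refine le_antisymm (hle y) ?_
    by_cases hy : y = p
    · rw [hy, (hker _).2 (D.hat_mem p)]
      simp
    obtain ⟨φ, hφ, hφ0, hφx, hφy⟩ := D.common p y
    obtain ⟨h1, h2⟩ := D.F1 p φ hφ0 hφx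
    obtain ⟨t, s, hts, hX⟩ := hrep φ hφx h1 h2
    have ht : 0 < t := by
      rcases lt_or_eq_of_le ((norm_nonneg s).trans hts) with h | h
      · exact h
      · exfalso
        apply hφ
        rw [← h] at hts
        have hs : s = 0 := norm_eq_zero.1 (le_antisymm hts (norm_nonneg s))
        refine LinearMap.ext fun X => ?_
        rw [hX, ← h, hs]
        simp
    rw [hX] at hφy
    have h3 := abs_real_inner_le_norm s (π (D.hat y)).2
    have h4 := (abs_le.1 h3).1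
    have h5 : ‖s‖ * ‖(π (D.hat y)).2‖ ≤ t * ‖(π (D.hat y)).2‖ := by gcongr
    have h6 : t * (π (D.hat y)).1 ≤ t * ‖(π (D.hat y)).2‖ := by linarith
    exact le_of_mul_le_mul_left h6 ht
  have hS2 : ∀ v, ‖(π (D.S p v v)).2‖ = (π (D.S p v v)).1 := by
    intro v
    let Q : V →ₗ[ℝ] V →ₗ[ℝ] ℝ := LinearMap.mk₂ ℝ
      (fun X Y => (π X).1 * (π Y).1 - ⟪(π X).2, (π Y).2⟫_ℝ)
      (fun X X' Y => by
        rw [map_add, Prod.fst_add, Prod.snd_add, inner_add_left]; ring)
      (fun c X Y => by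
        rw [map_smul, Prod.smul_fst, Prod.smul_snd, real_inner_smul_left, smul_eq_mul,
          smul_eq_mul]; ring)
      (fun X Y Y' => by
        rw [map_add, Prod.fst_add, Prod.snd_add, inner_add_right]; ring)
      (fun c X Y => by
        rw [map_smul, Prod.smul_fst, Prod.smul_snd, real_inner_smul_right, smul_eq_mul,
          smul_eq_mul]; ring)
    have hQ : ∀ X Y, Q X Y = (π X).1 * (π Y).1 - ⟪(π X).2, (π Y).2⟫_ℝ := fun X Y => rfl
    have h1 := D.F4 Q (fun X Y => by rw [hQ, hQ, real_inner_comm]; ring) (fun y => by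
      rw [hQ, real_inner_self_eq_norm_sq, hnull y]; ring) p (fun Y => by
      rw [hQ, (hker _).2 (D.hat_mem p)]; simp) (fun v Y => by
      rw [hQ, (hker _).2 (D.A_mem p v)]; simp) v
    rw [hQ, real_inner_self_eq_norm_sq] at h1
    have h2 : 0 ≤ (π (D.S p v v)).1 := by
      by_cases hv : v = 0
      · rw [hv]; simp
      · exact (hS1 v hv).le
    have h3 := norm_nonneg (π (D.S p v v)).2
    nlinarith
  have hinj : ∀ (t : ℝ) (s : Eu (d + 1)), (∀ X, t * (π X).1 + ⟪s, (π X).2⟫_ℝ = 0) →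
      t = 0 ∧ s = 0 := by
    intro t s h
    have h1 : Θ (t, s) = 0 := by
      apply Subtype.ext
      refine LinearMap.ext fun X => ?_
      rw [key, h]
      rfl
    have h2 : ((t, s) : ℝ × Eu (d + 1)) = 0 := by
      apply Θ.injective
      rw [h1, map_zero]
    exact Prod.mk.inj h2
  exact ⟨{
    π := π
    ker := hker
    null := hnull
    pos := hpos
    S1 := hS1
    S2 := hS2
    rep := hrep
    inj := hinj
    eig := fun s hs => by
      obtain ⟨b, ε, h1, h2, h3, h4⟩ := hΘ3 s hs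
      refine ⟨b, ε, fun i j => ?_, h2, h3, h4⟩
      rw [← h1, key, one_mul] }⟩

end Pool.Agent.W595.Plane
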