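import Pool.Agent.W595.Plane.Chart

/-!
# First and second order conditions along lines in a chart
-/

set_option autoImplicit false

namespace Pool.Agent.W595.Plane

open Set Topology Filter
open scoped Manifold ContDiff InnerProductSpace

section

variable {n : ℕ} {M : Type} [TopologicalSpace M] [ChartedSpace (Eu n) M]
  {E : Type} [NormedAddCommGroup E] [NormedSpace ℝ E]

/-- the point `(1, f x)` of the cone over `f(M)`. -/
def hat {M E : Type} (f : M → E) (x : M) : ℝ × E := (1, f x)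

/-- first derivative of `hat` -/
noncomputable def tA (n : ℕ) {M : Type} [TopologicalSpace M] [ChartedSpace (Eu n) M]
    {E : Type} [NormedAddCommGroup E] [NormedSpace ℝ E] (f : M → E) (x : M) :
    Eu n →ₗ[ℝ] (ℝ × E) :=
  (LinearMap.inr ℝ ℝ E).comp (fA n f x).toLinearMap

/-- second derivative of `hat` -/
noncomputable def tS (n : ℕ) {M : Type} [TopologicalSpace M] [ChartedSpace (Eu n) M]
    {E : Type} [NormedAddCommGroup E] [NormedSpace ℝ E] (f : M → E) (x : M) :
    Eu n →ₗ[ℝ] Eu n →ₗ[ℝ] (ℝ × E) :=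
  LinearMap.mk₂ ℝ (fun v w => ((0 : ℝ), fS n f x v w))
    (fun v v' w => by simp) (fun c v w => by simp) (fun v w w' => by simp)
    (fun c v w => by simp)

@[simp] theorem tA_apply (f : M → E) (x : M) (v : Eu n) : tA n f x v = (0, fA n f x v) := rfl

@[simp] theorem tS_apply (f : M → E) (x : M) (v w : Eu n) :
    tS n f x v w = (0, fS n f x v w) := rfl

variable {f : M → E}

theorem taylor_hat (hf : ContMDiff (𝓡 n) 𝓘(ℝ, E) ∞ f) (x : M) {η : ℝ} (hη : 0 < η) :
    ∀ᶠ w in 𝓝 (0 : Eu n), ‖hat f ((ch n x).symm w) - hat f x - tA n f x w -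
      (1 / 2 : ℝ) • tS n f x w w‖ ≤ η * ‖w‖ ^ 2 := by
  filter_upwards [taylor_ch hf x hη] with w hw
  have e1 : hat f ((ch n x).symm w) - hat f x - tA n f x w - (1 / 2 : ℝ) • tS n f x w w =
      (0, f ((ch n x).symm w) - f x - fA n f x w - (1 / 2 : ℝ) • fS n f x w w) := by
    simp [hat]
  rw [e1, Prod.norm_def, norm_zero]
  exact max_le (by positivity) hw

theorem line_expansion (hf : ContMDiff (𝓡 n) 𝓘(ℝ, E) ∞ f) (x : M) (v : Eu n) :
    ∃ w : ℝ → ℝ × E, Tendsto w (𝓝[≠] 0) (𝓝 (tS n f x v v)) ∧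
      ∀ t, hat f ((ch n x).symm (t • v)) = hat f x + t • tA n f x v + (t ^ 2 / 2) • w t := by
  refine ⟨fun t => (2 / t ^ 2) • (hat f ((ch n x).symm (t • v)) - hat f x - t • tA n f x v),
    ?_, ?_⟩
  · rw [Metric.tendsto_nhds]
    intro ε hε
    have hη : 0 < ε / (4 * (‖v‖ ^ 2 + 1)) := by positivity
    have h1 := taylor_hat hf x hη
    have h2 : Tendsto (fun t : ℝ => t • v) (𝓝[≠] 0) (𝓝 0) := by
      have : Tendsto (fun t : ℝ => t • v) (𝓝 0) (𝓝 ((0 : ℝ) • v)) := by
        apply Continuous.tendsto; fun_prop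
      rw [zero_smul] at this
      exact this.mono_left nhdsWithin_le_nhds
    filter_upwards [h2.eventually h1, self_mem_nhdsWithin] with t ht ht0
    have ht0' : t ≠ 0 := ht0
    have ht2 : 0 < t ^ 2 := by positivity
    rw [dist_eq_norm]
    have e1 : (2 / t ^ 2) • (hat f ((ch n x).symm (t • v)) - hat f x - t • tA n f x v) -
        tS n f x v v = (2 / t ^ 2) • (hat f ((ch n x).symm (t • v)) - hat f x -
          tA n f x (t • v) - (1 / 2 : ℝ) • tS n f x (t • v) (t • v)) := by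
      have e2 : (2 / t ^ 2) • ((1 / 2 : ℝ) • tS n f x (t • v) (t • v)) = tS n f x v v := by
        rw [map_smul, map_smul, LinearMap.smul_apply, smul_smul, smul_smul, smul_smul]
        have : 2 / t ^ 2 * (1 / 2) * t * t = 1 := by field_simp
        rw [this, one_smul]
      rw [smul_sub _ _ ((1 / 2 : ℝ) • tS n f x (t • v) (t • v)), e2, map_smul]
    rw [e1, norm_smul, Real.norm_eq_abs, abs_of_pos (by positivity)]
    calc 2 / t ^ 2 * _ ≤ 2 / t ^ 2 * (ε / (4 * (‖v‖ ^ 2 + 1)) * ‖t • v‖ ^ 2) := by gcongr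
      _ = ε / 2 * (‖v‖ ^ 2 / (‖v‖ ^ 2 + 1)) := by
        rw [norm_smul, mul_pow, Real.norm_eq_abs, sq_abs]
        field_simp
        norm_num
      _ ≤ ε / 2 * 1 := by
        gcongr
        rw [div_le_one (by positivity)]
        linarith
      _ < ε := by linarith
  · intro t
    by_cases ht : t = 0
    · subst ht
      simp [ch_symm_zero]
    · rw [smul_smul]
      have : t ^ 2 / 2 * (2 / t ^ 2) = 1 := by field_simp
      rw [this, one_smul]
      abel

variable [FiniteDimensional ℝ E]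

theorem tendsto_lin (φ : (ℝ × E) →ₗ[ℝ] ℝ) {w : ℝ → ℝ × E} {l : Filter ℝ} {a : ℝ × E}
    (h : Tendsto w l (𝓝 a)) : Tendsto (fun t => φ (w t)) l (𝓝 (φ a)) :=
  ((φ.continuous_of_finiteDimensional).tendsto a).comp h

theorem tendsto_bil (Q : (ℝ × E) →ₗ[ℝ] (ℝ × E) →ₗ[ℝ] ℝ) {u w : ℝ → ℝ × E} {l : Filter ℝ}
    {a b : ℝ × E} (h : Tendsto u l (𝓝 a)) (h' : Tendsto w l (𝓝 b)) :
    Tendsto (fun t => Q (u t) (w t)) l (𝓝 (Q a b)) := by
  have hc : Continuous fun p : (ℝ × E) × (ℝ × E) => Q p.1 p.2 := by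
    have h2 : (fun p : (ℝ × E) × (ℝ × E) => Q p.1 p.2) = fun p =>
        (LinearMap.toContinuousLinearMap ((LinearMap.toContinuousLinearMap
          (𝕜 := ℝ) (E := ℝ × E) (F' := ℝ)).toLinearMap ∘ₗ Q)) p.1 p.2 := rfl
    rw [h2]
    fun_prop
  exact (hc.tendsto (a, b)).comp (h.prodMk_nhds h')

theorem td_F1 (hf : ContMDiff (𝓡 n) 𝓘(ℝ, E) ∞ f) (x : M) (φ : (ℝ × E) →ₗ[ℝ] ℝ)
    (h : ∀ y, 0 ≤ φ (hat f y)) (h0 : φ (hat f x) = 0) :
    (∀ v, φ (tA n f x v) = 0) ∧ (∀ v, 0 ≤ φ (tS n f x v v)) := by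
  have key : ∀ v, 0 ≤ φ (tA n f x v) := by
    intro v
    obtain ⟨w, hw, hw2⟩ := line_expansion hf x v
    have h1 : Tendsto (fun t : ℝ => φ (tA n f x v) + t / 2 * φ (w t)) (𝓝[>] 0)
        (𝓝 (φ (tA n f x v) + 0 / 2 * φ (tS n f x v v))) := by
      refine tendsto_const_nhds.add (Tendsto.mul ?_ ?_)
      · exact ((tendsto_id.mono_left nhdsWithin_le_nhds).div_const 2)
      · exact tendsto_lin φ (hw.mono_left (nhdsWithin_mono _ fun t ht => (ne_of_gt ht)))
    have h2 : 0 ≤ φ (tA n f x v) + 0 / 2 * φ (tS n f x v v) := by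
      refine ge_of_tendsto h1 ?_
      filter_upwards [self_mem_nhdsWithin] with t ht
      have ht' : 0 < t := ht
      have h3 := h ((ch n x).symm (t • v))
      rw [hw2 t, map_add, map_add, h0, map_smul, map_smul, smul_eq_mul, smul_eq_mul] at h3
      have h4 : 0 ≤ t * (φ (tA n f x v) + t / 2 * φ (w t)) := by
        calc 0 ≤ 0 + t * φ (tA n f x v) + t ^ 2 / 2 * φ (w t) := h3
          _ = _ := by ring
      exact nonneg_of_mul_nonneg_right h4 ht'
    simpa using h2
  have hA : ∀ v, φ (tA n f x v) = 0 := by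
    intro v
    have h1 := key v
    have h2 := key (-v)
    rw [map_neg, map_neg] at h2
    linarith
  refine ⟨hA, fun v => ?_⟩
  obtain ⟨w, hw, hw2⟩ := line_expansion hf x v
  refine ge_of_tendsto (tendsto_lin φ hw) ?_
  filter_upwards [self_mem_nhdsWithin] with t ht
  have ht' : t ≠ 0 := ht
  have h3 := h ((ch n x).symm (t • v))
  rw [hw2 t, map_add, map_add, h0, map_smul, map_smul, hA, smul_eq_mul, smul_eq_mul] at h3
  have ht2 : 0 < t ^ 2 := by positivity
  nlinarith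

theorem td_F2 (hf : ContMDiff (𝓡 n) 𝓘(ℝ, E) ∞ f) (Q : (ℝ × E) →ₗ[ℝ] (ℝ × E) →ₗ[ℝ] ℝ)
    (hs : ∀ X Y, Q X Y = Q Y X) (h : ∀ y, Q (hat f y) (hat f y) = 0) (x : M) (v : Eu n) :
    Q (hat f x) (tA n f x v) = 0 ∧
      Q (tA n f x v) (tA n f x v) + Q (hat f x) (tS n f x v v) = 0 := by
  obtain ⟨w, hw, hw2⟩ := line_expansion hf x v
  -- the difference quotient
  set u : ℝ → ℝ × E := fun t => tA n f x v + (t / 2) • w t with hu
  have hulim : Tendsto u (𝓝[≠] 0) (𝓝 (tA n f x v)) := by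
    have h1 : Tendsto (fun t : ℝ => tA n f x v + (t / 2) • w t) (𝓝[≠] 0)
        (𝓝 (tA n f x v + ((0 : ℝ) / 2) • tS n f x v v)) := by
      refine tendsto_const_nhds.add (Tendsto.smul ?_ hw)
      exact ((tendsto_id.mono_left nhdsWithin_le_nhds).div_const 2)
    rw [zero_div, zero_smul, add_zero] at h1
    exact h1
  have hy : ∀ t, hat f ((ch n x).symm (t • v)) = hat f x + t • u t := by
    intro t
    rw [hw2 t, hu]
    simp only [smul_add, smul_smul]
    rw [add_assoc]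
    congr 3
    ring
  have hid : Tendsto (fun t : ℝ => t) (𝓝[≠] 0) (𝓝 0) := tendsto_id.mono_left nhdsWithin_le_nhds
  have hA : Q (hat f x) (tA n f x v) = 0 := by
    have h1 : Tendsto (fun t => 2 * Q (hat f x) (u t) + t * Q (u t) (u t)) (𝓝[≠] 0)
        (𝓝 (2 * Q (hat f x) (tA n f x v) + 0 * Q (tA n f x v) (tA n f x v))) := by
      refine (Tendsto.const_mul 2 ?_).add (hid.mul (tendsto_bil Q hulim hulim))
      exact tendsto_bil Q tendsto_const_nhds hulim
    have h2 : Tendsto (fun t => 2 * Q (hat f x) (u t) + t * Q (u t) (u t)) (𝓝[≠] 0) (𝓝 0) := by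
      refine tendsto_const_nhds.congr' ?_
      filter_upwards [self_mem_nhdsWithin] with t ht
      have ht' : t ≠ 0 := ht
      have h3 := h ((ch n x).symm (t • v))
      rw [hy t] at h3
      simp only [map_add, map_smul, LinearMap.add_apply, LinearMap.smul_apply, smul_eq_mul,
        h x, hs (u t) (hat f x)] at h3
      have h4 : t * (2 * Q (hat f x) (u t) + t * Q (u t) (u t)) = 0 := by linarith
      exact ((mul_eq_zero.1 h4).resolve_left ht').symm
    have := tendsto_nhds_unique h1 h2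
    linarith
  refine ⟨hA, ?_⟩
  have h1 : Tendsto (fun t => Q (u t) (u t) + Q (hat f x) (w t)) (𝓝[≠] 0)
      (𝓝 (Q (tA n f x v) (tA n f x v) + Q (hat f x) (tS n f x v v))) :=
    (tendsto_bil Q hulim hulim).add (tendsto_bil Q tendsto_const_nhds hw)
  have h2 : Tendsto (fun t => Q (u t) (u t) + Q (hat f x) (w t)) (𝓝[≠] 0) (𝓝 0) := by
    refine tendsto_const_nhds.congr' ?_
    filter_upwards [self_mem_nhdsWithin] with t ht
    have ht' : t ≠ 0 := ht
    have h3 := h ((ch n x).symm (t • v))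
    rw [hy t] at h3
    simp only [map_add, map_smul, LinearMap.add_apply, LinearMap.smul_apply, smul_eq_mul,
      h x, hs (u t) (hat f x)] at h3
    have h5 : Q (hat f x) (u t) = t / 2 * Q (hat f x) (w t) := by
      rw [hu]
      simp only [map_add, map_smul, smul_eq_mul, hA, zero_add]
    rw [h5] at h3
    have h4 : t * t * (Q (u t) (u t) + Q (hat f x) (w t)) = 0 := by linarith
    exact ((mul_eq_zero.1 h4).resolve_left (mul_ne_zero ht' ht')).symm
  exact tendsto_nhds_unique h1 h2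

theorem td_F4 (hf : ContMDiff (𝓡 n) 𝓘(ℝ, E) ∞ f) (Q : (ℝ × E) →ₗ[ℝ] (ℝ × E) →ₗ[ℝ] ℝ)
    (hs : ∀ X Y, Q X Y = Q Y X) (h : ∀ y, Q (hat f y) (hat f y) = 0) (x : M)
    (hx : ∀ Y, Q (hat f x) Y = 0) (hA : ∀ v Y, Q (tA n f x v) Y = 0) (v : Eu n) :
    Q (tS n f x v v) (tS n f x v v) = 0 := by
  obtain ⟨w, hw, hw2⟩ := line_expansion hf x v
  have h1 : Tendsto (fun t => Q (w t) (w t)) (𝓝[≠] 0) (𝓝 (Q (tS n f x v v) (tS n f x v v))) :=
    tendsto_bil Q hw hw
  have h2 : Tendsto (fun t => Q (w t) (w t)) (𝓝[≠] 0) (𝓝 0) := by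
    refine tendsto_const_nhds.congr' ?_
    filter_upwards [self_mem_nhdsWithin] with t ht
    have ht' : t ≠ 0 := ht
    have h3 := h ((ch n x).symm (t • v))
    rw [hw2 t] at h3
    simp only [map_add, map_smul, LinearMap.add_apply, LinearMap.smul_apply, smul_eq_mul,
      hx, hA, hs _ (hat f x), hs _ (tA n f x v)] at h3
    have h4 : t ^ 2 / 2 * (t ^ 2 / 2) * Q (w t) (w t) = 0 := by linarith
    refine ((mul_eq_zero.1 h4).resolve_left ?_).symm
    positivity
  exact tendsto_nhds_unique h1 h2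

end

end Pool.Agent.W595.Plane
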