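import Pool.Agent.W595.Plane.TD

/-!
# A space of symmetric operators with index `0`, `d`, `2 d` is a Clifford space
-/

set_option autoImplicit false

namespace Pool.Agent.W595.Plane

open scoped InnerProductSpace
open Set

namespace Lorentz

theorem two_values {d : ℕ} (hd : 1 ≤ d) (e : Fin (2 * d) → ℝ)
    (hidx : ∀ μ : ℝ, (∀ i, e i ≠ μ) →
      (Finset.univ.filter fun i => e i < μ).card = 0 ∨
        (Finset.univ.filter fun i => e i < μ).card = d ∨
        (Finset.univ.filter fun i => e i < μ).card = 2 * d) :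
    ∃ α β : ℝ, α ≤ β ∧ (∀ i, e i = α ∨ e i = β) ∧
      (α < β → (Finset.univ.filter fun i => e i = α).card = d ∧
        (Finset.univ.filter fun i => e i = β).card = d) := by
  classical
  have hne : (Finset.univ : Finset (Fin (2 * d))).Nonempty := ⟨⟨0, by omega⟩, Finset.mem_univ _⟩
  obtain ⟨i₀, -, hi₀⟩ := Finset.exists_min_image Finset.univ e hne
  obtain ⟨i₁, -, hi₁⟩ := Finset.exists_max_image Finset.univ e hne
  have hmin : ∀ i, e i₀ ≤ e i := fun i => hi₀ i (Finset.mem_univ _)
  have hmax : ∀ i, e i ≤ e i₁ := fun i => hi₁ i (Finset.mem_univ _)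
  refine ⟨e i₀, e i₁, hmin i₁, ?_⟩
  rcases (hmin i₁).eq_or_lt with heq | hlt
  · refine ⟨fun i => Or.inl (le_antisymm ((hmax i).trans heq.symm.le) (hmin i)), fun h => ?_⟩
    exact absurd heq h.ne
  have hlow : (Finset.univ.filter fun i => e i = e i₀).card = d := by
    obtain ⟨k, hk, hkmin⟩ := Finset.exists_min_image
      (Finset.univ.filter fun i => e i₀ < e i) e ⟨i₁, by simpa using hlt⟩
    simp only [Finset.mem_filter, Finset.mem_univ, true_and] at hk hkmin
    have h1 : (Finset.univ.filter fun i => e i < (e i₀ + e k) / 2) =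
        (Finset.univ.filter fun i => e i = e i₀) := by
      ext i
      simp only [Finset.mem_filter, Finset.mem_univ, true_and]
      constructor
      · intro h
        by_contra hne
        have h2 := hkmin i (lt_of_le_of_ne (hmin i) (Ne.symm hne))
        linarith
      · intro h
        rw [h]; linarith
    have h2 := hidx ((e i₀ + e k) / 2) (by
      intro i h
      rcases (hmin i).eq_or_lt with h3 | h3
      · linarith
      · have := hkmin i h3
        linarith)
    rw [h1] at h2
    rcases h2 with h2 | h2 | h2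
    · rw [Finset.card_eq_zero, Finset.filter_eq_empty_iff] at h2
      exact absurd rfl (h2 (Finset.mem_univ i₀))
    · exact h2
    · have h3 : (Finset.univ.filter fun i => e i = e i₀) = Finset.univ := by
        rw [← Finset.card_eq_iff_eq_univ, h2]; simp
      have h4 : i₁ ∈ (Finset.univ.filter fun i => e i = e i₀) := by rw [h3]; simp
      simp only [Finset.mem_filter, Finset.mem_univ, true_and] at h4
      linarith
  have hhigh : (Finset.univ.filter fun i => e i = e i₁).card = d := by
    obtain ⟨k, hk, hkmax⟩ := Finset.exists_max_image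
      (Finset.univ.filter fun i => e i < e i₁) e ⟨i₀, by simpa using hlt⟩
    simp only [Finset.mem_filter, Finset.mem_univ, true_and] at hk hkmax
    have h1 : (Finset.univ.filter fun i => e i < (e i₁ + e k) / 2) =
        (Finset.univ.filter fun i => ¬ e i = e i₁) := by
      ext i
      simp only [Finset.mem_filter, Finset.mem_univ, true_and]
      constructor
      · intro h h5
        linarith
      · intro h
        have h2 := hkmax i (lt_of_le_of_ne (hmax i) h)
        linarith
    have h2 := hidx ((e i₁ + e k) / 2) (by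
      intro i h
      rcases (hmax i).eq_or_lt with h3 | h3
      · linarith
      · have := hkmax i h3
        linarith)
    rw [h1] at h2
    have h5 := Finset.card_filter_add_card_filter_not (s := (Finset.univ : Finset (Fin (2 * d))))
      (fun i => e i = e i₁)
    rw [Finset.card_univ, Fintype.card_fin] at h5
    have h6 : 0 < (Finset.univ.filter fun i => e i = e i₁).card :=
      Finset.card_pos.2 ⟨i₁, by simp⟩
    have h7 : 0 < (Finset.univ.filter fun i => ¬ e i = e i₁).card :=
      Finset.card_pos.2 ⟨i₀, by simpa using hlt.ne⟩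
    omega
  refine ⟨?_, fun _ => ⟨hlow, hhigh⟩⟩
  have hdisj : Disjoint (Finset.univ.filter fun i => e i = e i₀)
      (Finset.univ.filter fun i => e i = e i₁) := by
    rw [Finset.disjoint_filter]
    intro i _ h1 h2
    linarith
  have hunion : (Finset.univ.filter fun i => e i = e i₀) ∪
      (Finset.univ.filter fun i => e i = e i₁) = Finset.univ := by
    rw [← Finset.card_eq_iff_eq_univ, Finset.card_union_of_disjoint hdisj, hlow, hhigh]
    simp
    omega
  intro i
  have : i ∈ (Finset.univ.filter fun i => e i = e i₀) ∪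
      (Finset.univ.filter fun i => e i = e i₁) := by rw [hunion]; simp
  simpa using this

end Lorentz

open Lorentz

/-- A `(d + 2)`-dimensional space of symmetric operators on a Euclidean space of dimension `2 d`,
containing the identity, whose nondegenerate members have index `0`, `d` or `2 d`. -/
theorem lorentz_cone {d : ℕ} (hd : 1 ≤ d) {T U : Type} [NormedAddCommGroup T]
    [InnerProductSpace ℝ T] [FiniteDimensional ℝ T] [AddCommGroup U] [Module ℝ U]
    [FiniteDimensional ℝ U] (hT : Module.finrank ℝ T = 2 * d) (hU : Module.finrank ℝ U = d + 2)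
    (H : U →ₗ[ℝ] (T →ₗ[ℝ] T)) (hsym : ∀ φ, (H φ).IsSymmetric) (hinj : ∀ φ, H φ = 0 → φ = 0)
    (φ₀ : U) (h0 : H φ₀ = LinearMap.id)
    (hidx : ∀ (φ : U) (b : OrthonormalBasis (Fin (2 * d)) ℝ T) (ε : Fin (2 * d) → ℝ),
      (∀ i, ε i ≠ 0) → (∀ i, H φ (b i) = ε i • b i) →
      (Finset.univ.filter fun i => ε i < 0).card = 0 ∨
        (Finset.univ.filter fun i => ε i < 0).card = d ∨
        (Finset.univ.filter fun i => ε i < 0).card = 2 * d) :
    ∃ (Θ : (ℝ × Eu (d + 1)) ≃ₗ[ℝ] U) (R : Eu (d + 1) →ₗ[ℝ] (T →ₗ[ℝ] T)),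
      Θ (1, 0) = φ₀ ∧ (∀ t s, H (Θ (t, s)) = t • LinearMap.id + R s) ∧
      (∀ s v, R s (R s v) = ‖s‖ ^ 2 • v) ∧
      ∀ s : Eu (d + 1), ‖s‖ = 1 →
        ∃ (b : OrthonormalBasis (Fin (2 * d)) ℝ T) (ε : Fin (2 * d) → ℝ),
          (∀ i, H (Θ (1, s)) (b i) = ε i • b i) ∧ (∀ i, ε i = 0 ∨ ε i = 2) ∧
          (Finset.univ.filter fun i => ε i = 0).card = d := by
  classical
  have hd0 : (0 : ℝ) < d := by exact_mod_cast hd
  -- the spectral structure of `H φ`
  have hspec : ∀ φ, ∃ (b : OrthonormalBasis (Fin (2 * d)) ℝ T) (e : Fin (2 * d) → ℝ) (α β : ℝ),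
      (∀ i, H φ (b i) = e i • b i) ∧ α ≤ β ∧ (∀ i, e i = α ∨ e i = β) ∧
      (α < β → (Finset.univ.filter fun i => e i = α).card = d ∧
        (Finset.univ.filter fun i => e i = β).card = d) := by
    intro φ
    have hb : ∀ i, H φ ((hsym φ).eigenvectorBasis hT i) =
        (hsym φ).eigenvalues hT i • (hsym φ).eigenvectorBasis hT i := fun i =>
      (hsym φ).apply_eigenvectorBasis hT i
    obtain ⟨α, β, h1, h2, h3⟩ := two_values hd ((hsym φ).eigenvalues hT) (by
      intro μ hμ
      have h4 := hidx (φ - μ • φ₀) ((hsym φ).eigenvectorBasis hT)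
        (fun i => (hsym φ).eigenvalues hT i - μ) (fun i => sub_ne_zero.2 (hμ i)) (by
          intro i
          rw [map_sub, map_smul, h0, LinearMap.sub_apply, hb, LinearMap.smul_apply,
            LinearMap.id_apply, sub_smul])
      simpa only [sub_neg] using h4)
    exact ⟨_, _, α, β, hb, h1, h2, h3⟩
  -- the trace
  let c : U →ₗ[ℝ] ℝ := (1 / (2 * (d : ℝ))) • (LinearMap.trace ℝ T ∘ₗ H)
  have hc : ∀ φ, c φ = (1 / (2 * (d : ℝ))) * LinearMap.trace ℝ T (H φ) := fun φ => rfl
  have hc0 : c φ₀ = 1 := by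
    rw [hc, h0, LinearMap.trace_id, hT]
    push_cast
    field_simp
  have htr : ∀ φ (b : OrthonormalBasis (Fin (2 * d)) ℝ T) (e : Fin (2 * d) → ℝ),
      (∀ i, H φ (b i) = e i • b i) → LinearMap.trace ℝ T (H φ) = ∑ i, e i := by
    intro φ b e hb
    rw [LinearMap.trace_eq_sum_inner (H φ) b]
    refine Finset.sum_congr rfl fun i _ => ?_
    rw [hb, inner_smul_right, real_inner_self_eq_norm_sq, b.norm_eq_one]
    simp
  -- structure on the kernel of `c`
  have hker : ∀ φ, c φ = 0 → ∃ (b : OrthonormalBasis (Fin (2 * d)) ℝ T) (e : Fin (2 * d) → ℝ)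
      (ρ : ℝ), 0 ≤ ρ ∧ (∀ i, H φ (b i) = e i • b i) ∧ (∀ i, e i = -ρ ∨ e i = ρ) ∧
        (0 < ρ → (Finset.univ.filter fun i => e i = -ρ).card = d) := by
    intro φ hφ
    obtain ⟨b, e, α, β, hb, hαβ, he, hcard⟩ := hspec φ
    rw [hc, htr φ b e hb] at hφ
    have hsum : ∑ i, e i = 0 := by
      rcases mul_eq_zero.1 hφ with h | h
      · exfalso
        have : (0:ℝ) < 1 / (2 * (d : ℝ)) := by positivity
        linarith
      · exact h
    rcases hαβ.eq_or_lt with heq | hlt
    · have h1 : ∀ i, e i = α := fun i => by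
        rcases he i with h | h
        · exact h
        · rw [h, heq]
      have h2 : α = 0 := by
        simp only [h1, Finset.sum_const, Finset.card_univ, Fintype.card_fin, nsmul_eq_mul] at hsum
        push_cast at hsum
        rcases mul_eq_zero.1 hsum with h | h
        · exfalso; linarith
        · exact h
      exact ⟨b, e, 0, le_rfl, hb, fun i => by simp [h1 i, h2], fun h => absurd h (lt_irrefl _)⟩
    · obtain ⟨h1, h2⟩ := hcard hlt
      have h3 : ∀ i, e i = (if e i = α then α else 0) + (if e i = β then β else 0) := by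
        intro i
        rcases he i with h | h
        · rw [h, if_pos rfl, if_neg hlt.ne, add_zero]
        · rw [h, if_pos rfl, if_neg hlt.ne', zero_add]
      have h4 : ∑ i, e i = (d : ℝ) * α + d * β := by
        rw [Finset.sum_congr rfl fun i _ => h3 i, Finset.sum_add_distrib, ← Finset.sum_filter,
          ← Finset.sum_filter, Finset.sum_const, Finset.sum_const, h1, h2]
        simp
      have h5 : α = -β := by
        rw [h4, ← mul_add] at hsum
        rcases mul_eq_zero.1 hsum with h | h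
        · exfalso; linarith
        · linarith
      refine ⟨b, e, β, by linarith, hb, fun i => ?_, fun _ => ?_⟩
      · rw [← h5]; exact he i
      · rw [← h5]; exact h1
  have hsq : ∀ φ (b : OrthonormalBasis (Fin (2 * d)) ℝ T) (e : Fin (2 * d) → ℝ) (ρ : ℝ),
      (∀ i, H φ (b i) = e i • b i) → (∀ i, e i = -ρ ∨ e i = ρ) →
      ∀ v, H φ (H φ v) = ρ ^ 2 • v := by
    intro φ b e ρ hb he v
    have h1 : H φ ∘ₗ H φ = ρ ^ 2 • LinearMap.id := by
      refine b.toBasis.ext fun i => ?_
      simp only [OrthonormalBasis.coe_toBasis, LinearMap.comp_apply, hb, map_smul,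
        LinearMap.smul_apply, LinearMap.id_apply, smul_smul]
      congr 1
      rcases he i with h | h <;> rw [h] <;> ring
    have := LinearMap.congr_fun h1 v
    simpa using this
  -- a unit vector
  obtain ⟨v₀, hv₀⟩ : ∃ v₀ : T, ‖v₀‖ = 1 := by
    obtain ⟨b, _⟩ := hspec 0
    exact ⟨b ⟨0, by omega⟩, b.norm_eq_one _⟩
  -- norm of `H φ v₀`
  have hnorm : ∀ φ ρ, 0 ≤ ρ → (∀ v, H φ (H φ v) = ρ ^ 2 • v) → ‖H φ v₀‖ = ρ := by
    intro φ ρ hρ h1
    have h2 : ‖H φ v₀‖ ^ 2 = ρ ^ 2 := by
      rw [← real_inner_self_eq_norm_sq, hsym φ v₀ (H φ v₀), h1, inner_smul_right,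
        real_inner_self_eq_norm_sq, hv₀]
      ring
    exact (sq_eq_sq₀ (norm_nonneg _) hρ).1 h2
  let W : Submodule ℝ U := LinearMap.ker c
  have hWsq : ∀ φ ∈ W, ∀ v, H φ (H φ v) = ‖H φ v₀‖ ^ 2 • v := by
    intro φ hφ v
    obtain ⟨b, e, ρ, hρ, hb, he, _⟩ := hker φ hφ
    have h1 := hsq φ b e ρ hb he
    rw [hnorm φ ρ hρ h1, h1]
  let ev : W →ₗ[ℝ] T := (LinearMap.applyₗ v₀) ∘ₗ H ∘ₗ W.subtype
  have hev : ∀ φ : W, ev φ = H φ v₀ := fun φ => rfl
  have hevi : Function.Injective ev := by
    rw [← LinearMap.ker_eq_bot, LinearMap.ker_eq_bot']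
    intro φ hφ
    rw [hev] at hφ
    have h1 := hWsq φ φ.2
    rw [hφ, norm_zero] at h1
    have h2 : H φ = 0 := by
      ext v
      have h3 : ‖H φ v‖ ^ 2 = 0 := by
        rw [← real_inner_self_eq_norm_sq, hsym φ v (H φ v), h1]
        simp
      rw [LinearMap.zero_apply]
      exact norm_eq_zero.1 (pow_eq_zero_iff (two_ne_zero)|>.1 h3)
    exact Subtype.ext (hinj _ h2)
  have hWdim : Module.finrank ℝ W = d + 1 := by
    have h1 := LinearMap.finrank_range_add_finrank_ker c
    have h2 : LinearMap.range c = ⊤ := by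
      rw [LinearMap.range_eq_top]
      intro x
      exact ⟨x • φ₀, by rw [map_smul, hc0, smul_eq_mul, mul_one]⟩
    rw [h2, finrank_top, Module.finrank_self, hU] at h1
    show Module.finrank ℝ (LinearMap.ker c) = d + 1
    omega
  -- the isometry
  let ι : W ≃ₗ[ℝ] LinearMap.range ev := LinearEquiv.ofInjective ev hevi
  have hMdim : Module.finrank ℝ (LinearMap.range ev) = d + 1 := by
    rw [← ι.finrank_eq, hWdim]
  let κ₀ : LinearMap.range ev ≃ₗᵢ[ℝ] Eu (d + 1) :=
    ((stdOrthonormalBasis ℝ (LinearMap.range ev)).reindex (finCongr hMdim)).repr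
  let κ : Eu (d + 1) ≃ₗ[ℝ] W := κ₀.symm.toLinearEquiv.trans ι.symm
  have hκ : ∀ s, ‖H (κ s) v₀‖ = ‖s‖ := by
    intro s
    have h1 : (ι (κ s) : T) = H (κ s) v₀ := rfl
    rw [← h1]
    have h2 : ι (κ s) = κ₀.symm s := by
      simp only [κ, LinearEquiv.trans_apply, LinearEquiv.apply_symm_apply]
      rfl
    rw [h2]
    exact κ₀.symm.norm_map s
  let Θ₀ : (ℝ × Eu (d + 1)) →ₗ[ℝ] U :=
    (LinearMap.toSpanSingleton ℝ U φ₀).coprod (W.subtype ∘ₗ κ.toLinearMap)
  have hΘ₀ : ∀ t s, Θ₀ (t, s) = t • φ₀ + (κ s : U) := fun t s => by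
    simp [Θ₀]
  have hΘi : Function.Injective Θ₀ := by
    rw [← LinearMap.ker_eq_bot, LinearMap.ker_eq_bot']
    rintro ⟨t, s⟩ hts
    rw [hΘ₀] at hts
    have h1 := congrArg c hts
    have h2 : c (κ s : U) = 0 := (κ s).2
    rw [map_add, map_smul, hc0, h2, map_zero, smul_eq_mul, mul_one, add_zero] at h1
    rw [h1, zero_smul, zero_add] at hts
    have h3 : κ s = 0 := Subtype.ext hts
    have h4 : s = 0 := by simpa using h3
    rw [h1, h4]
    rfl
  let Θ : (ℝ × Eu (d + 1)) ≃ₗ[ℝ] U := LinearEquiv.ofInjectiveOfFinrankEq Θ₀ hΘi (by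
    rw [hU, Module.finrank_prod, Module.finrank_self, finrank_euclideanSpace, Fintype.card_fin]
    ring)
  have hΘ : ∀ t s, Θ (t, s) = t • φ₀ + (κ s : U) := hΘ₀
  refine ⟨Θ, H ∘ₗ W.subtype ∘ₗ κ.toLinearMap, ?_, ?_, ?_, ?_⟩
  · rw [hΘ]; simp
  · intro t s
    rw [hΘ, map_add, map_smul, h0]
    rfl
  · intro s v
    have h1 := hWsq (κ s) (κ s).2 v
    rw [hκ] at h1
    exact h1
  · intro s hs
    obtain ⟨b, e, ρ, hρ, hb, he, hcard⟩ := hker (κ s) (κ s).2
    have h1 := hsq _ b e ρ hb he
    have h2 : ρ = 1 := by rw [← hnorm _ ρ hρ h1, hκ, hs]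
    subst h2
    refine ⟨b, fun i => 1 + e i, ?_, ?_, ?_⟩
    · intro i
      rw [hΘ, map_add, map_smul, h0, one_smul, LinearMap.add_apply, LinearMap.id_apply, hb,
        add_smul, one_smul]
    · intro i
      show 1 + e i = 0 ∨ 1 + e i = 2
      rcases he i with h | h
      · left; rw [h]; norm_num
      · right; rw [h]; norm_num
    · refine Eq.trans ?_ (hcard one_pos)
      congr 1
      ext i
      simp only [Finset.mem_filter, Finset.mem_univ, true_and]
      constructor <;> intro h <;> linarith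

end Pool.Agent.W595.Plane
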