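import Pool.Agent.W595.Plane.Normal
import Pool.Agent.W595.Plane.Index
import Pool.Agent.W595.Plane.Common

/-!
# The topological part: index of critical points, spherical top sets, common top sets
-/

set_option autoImplicit false
set_option linter.unusedSectionVars false

namespace Pool.Agent.W595.Plane

open Set Topology Filter Pool.Agent.Helper775.Tight Pool.Agent.Helper775.Tight.SoftCx
open scoped Manifold ContDiff InnerProductSpace

/-- Tightness and Betti numbers in Alexander-Spanier cohomology mod 2. -/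
structure TopHyp (d : ℕ) {M : Type} [MetricSpace M] {E : Type} [NormedAddCommGroup E]
    [InnerProductSpace ℝ E] (f : M → E) : Prop where
  surj : ∀ z : E, z ≠ 0 → ∀ (t : ℝ) (n : ℕ), 1 ≤ n → ∀ c,
    (AS M).Coc {x | t ≤ ⟪z, f x⟫_ℝ} n c →
    ∃ c', (AS M).Coc univ n c' ∧ (AS M).Cob {x | t ≤ ⟪z, f x⟫_ℝ} n (c - c')
  ex : ∀ n, 2 ≤ n → n ≤ 2 * d → n ≠ d + 1 → (AS M).Ex univ n
  rank : ∀ c c', (AS M).Coc univ (d + 1) c → (AS M).Coc univ (d + 1) c' →
    (AS M).Cob univ (d + 1) c ∨ (AS M).Cob univ (d + 1) c' ∨ (AS M).Cob univ (d + 1) (c - c')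

section

variable {d : ℕ} {M : Type} [MetricSpace M] [CompactSpace M]
  {E : Type} [NormedAddCommGroup E] [InnerProductSpace ℝ E] [FiniteDimensional ℝ E] {f : M → E}

theorem surj_lower (H : TopHyp d f) (φ : (ℝ × E) →ₗ[ℝ] ℝ) (hz : ∃ w, φ (0, w) ≠ 0) (r : ℝ)
    (n : ℕ) (hn : 1 ≤ n) (c : Ch M) (hc : (AS M).Coc {x | φ (hat f x) ≤ r} n c) :
    ∃ c', (AS M).Coc univ n c' ∧ (AS M).Cob {x | φ (hat f x) ≤ r} n (c - c') := by
  obtain ⟨c0, z, hcz, hcz2⟩ := exists_cz (M := M) φ
  have hz0 : z ≠ 0 := by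
    rintro rfl
    obtain ⟨w, hw⟩ := hz
    apply hw
    rw [hcz2]
    simp
  have hset : {x | φ (hat f x) ≤ r} = {x | c0 - r ≤ ⟪-z, f x⟫_ℝ} := by
    ext x
    rw [mem_ofPred_eq, mem_ofPred_eq, hcz, inner_neg_left]
    constructor <;> intro h <;> linarith
  rw [hset] at hc ⊢
  exact H.surj (-z) (neg_ne_zero.2 hz0) _ n hn c hc

variable [ChartedSpace (Eu (2 * d)) M]

theorem continuous_phi (hf : ContMDiff (𝓡 (2 * d)) 𝓘(ℝ, E) ∞ f) (φ : (ℝ × E) →ₗ[ℝ] ℝ) :
    Continuous fun x => φ (hat f x) :=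
  φ.continuous_of_finiteDimensional.comp (continuous_const.prodMk hf.continuous)

theorem idx_aux (H : TopHyp d f) (hf : ContMDiff (𝓡 (2 * d)) 𝓘(ℝ, E) ∞ f) (x : M)
    (φ : (ℝ × E) →ₗ[ℝ] ℝ) (h0 : φ (hat f x) = 0) (hA : ∀ v, φ (tA (2 * d) f x v) = 0)
    (b : Module.Basis (Fin (2 * d)) ℝ (Eu (2 * d))) (ε : Fin (2 * d) → ℝ) (hε : ∀ i, ε i ≠ 0)
    (hd : ∀ i j, φ (tS (2 * d) f x (b i) (b j)) = if i = j then ε i else 0) {i : ℕ}
    (hi : (Finset.univ.filter fun k => ε k < 0).card = i) (hi2 : 2 ≤ i)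
    (hex : (AS M).Ex {y | φ (hat f y) ≤ 0} (i + 1)) : False := by
  obtain ⟨e, ρ, hρ, hball, hexp⟩ := normal_form hf x φ h0 hA b ε hε hd hi
  have hz : ∃ w, φ (0, w) ≠ 0 := by
    have hn : 0 < 2 * d := by
      by_contra h
      have h0 : 2 * d = 0 := by omega
      rw [← hi] at hi2
      have h1 := Finset.card_le_univ (Finset.univ.filter fun k : Fin (2 * d) => ε k < 0)
      rw [Fintype.card_fin] at h1
      omega
    refine ⟨fS (2 * d) f x (b ⟨0, hn⟩) (b ⟨0, hn⟩), ?_⟩
    have h1 := hd ⟨0, hn⟩ ⟨0, hn⟩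
    rw [if_pos rfl, tS_apply] at h1
    rw [h1]
    exact hε _
  exact index_lemma hi2 (fun y => φ (hat f y)) (continuous_phi hf φ) e hρ hball hexp hex
    (fun c hc => surj_lower H φ hz _ i (by omega) c hc)

theorem idx_metric_aux (H : TopHyp d f) (hf : ContMDiff (𝓡 (2 * d)) 𝓘(ℝ, E) ∞ f) (x : M)
    (φ : (ℝ × E) →ₗ[ℝ] ℝ) (h0 : φ (hat f x) = 0) (hA : ∀ v, φ (tA (2 * d) f x v) = 0)
    (b : Module.Basis (Fin (2 * d)) ℝ (Eu (2 * d))) (ε : Fin (2 * d) → ℝ) (hε : ∀ i, ε i ≠ 0)
    (hd : ∀ i j, φ (tS (2 * d) f x (b i) (b j)) = if i = j then ε i else 0) {i : ℕ}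
    (hi : (Finset.univ.filter fun k => ε k < 0).card = i) (hi2 : 2 ≤ i) (hid : i ≠ d)
    (hi3 : i < 2 * d) : False := by
  refine idx_aux H hf x φ h0 hA b ε hε hd hi hi2 fun c hc => ?_
  have hz : ∃ w, φ (0, w) ≠ 0 := by
    refine ⟨fS (2 * d) f x (b ⟨0, by omega⟩) (b ⟨0, by omega⟩), ?_⟩
    have h1 := hd ⟨0, by omega⟩ ⟨0, by omega⟩
    rw [if_pos rfl, tS_apply] at h1
    rw [h1]
    exact hε _
  obtain ⟨c', hc', hcob⟩ := surj_lower H φ hz 0 (i + 1) (by omega) c hc
  have := hcob.add ((H.ex (i + 1) (by omega) (by omega) (by omega) c' hc').mono (subset_univ _))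
  simpa using this

/-- nondegenerate critical points have index `0`, `d` or `2 d` -/
theorem idx_metric (hd2 : 2 ≤ d) (H : TopHyp d f) (hf : ContMDiff (𝓡 (2 * d)) 𝓘(ℝ, E) ∞ f)
    (x : M) (φ : (ℝ × E) →ₗ[ℝ] ℝ) (h0 : φ (hat f x) = 0)
    (hA : ∀ v, φ (tA (2 * d) f x v) = 0)
    (b : Module.Basis (Fin (2 * d)) ℝ (Eu (2 * d))) (ε : Fin (2 * d) → ℝ) (hε : ∀ i, ε i ≠ 0)
    (hd : ∀ i j, φ (tS (2 * d) f x (b i) (b j)) = if i = j then ε i else 0) :
    (Finset.univ.filter fun i => ε i < 0).card = 0 ∨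
      (Finset.univ.filter fun i => ε i < 0).card = d ∨
      (Finset.univ.filter fun i => ε i < 0).card = 2 * d := by
  set i := (Finset.univ.filter fun i => ε i < 0).card with hi
  have hle : i ≤ 2 * d := by
    have h1 := Finset.card_le_univ (Finset.univ.filter fun k : Fin (2 * d) => ε k < 0)
    rwa [Fintype.card_fin] at h1
  by_contra hcon
  push Not at hcon
  obtain ⟨h1, h2, h3⟩ := hcon
  rcases Nat.lt_or_ge i 2 with h4 | h4
  · -- index one: pass to `-φ`
    have h5 : i = 1 := by omega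
    have h6 : (Finset.univ.filter fun k => -ε k < 0).card = 2 * d - 1 := by
      have h7 : (Finset.univ.filter fun k => -ε k < 0) =
          Finset.univ.filter fun k => ¬ ε k < 0 := by
        refine Finset.filter_congr fun k _ => ?_
        constructor
        · intro h hlt; linarith
        · intro h
          have := hε k
          have h8 := lt_of_le_of_ne (not_lt.1 h) (Ne.symm this)
          linarith
      have h8 := Finset.card_filter_add_card_filter_not (s := Finset.univ)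
        (fun k : Fin (2 * d) => ε k < 0)
      rw [h7]
      rw [Finset.card_univ, Fintype.card_fin] at h8
      omega
    refine idx_metric_aux H hf x (-φ) (by simp [h0]) (fun v => by
      rw [LinearMap.neg_apply, hA, neg_zero]) b (fun k => -ε k) (fun k => neg_ne_zero.2 (hε k))
      (fun k l => ?_) h6 (by omega) (by omega) (by omega)
    rw [LinearMap.neg_apply, hd]
    split_ifs <;> simp
  · exact idx_metric_aux H hf x φ h0 hA b ε hε hd hi.symm h4 h2 (by omega)

/-- a generator -/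
theorem exists_gen (H : TopHyp d f) : ∃ a, (AS M).Coc univ (d + 1) a ∧
    ∀ c, (AS M).Coc univ (d + 1) c →
      (AS M).Cob univ (d + 1) c ∨ (AS M).Cob univ (d + 1) (c - a) := by
  by_cases h : ∃ a, (AS M).Coc univ (d + 1) a ∧ ¬ (AS M).Cob univ (d + 1) a
  · obtain ⟨a, ha, hna⟩ := h
    refine ⟨a, ha, fun c hc => ?_⟩
    rcases H.rank c a hc ha with h | h | h
    · exact Or.inl h
    · exact absurd h hna
    · exact Or.inr h
  · push Not at h
    exact ⟨0, coc_zero _ _, fun c hc => Or.inl (h c hc)⟩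

theorem full_metric (hd2 : 2 ≤ d) (H : TopHyp d f) (hf : ContMDiff (𝓡 (2 * d)) 𝓘(ℝ, E) ∞ f)
    (x : M) (φ ψ : (ℝ × E) →ₗ[ℝ] ℝ) (hφ : ∀ y, 0 ≤ φ (hat f y)) (h0 : φ (hat f x) = 0)
    (hψ0 : ψ (hat f x) = 0) (hψA : ∀ v, ψ (tA (2 * d) f x v) = 0)
    (b : Module.Basis (Fin (2 * d)) ℝ (Eu (2 * d))) (ε : Fin (2 * d) → ℝ) (hε : ∀ i, 0 ≤ ε i)
    (hd : ∀ i j, φ (tS (2 * d) f x (b i) (b j)) = if i = j then ε i else 0)
    (hdψ : ∀ i j, ψ (tS (2 * d) f x (b i) (b j)) = if i = j then 1 else 0)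
    (hcard : (Finset.univ.filter fun i => ε i = 0).card = d)
    (g : M → Eu (d + 1)) (hg : ContinuousOn g {y | φ (hat f y) = 0})
    (hginj : InjOn g {y | φ (hat f y) = 0}) (hgn : ∀ y, φ (hat f y) = 0 → ‖g y‖ = 1)
    (s : Eu (d + 1)) (hs : ‖s‖ = 1) : ∃ y, φ (hat f y) = 0 ∧ g y = s := by
  classical
  obtain ⟨hA, -⟩ := td_F1 hf x φ hφ h0
  by_contra hcon
  push Not at hcon
  set L : Set M := {y | φ (hat f y) = 0} with hL
  have hLc : IsCompact L := (isClosed_eq (continuous_phi hf φ) continuous_const).isCompact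
  -- `L` embeds into `ℝ^d`
  have hLex : (AS M).Ex L (d + 1) := by
    obtain ⟨σ, hσc, hσi⟩ := exists_sphere_coord (m := d + 1) (by omega) 0 s 1 one_pos
      (by rw [dist_zero_right, hs])
    have hmaps : MapsTo g L (Metric.sphere 0 1 \ {s}) := by
      intro y hy
      exact ⟨by rw [mem_sphere_zero_iff_norm]; exact hgn y hy, hcon y hy⟩
    exact ex_of_embed (m := d + 1 - 1) hLc (φ := σ ∘ g) (hσc.comp hg hmaps)
      (hσi.comp hginj hmaps) (by omega) (by omega)
  obtain ⟨a, ha, ha2⟩ := exists_gen H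
  obtain ⟨U, hU, hLU, hcobU⟩ := (hLex a (ha.mono (subset_univ _))).isOpen
  -- a level
  obtain ⟨η, hη, hηU⟩ : ∃ η > 0, {y | φ (hat f y) ≤ η} ⊆ U := by
    rcases Uᶜ.eq_empty_or_nonempty with he | hne
    · refine ⟨1, one_pos, ?_⟩
      rw [compl_empty_iff.1 he]; exact subset_univ _
    · obtain ⟨y₀, hy₀, hmin⟩ := hU.isClosed_compl.isCompact.exists_isMinOn hne
        (continuous_phi hf φ).continuousOn
      have h1 : 0 < φ (hat f y₀) := by
        refine lt_of_le_of_ne (hφ y₀) fun h => hy₀ (hLU ?_)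
        exact h.symm
      refine ⟨φ (hat f y₀) / 2, by positivity, fun y hy => ?_⟩
      by_contra hyU
      have h2 : φ (hat f y₀) ≤ φ (hat f y) := hmin hyU
      have h3 : φ (hat f y) ≤ φ (hat f y₀) / 2 := hy
      linarith
  obtain ⟨K, hK⟩ : ∃ K, ∀ y, ψ (hat f y) ≤ K := by
    obtain ⟨p, -, hp⟩ := isCompact_univ.exists_isMaxOn ⟨x, mem_univ x⟩
      (continuous_phi hf ψ).continuousOn
    exact ⟨_, fun y => hp (mem_univ y)⟩
  -- a small parameter
  obtain ⟨m, hm, hmε⟩ : ∃ m > 0, ∀ i, ε i ≠ 0 → m ≤ ε i := by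
    rcases (Finset.univ.filter fun i => ε i ≠ 0).eq_empty_or_nonempty with he | hne
    · refine ⟨1, one_pos, fun i hi => ?_⟩
      have : i ∈ Finset.univ.filter fun i => ε i ≠ 0 := by simp [hi]
      rw [he] at this
      exact absurd this (Finset.notMem_empty _)
    · obtain ⟨i₀, hi₀, hmin⟩ := Finset.exists_min_image _ ε hne
      rw [Finset.mem_filter] at hi₀
      refine ⟨ε i₀, lt_of_le_of_ne (hε i₀) (Ne.symm hi₀.2), fun i hi => ?_⟩
      exact hmin i (by simp [hi])
  set δ : ℝ := min (m / 2) (η / (|K| + 1)) with hδ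
  have hδ0 : 0 < δ := lt_min (by positivity) (by positivity)
  have hδm : δ < m := lt_of_le_of_lt (min_le_left _ _) (by linarith)
  have hδK : δ * (|K| + 1) ≤ η := by
    have : δ ≤ η / (|K| + 1) := min_le_right _ _
    rwa [le_div_iff₀ (by positivity)] at this
  have hχ : ∀ X, (φ - δ • ψ) X = φ X - δ * ψ X := fun X => rfl
  have hsub : {y | (φ - δ • ψ) (hat f y) ≤ 0} ⊆ U := by
    intro y hy
    apply hηU
    have h1 : (φ - δ • ψ) (hat f y) ≤ 0 := hy
    rw [hχ] at h1
    have h2 := hK y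
    have h3 := le_abs_self K
    change φ (hat f y) ≤ η
    nlinarith
  have hne : ∀ i, ε i - δ ≠ 0 := by
    intro i
    by_cases hi : ε i = 0
    · rw [hi]; linarith
    · have := hmε i hi
      intro h
      linarith
  have hneg : ∀ i, ε i - δ < 0 ↔ ε i = 0 := by
    intro i
    constructor
    · intro h
      by_contra hi
      have := hmε i hi
      linarith
    · intro h
      rw [h]; linarith
  have hcard' : (Finset.univ.filter fun i => ε i - δ < 0).card = d := by
    refine Eq.trans (congrArg Finset.card ?_) hcard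
    exact Finset.filter_congr fun i _ => hneg i
  have hdiag : ∀ i j, (φ - δ • ψ) (tS (2 * d) f x (b i) (b j)) = if i = j then ε i - δ else 0 := by
    intro i j
    rw [hχ, hd, hdψ]
    split_ifs <;> ring
  refine idx_aux H hf x (φ - δ • ψ) (by rw [hχ, h0, hψ0]; ring) (fun v => by
    rw [hχ, hA, hψA]; ring) b (fun i => ε i - δ) hne hdiag hcard' hd2 fun c hc => ?_
  have hz : ∃ w, (φ - δ • ψ) (0, w) ≠ 0 := by
    refine ⟨fS (2 * d) f x (b ⟨0, by omega⟩) (b ⟨0, by omega⟩), ?_⟩
    have h1 := hdiag ⟨0, by omega⟩ ⟨0, by omega⟩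
    rw [if_pos rfl, tS_apply] at h1
    rw [h1]
    exact hne _
  obtain ⟨c', hc', hcob⟩ := surj_lower H _ hz 0 (d + 1) (by omega) c hc
  rcases ha2 c' hc' with h | h
  · have := hcob.add (h.mono (subset_univ _))
    simpa using this
  · have := (hcob.add (h.mono (subset_univ _))).add (hcobU.mono hsub)
    simpa using this

/-- the product with itself is charted on a Euclidean space. -/
noncomputable def prodCharted (D : ℕ) (P : Type) [TopologicalSpace P] [ChartedSpace (Eu D) P] :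
    ChartedSpace (Eu (D + D)) (P × P) :=
  letI e : (Eu D × Eu D) ≃L[ℝ] Eu (D + D) := ContinuousLinearEquiv.ofFinrankEq (by
    rw [Module.finrank_prod]; simp)
  letI : ChartedSpace (Eu (D + D)) (ModelProd (Eu D) (Eu D)) :=
    e.toHomeomorph.toOpenPartialHomeomorph.singletonChartedSpace (by simp)
  ChartedSpace.comp (Eu (D + D)) (ModelProd (Eu D) (Eu D)) (P × P)

/-- any two points are in a common top set -/
theorem common_metric [ConnectedSpace M] (hd2 : 2 ≤ d) {f : M → Eu (3 * d + 2)}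
    (H : TopHyp d f) (hf : Continuous f)
    (hs : ∀ (z : Eu (3 * d + 2)) (t : ℝ), z ≠ 0 → ∃ x, ⟪z, f x⟫_ℝ ≠ t) (x y : M) :
    ∃ z : Eu (3 * d + 2), ‖z‖ = 1 ∧ x ∈ top f z ∧ y ∈ top f z := by
  obtain ⟨x₀⟩ := (inferInstance : Nonempty M)
  -- translate
  obtain ⟨c₀, hc₀⟩ := exists_center hf hs
  have htop : ∀ z, top (fun x => f x - c₀) z = top f z := by
    intro z
    ext x
    simp only [top, mem_ofPred_eq, inner_sub_right, sub_le_sub_iff_right]
  obtain ⟨a, ha, ha2⟩ := exists_gen H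
  -- dimension
  have hP : ∀ Z : Set M, IsCompact Z → ∀ n, 2 * d + 2 ≤ n → (AS M).Ex Z n :=
    fun Z hZ n hn => ex_of_locally_embed (m := 2 * d) exists_local_embed hZ hn (by omega)
  have hPP : ∀ Z : Set (M × M), IsClosed Z → Z ≠ univ → (AS (M × M)).Ex Z (4 * d + 1) := by
    intro Z hZ hne
    letI := prodCharted (2 * d) M
    have h1 := ex_top (m := 2 * d + 2 * d) (by omega) hZ hne
    have e1 : 2 * d + 2 * d + 1 = 4 * d + 1 := by omega
    rwa [e1] at h1
  -- the top sets
  have hfib : ∀ z : Eu (3 * d + 2), ‖z‖ = 1 →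
      (AS M).Acy one (top f z) ∨ (AS M).AType one d a (top f z) := by
    intro z hz
    have hz0 : z ≠ 0 := by rintro rfl; simp at hz
    have hZc : IsCompact (top f z) := isCompact_top hf z
    obtain ⟨x₁, -, hx₁⟩ := isCompact_univ.exists_isMaxOn (univ_nonempty (α := M))
        ((continuous_const.inner hf : Continuous fun x => ⟪z, f x⟫_ℝ).continuousOn)
    have hZne : (top f z).Nonempty := ⟨x₁, fun y => hx₁ (mem_univ y)⟩
    have htop1 : top f z = {x | ⟪z, f x₁⟫_ℝ ≤ ⟪z, f x⟫_ℝ} := by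
      ext x
      constructor
      · intro h
        exact h x₁
      · intro h y
        exact (hx₁ (mem_univ y)).trans h
    have hsurj : ∀ n, 1 ≤ n → ∀ c, (AS M).Coc (top f z) n c →
        ∃ c', (AS M).Coc univ n c' ∧ (AS M).Cob (top f z) n (c - c') := by
      intro n hn c hc
      rw [htop1] at hc ⊢
      exact H.surj z hz0 _ n hn c hc
    have hZu : top f z ≠ univ := by
      intro h
      obtain ⟨x, hx⟩ := hs z ⟪z, f x₀⟫_ℝ hz0
      apply hx
      have h1 : x ∈ top f z := h ▸ mem_univ x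
      have h2 : x₀ ∈ top f z := h ▸ mem_univ x₀
      exact le_antisymm (h2 x) (h1 x₀)
    have h1 : ∀ k, (AS M).Coc (top f z) 1 k →
        (∀ w ∈ top f z, k ∈ (AS M).N w 1) ∨ ∀ w ∈ top f z, k - one ∈ (AS M).N w 1 := by
      intro k hk
      obtain ⟨c', hc', hcob⟩ := hsurj 1 le_rfl k hk
      have h0 := cob_one.1 hcob
      rcases coc_one_connected c' hc' with h | h
      · left
        intro w hw
        simpa using add_mem (h0 w hw) (h w (mem_univ w))
      · right
        intro w hw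
        have := add_mem (h0 w hw) (h w (mem_univ w))
        simpa using this
    have hex : ∀ n, 2 ≤ n → n ≠ d + 1 → (AS M).Ex (top f z) n := by
      intro n hn hnd
      rcases Nat.lt_or_ge (2 * d) n with h | h
      · rcases Nat.lt_or_ge (2 * d + 1) n with h' | h'
        · exact hP _ hZc n (by omega)
        · obtain rfl : n = 2 * d + 1 := by omega
          exact ex_top (by omega) hZc.isClosed hZu
      · intro k hk
        obtain ⟨c', hc', hcob⟩ := hsurj n (by omega) k hk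
        have := hcob.add ((H.ex n hn h hnd c' hc').mono (subset_univ _))
        simpa using this
    have hd1 : ∀ k, (AS M).Coc (top f z) (d + 1) k →
        (AS M).Cob (top f z) (d + 1) k ∨ (AS M).Cob (top f z) (d + 1) (k - a) := by
      intro k hk
      obtain ⟨c', hc', hcob⟩ := hsurj (d + 1) (by omega) k hk
      rcases ha2 c' hc' with h | h
      · left
        have := hcob.add (h.mono (subset_univ _))
        simpa using this
      · right
        have := hcob.add (h.mono (subset_univ _))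
        simpa using this
    by_cases hca : (AS M).Cob (top f z) (d + 1) a
    · left
      refine ⟨not_one_mem hZne, h1, fun n hn => ?_⟩
      by_cases hnd : n = d + 1
      · subst hnd
        intro k hk
        rcases hd1 k hk with h | h
        · exact h
        · simpa using h.add hca
      · exact hex n hn hnd
    · right
      exact ⟨not_one_mem hZne, h1, hex, hd1, hca⟩
  -- conclusion
  obtain ⟨z, hz, h1, h2⟩ := core_common (f := fun x => f x - c₀) (hf.sub continuous_const)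
    (d := d) (N := 3 * d + 2) (by omega) rfl hc₀ a ha (fun z hz => by
      rw [htop]; exact hfib z hz) hP hPP (by
      rw [← sp_eq_sphere]
      exact sp_top (by omega) le_rfl) x y
  rw [htop] at h1 h2
  exact ⟨z, hz, h1, h2⟩

end

end Pool.Agent.W595.Plane
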