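import Pool.Agent.W595.Plane.Strict

/-!
# Normal form of a function near a nondegenerate critical point
-/

set_option autoImplicit false

namespace Pool.Agent.W595.Plane

open Set Topology Filter
open scoped Manifold ContDiff InnerProductSpace

theorem diag_form {n : ℕ} {T : Type} [AddCommGroup T] [Module ℝ T]
    (H : T →ₗ[ℝ] T →ₗ[ℝ] ℝ) (b : Module.Basis (Fin n) ℝ T) (ε : Fin n → ℝ)
    (hd : ∀ i j, H (b i) (b j) = if i = j then ε i else 0) (w : T) :
    H w w = ∑ k, ε k * (b.repr w k) ^ 2 := by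
  conv_lhs => rw [← b.sum_repr w]
  simp only [map_sum, LinearMap.sum_apply, map_smul, LinearMap.smul_apply, hd, smul_eq_mul]
  refine Finset.sum_congr rfl fun i _ => ?_
  rw [Finset.sum_eq_single i]
  · simp; ring
  · intro j _ hj
    rw [if_neg hj]
    simp
  · intro h
    exact absurd (Finset.mem_univ i) h

/-- Linear coordinates in which a nondegenerate diagonal form is `- ‖X‖² + ‖Y‖²`. -/
theorem exists_kappa {n : ℕ} (b : Module.Basis (Fin n) ℝ (Eu n)) (ε : Fin n → ℝ)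
    (hε : ∀ i, ε i ≠ 0) {i : ℕ} (hi : (Finset.univ.filter fun k => ε k < 0).card = i) :
    ∃ κ : Eu n ≃L[ℝ] Eu i × Eu (n - i), ∀ w,
      (1 / 2 : ℝ) * ∑ k, ε k * (b.repr w k) ^ 2 = - ‖(κ w).1‖ ^ 2 + ‖(κ w).2‖ ^ 2 := by
  classical
  have hc1 : Fintype.card {k // ε k < 0} = i := by rw [Fintype.card_subtype, hi]
  have hc2 : Fintype.card {k // ¬ ε k < 0} = n - i := by
    rw [Fintype.card_subtype_compl, hc1, Fintype.card_fin]
  have hin : i ≤ n := by
    rw [← hi]
    exact (Finset.card_le_univ _).trans (by simp)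
  let eN := Fintype.equivFinOfCardEq hc1
  let eP := Fintype.equivFinOfCardEq hc2
  let L : Eu n →ₗ[ℝ] Eu i × Eu (n - i) :=
    { toFun := fun w => (WithLp.toLp 2 fun l => Real.sqrt (|ε (eN.symm l)| / 2) *
          b.repr w (eN.symm l), WithLp.toLp 2 fun l => Real.sqrt (|ε (eP.symm l)| / 2) *
          b.repr w (eP.symm l))
      map_add' := fun v w => by
        refine Prod.ext ?_ ?_
        · ext l
          simp [mul_add]
        · ext l
          simp [mul_add]
      map_smul' := fun c w => by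
        refine Prod.ext ?_ ?_
        · ext l
          simp; ring
        · ext l
          simp; ring }
  have hL1 : ∀ w, ‖(L w).1‖ ^ 2 = ∑ k : {k // ε k < 0}, |ε k| / 2 * (b.repr w k) ^ 2 := by
    intro w
    rw [EuclideanSpace.norm_sq_eq]
    rw [← Equiv.sum_comp eN]
    refine Finset.sum_congr rfl fun k _ => ?_
    change ‖Real.sqrt (|ε (eN.symm (eN k))| / 2) * b.repr w (eN.symm (eN k))‖ ^ 2 = _
    rw [Equiv.symm_apply_apply, Real.norm_eq_abs, sq_abs, mul_pow, Real.sq_sqrt (by positivity)]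
  have hL2 : ∀ w, ‖(L w).2‖ ^ 2 = ∑ k : {k // ¬ ε k < 0}, |ε k| / 2 * (b.repr w k) ^ 2 := by
    intro w
    rw [EuclideanSpace.norm_sq_eq]
    rw [← Equiv.sum_comp eP]
    refine Finset.sum_congr rfl fun k _ => ?_
    change ‖Real.sqrt (|ε (eP.symm (eP k))| / 2) * b.repr w (eP.symm (eP k))‖ ^ 2 = _
    rw [Equiv.symm_apply_apply, Real.norm_eq_abs, sq_abs, mul_pow, Real.sq_sqrt (by positivity)]
  have hLinj : Function.Injective L := by
    rw [injective_iff_map_eq_zero]
    intro w hw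
    have h1 : ∀ k, b.repr w k = 0 := by
      intro k
      by_cases hk : ε k < 0
      · have h2 := hL1 w
        rw [hw] at h2
        simp only [Prod.fst_zero, norm_zero] at h2
        rw [zero_pow two_ne_zero] at h2
        have h3 := (Finset.sum_eq_zero_iff_of_nonneg (fun j _ => by positivity)).1 h2.symm
          ⟨k, hk⟩ (Finset.mem_univ _)
        have h4 : 0 < |ε k| / 2 := by
          have := abs_pos.2 (hε k)
          positivity
        have h5 : (b.repr w k) ^ 2 = 0 := (mul_eq_zero.1 h3).resolve_left h4.ne'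
        exact pow_eq_zero_iff two_ne_zero |>.1 h5
      · have h2 := hL2 w
        rw [hw] at h2
        simp only [Prod.snd_zero, norm_zero] at h2
        rw [zero_pow two_ne_zero] at h2
        have h3 := (Finset.sum_eq_zero_iff_of_nonneg (fun j _ => by positivity)).1 h2.symm
          ⟨k, hk⟩ (Finset.mem_univ _)
        have h4 : 0 < |ε k| / 2 := by
          have := abs_pos.2 (hε k)
          positivity
        have h5 : (b.repr w k) ^ 2 = 0 := (mul_eq_zero.1 h3).resolve_left h4.ne'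
        exact pow_eq_zero_iff two_ne_zero |>.1 h5
    rw [← b.sum_repr w]
    simp [h1]
  have hdim : Module.finrank ℝ (Eu n) = Module.finrank ℝ (Eu i × Eu (n - i)) := by
    rw [Module.finrank_prod]
    simp only [finrank_euclideanSpace, Fintype.card_fin]
    omega
  refine ⟨(LinearEquiv.ofInjectiveOfFinrankEq L hLinj hdim).toContinuousLinearEquiv, fun w => ?_⟩
  have e1 : (LinearEquiv.ofInjectiveOfFinrankEq L hLinj hdim).toContinuousLinearEquiv w = L w := rfl
  rw [e1, hL1, hL2]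
  have h6 : ∑ k, ε k * (b.repr w k) ^ 2 = ∑ k : {k // ε k < 0}, ε k * (b.repr w k) ^ 2 +
      ∑ k : {k // ¬ ε k < 0}, ε k * (b.repr w k) ^ 2 :=
    (Fintype.sum_subtype_add_sum_subtype (fun k => ε k < 0) _).symm
  rw [h6, mul_add, Finset.mul_sum, Finset.mul_sum, ← Finset.sum_neg_distrib]
  congr 1
  · refine Finset.sum_congr rfl fun k _ => ?_
    rw [abs_of_neg k.2]
    ring
  · refine Finset.sum_congr rfl fun k _ => ?_
    rw [abs_of_nonneg (not_lt.1 k.2)]
    ring

section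

variable {n : ℕ} {M : Type} [TopologicalSpace M] [ChartedSpace (Eu n) M]
  {E : Type} [NormedAddCommGroup E] [InnerProductSpace ℝ E] [FiniteDimensional ℝ E] {f : M → E}

theorem normal_form (hf : ContMDiff (𝓡 n) 𝓘(ℝ, E) ∞ f) (x : M) (φ : (ℝ × E) →ₗ[ℝ] ℝ)
    (h0 : φ (hat f x) = 0) (hA : ∀ v, φ (tA n f x v) = 0) (b : Module.Basis (Fin n) ℝ (Eu n))
    (ε : Fin n → ℝ) (hε : ∀ i, ε i ≠ 0)
    (hd : ∀ i j, φ (tS n f x (b i) (b j)) = if i = j then ε i else 0) {i : ℕ}
    (hi : (Finset.univ.filter fun k => ε k < 0).card = i) :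
    ∃ (e : OpenPartialHomeomorph M (Eu i × Eu (n - i))) (ρ : ℝ), 0 < ρ ∧
      Metric.closedBall 0 ρ ⊆ e.target ∧ ∀ v ∈ Metric.closedBall (0 : Eu i × Eu (n - i)) ρ,
        |φ (hat f (e.symm v)) + ‖v.1‖ ^ 2 - ‖v.2‖ ^ 2| ≤ ‖v‖ ^ 2 / 4 := by
  obtain ⟨κ, hκ⟩ := exists_kappa b ε hε hi
  -- a bound for the inverse of `κ`
  set C : ℝ := ‖(κ.symm : (Eu i × Eu (n - i)) →L[ℝ] Eu n)‖ + 1 with hC
  have hC0 : 0 < C := by positivity
  have hCb : ∀ v, ‖κ.symm v‖ ≤ C * ‖v‖ := by
    intro v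
    have h1 := (κ.symm : (Eu i × Eu (n - i)) →L[ℝ] Eu n).le_opNorm v
    have h2 := norm_nonneg v
    calc ‖κ.symm v‖ ≤ _ := h1
      _ ≤ C * ‖v‖ := by rw [hC]; nlinarith
  have h1 := phi_taylor hf x φ h0 hA (η := 1 / (4 * C ^ 2)) (by positivity)
  have h2 : Tendsto (fun v : Eu i × Eu (n - i) => κ.symm v) (𝓝 0) (𝓝 0) := by
    have := κ.symm.continuous.tendsto 0
    rwa [map_zero] at this
  set e : OpenPartialHomeomorph M (Eu i × Eu (n - i)) :=
    (ch n x).trans κ.toHomeomorph.toOpenPartialHomeomorph with he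
  have hes : ∀ v, e.symm v = (ch n x).symm (κ.symm v) := fun v => rfl
  have h3 : (0 : Eu i × Eu (n - i)) ∈ e.target := by
    rw [he, OpenPartialHomeomorph.trans_target]
    refine ⟨mem_univ _, ?_⟩
    change κ.symm 0 ∈ (ch n x).target
    rw [map_zero]
    exact zero_mem_ch_target x
  obtain ⟨r, hr, hball⟩ := Metric.eventually_nhds_iff_ball.1
    ((h2.eventually h1).and (e.open_target.mem_nhds h3))
  have hsub : ∀ v ∈ Metric.closedBall (0 : Eu i × Eu (n - i)) (r / 2), v ∈ Metric.ball 0 r := by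
    intro v hv
    rw [mem_closedBall_zero_iff] at hv
    rw [mem_ball_zero_iff]
    linarith
  refine ⟨e, r / 2, by positivity, fun v hv => (hball v (hsub v hv)).2, fun v hv => ?_⟩
  have h4 := (hball v (hsub v hv)).1
  have h5 : (1 / 2 : ℝ) * φ (tS n f x (κ.symm v) (κ.symm v)) = - ‖v.1‖ ^ 2 + ‖v.2‖ ^ 2 := by
    have h6 := diag_form (phiS n f x φ) b ε hd (κ.symm v)
    rw [phiS_apply] at h6
    rw [h6, hκ, ContinuousLinearEquiv.apply_symm_apply]
  rw [h5] at h4
  rw [hes]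
  have e1 : φ (hat f ((ch n x).symm (κ.symm v))) + ‖v.1‖ ^ 2 - ‖v.2‖ ^ 2 =
      φ (hat f ((ch n x).symm (κ.symm v))) - (- ‖v.1‖ ^ 2 + ‖v.2‖ ^ 2) := by ring
  rw [e1]
  refine h4.trans ?_
  calc 1 / (4 * C ^ 2) * ‖κ.symm v‖ ^ 2 ≤ 1 / (4 * C ^ 2) * (C * ‖v‖) ^ 2 := by
        gcongr; exact hCb v
    _ = ‖v‖ ^ 2 / 4 := by field_simp

end

end Pool.Agent.W595.Plane
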