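import Pool.Agent.W595.Plane.LSMake

/-!
# Quadrics `Q_p`; every point has a definite supporting functional
-/

set_option autoImplicit false

namespace Pool.Agent.W595.Plane

open scoped InnerProductSpace
open Set

variable {d : ℕ} {M V T : Type} [TopologicalSpace M] [AddCommGroup V] [Module ℝ V]
  [FiniteDimensional ℝ V] [AddCommGroup T] [Module ℝ T] [FiniteDimensional ℝ T]
  {D : TD d M V T}

namespace LS

/-- the quadric at `p` -/
noncomputable def Q {p : M} (L : LS D p) : V →ₗ[ℝ] V →ₗ[ℝ] ℝ := LinearMap.mk₂ ℝ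
  (fun X Y => (L.π X).1 * (L.π Y).1 - ⟪(L.π X).2, (L.π Y).2⟫_ℝ)
  (fun X X' Y => by
    rw [map_add, Prod.fst_add, Prod.snd_add, inner_add_left]; ring)
  (fun c X Y => by
    rw [map_smul, Prod.smul_fst, Prod.smul_snd, real_inner_smul_left, smul_eq_mul,
      smul_eq_mul]; ring)
  (fun X Y Y' => by
    rw [map_add, Prod.fst_add, Prod.snd_add, inner_add_right]; ring)
  (fun c X Y => by
    rw [map_smul, Prod.smul_fst, Prod.smul_snd, real_inner_smul_right, smul_eq_mul,
      smul_eq_mul]; ring)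

variable {p : M} (L : LS D p)

theorem Q_apply (X Y : V) : L.Q X Y = (L.π X).1 * (L.π Y).1 - ⟪(L.π X).2, (L.π Y).2⟫_ℝ := rfl

theorem Q_symm (X Y : V) : L.Q X Y = L.Q Y X := by
  rw [Q_apply, Q_apply, real_inner_comm]; ring

theorem Q_hat (y : M) : L.Q (D.hat y) (D.hat y) = 0 := by
  rw [Q_apply, real_inner_self_eq_norm_sq, L.null y]; ring

theorem Q_tang {X : V} (hX : X ∈ D.That p) (Y : V) : L.Q X Y = 0 := by
  rw [Q_apply, (L.ker X).2 hX]; simp

theorem Q_tang' {X : V} (hX : X ∈ D.That p) (Y : V) : L.Q Y X = 0 := by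
  rw [Q_symm, L.Q_tang hX]

theorem nonneg (y : M) : 0 ≤ (L.π (D.hat y)).1 := L.null y ▸ norm_nonneg _

theorem Q_nonneg (x y : M) : 0 ≤ L.Q (D.hat x) (D.hat y) := by
  rw [Q_apply]
  have h1 := abs_real_inner_le_norm (L.π (D.hat x)).2 (L.π (D.hat y)).2
  rw [L.null, L.null] at h1
  have := (abs_le.1 h1).2
  linarith

/-- a vector orthogonal to a null vector -/
theorem orth_null {x : M} (hx : x ≠ p) {w : V} (h : L.Q (D.hat x) w = 0) :
    L.Q w w ≤ 0 ∧ (L.Q w w = 0 →
      L.π w = ((L.π w).1 / (L.π (D.hat x)).1) • L.π (D.hat x)) := by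
  have hn := L.pos x hx
  have hnull := L.null x
  set n := L.π (D.hat x) with hndef
  set u := L.π w with hu
  have h1 : ⟪n.2, u.2⟫_ℝ = n.1 * u.1 := by
    have : n.1 * u.1 - ⟪n.2, u.2⟫_ℝ = 0 := h
    linarith
  have h2 : L.Q w w = u.1 ^ 2 - ‖u.2‖ ^ 2 := by
    have : L.Q w w = u.1 * u.1 - ⟪u.2, u.2⟫_ℝ := rfl
    rw [this, real_inner_self_eq_norm_sq]; ring
  have h3 : ‖n.1 • u.2 - u.1 • n.2‖ ^ 2 = - n.1 ^ 2 * L.Q w w := by
    rw [norm_sub_sq_real, norm_smul, norm_smul, real_inner_smul_left, real_inner_smul_right,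
      real_inner_comm, h1, mul_pow, mul_pow, Real.norm_eq_abs, Real.norm_eq_abs, sq_abs, sq_abs,
      hnull, h2]
    ring
  constructor
  · have h4 : 0 ≤ ‖n.1 • u.2 - u.1 • n.2‖ ^ 2 := by positivity
    rw [h3] at h4
    have h5 : 0 < n.1 ^ 2 := by positivity
    nlinarith
  · intro h0
    rw [h0, mul_zero] at h3
    have h4 : n.1 • u.2 - u.1 • n.2 = 0 := by
      have := pow_eq_zero_iff two_ne_zero |>.1 h3
      exact norm_eq_zero.1 this
    refine Prod.ext ?_ ?_
    · rw [Prod.smul_fst, smul_eq_mul]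
      field_simp
    · rw [Prod.smul_snd]
      rw [sub_eq_zero] at h4
      rw [div_eq_inv_mul, mul_smul, ← h4, smul_smul, inv_mul_cancel₀ hn.ne', one_smul]

/-- a null vector orthogonal to `x̂` is a multiple of `x̂` modulo the tangent space at `p` -/
theorem exists_mem {x : M} (hx : x ≠ p) {w : V} (h : L.Q (D.hat x) w = 0) (h' : L.Q w w = 0) :
    ∃ c : ℝ, w - c • D.hat x ∈ D.That p := by
  refine ⟨(L.π w).1 / (L.π (D.hat x)).1, ?_⟩
  rw [← L.ker, map_sub, map_smul, ← (L.orth_null hx h).2 h', sub_self]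

theorem phi_ne {x : M} (hx : x ≠ p) : L.Q (D.hat x) ≠ 0 := by
  intro h
  have h1 := L.inj (L.π (D.hat x)).1 (-(L.π (D.hat x)).2) (fun X => by
    have : L.Q (D.hat x) X = 0 := by rw [h]; rfl
    rw [Q_apply] at this
    rw [inner_neg_left]
    linarith)
  exact (L.pos x hx).ne' h1.1

/-- first order condition at `x` -/
theorem Q_A (x : M) (v : T) : L.Q (D.hat x) (D.A x v) = 0 :=
  (D.F2 L.Q L.Q_symm L.Q_hat x v).1

/-- second order condition at `x` -/
theorem Q_S (x : M) (v : T) : L.Q (D.hat x) (D.S x v v) = - L.Q (D.A x v) (D.A x v) := by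
  have := (D.F2 L.Q L.Q_symm L.Q_hat x v).2
  linarith

/-- uniqueness of the common supporting functional -/
theorem unique {x : M} (hx : x ≠ p) (φ : V →ₗ[ℝ] ℝ) (h : ∀ y, 0 ≤ φ (D.hat y))
    (hp : φ (D.hat p) = 0) (hφ : φ (D.hat x) = 0) :
    ∃ c : ℝ, 0 ≤ c ∧ φ = c • L.Q (D.hat x) := by
  obtain ⟨h1, h2⟩ := D.F1 p φ h hp
  obtain ⟨t, s, hts, hX⟩ := L.rep φ hp h1 h2
  have hn := L.pos x hx
  rw [hX] at hφ
  have h3 := null_pair (L.null x) hts hφ
  have ht : 0 ≤ t := (norm_nonneg s).trans hts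
  refine ⟨t / (L.π (D.hat x)).1, by positivity, LinearMap.ext fun X => ?_⟩
  rw [hX, LinearMap.smul_apply, Q_apply, smul_eq_mul]
  have h4 : s = -((t / (L.π (D.hat x)).1) • (L.π (D.hat x)).2) := by
    have h5 : (L.π (D.hat x)).1⁻¹ • ((L.π (D.hat x)).1 • s) =
        (L.π (D.hat x)).1⁻¹ • -(t • (L.π (D.hat x)).2) := by rw [h3]
    rw [smul_smul, inv_mul_cancel₀ hn.ne', one_smul, smul_neg, smul_smul] at h5
    rw [h5, div_eq_inv_mul]
  rw [h4, inner_neg_left, real_inner_smul_left]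
  field_simp
  ring

end LS

/-- functionals supporting `M` at `p` and `p'` kill both tangent spaces -/
theorem kill {p : M} {φ : V →ₗ[ℝ] ℝ} (h : ∀ y, 0 ≤ φ (D.hat y)) (hp : φ (D.hat p) = 0)
    {X : V} (hX : X ∈ D.That p) : φ X = 0 := by
  obtain ⟨h1, -⟩ := D.F1 p φ h hp
  obtain ⟨c, v, rfl⟩ := D.mem_That.1 hX
  rw [map_add, map_smul, hp, h1]; simp

/-- three non-collinear points -/
theorem triple {p p' p'' : M} (L : LS D p) (L' : LS D p') (L'' : LS D p'') (h1 : p' ≠ p)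
    (h2 : p'' ≠ p) (h : L.Q (D.hat p') (D.hat p'') ≠ 0) {u : V} (hu : u ∈ D.That p)
    (hu' : u ∈ D.That p') (hu'' : u ∈ D.That p'') : u = 0 := by
  obtain ⟨c, v, rfl⟩ := D.mem_That.1 hu
  have key : ∀ {q : M} (K : LS D q), c • D.hat p + D.A p v ∈ D.That q →
      K.Q (D.hat p) (D.S p v v) = 0 := by
    intro q K hK
    rw [K.Q_S]
    have h3 : K.π (D.A p v) = -(c • K.π (D.hat p)) := by
      have := (K.ker _).2 hK
      rw [map_add, map_smul] at this
      exact eq_neg_of_add_eq_zero_right this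
    have h4 : K.Q (D.A p v) (D.A p v) = c ^ 2 * K.Q (D.hat p) (D.hat p) := by
      rw [LS.Q_apply, LS.Q_apply, h3]
      simp only [Prod.fst_neg, Prod.snd_neg, Prod.smul_fst, Prod.smul_snd, smul_eq_mul,
        inner_neg_left, inner_neg_right, real_inner_smul_left, real_inner_smul_right]
      ring
    rw [h4, K.Q_hat]; ring
  have hpp : LS.Q L (D.hat p') (D.hat p'') ≠ 0 := h
  by_cases hv : v = 0
  · subst hv
    rw [map_zero, add_zero] at hu' ⊢
    have h3 := (L'.ker _).2 hu'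
    rw [map_smul] at h3
    have h4 := congrArg Prod.fst h3
    rw [Prod.smul_fst, smul_eq_mul, Prod.fst_zero] at h4
    have h5 := L'.pos p h1.symm
    have h6 : c = 0 := (mul_eq_zero.1 h4).resolve_right h5.ne'
    rw [h6, zero_smul]
  · exfalso
    -- both functionals are determined by the null vector `π (S v v)`
    have hn := L.S1 v hv
    have hn2 := L.S2 v
    set n := L.π (D.S p v v) with hndef
    have aux : ∀ {q : M} (K : LS D q), c • D.hat p + D.A p v ∈ D.That q →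
        ∃ t : ℝ, ∀ X, n.1 * K.Q (D.hat p) X = t * (n.1 * (L.π X).1 - ⟪n.2, (L.π X).2⟫_ℝ) := by
      intro q K hK
      obtain ⟨h3, h4⟩ := D.F1 p (K.Q (D.hat p)) (fun y => K.Q_nonneg p y) (K.Q_hat p)
      obtain ⟨t, s, hts, hX⟩ := L.rep _ (K.Q_hat p) h3 h4
      have h5 := key K hK
      rw [hX] at h5
      have h6 := null_pair hn2 hts h5
      refine ⟨t, fun X => ?_⟩
      rw [hX, mul_add, ← real_inner_smul_left, h6, inner_neg_left, real_inner_smul_left]
      ring
    obtain ⟨t', ht'⟩ := aux L' hu'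
    obtain ⟨t'', ht''⟩ := aux L'' hu''
    -- `t'' ≠ 0`
    have ht0 : t'' ≠ 0 := by
      rintro rfl
      apply L''.phi_ne h2.symm
      refine LinearMap.ext fun X => ?_
      have := ht'' X
      rw [zero_mul] at this
      exact (mul_eq_zero.1 this).resolve_left hn.ne'
    -- evaluate at `p''`
    have h3 := ht'' (D.hat p'')
    rw [L''.Q_tang' (D.hat_mem p''), mul_zero] at h3
    have h4 : n.1 * (L.π (D.hat p'')).1 - ⟪n.2, (L.π (D.hat p'')).2⟫_ℝ = 0 :=
      (mul_eq_zero.1 h3.symm).resolve_left ht0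
    have h5 := ht' (D.hat p'')
    rw [h4, mul_zero] at h5
    have h6 : L'.Q (D.hat p) (D.hat p'') = 0 := (mul_eq_zero.1 h5).resolve_left hn.ne'
    obtain ⟨c', hc', hc2⟩ := L.unique h1 (L'.Q (D.hat p)) (fun y => L'.Q_nonneg p y)
      (L'.Q_hat p) (L'.Q_tang' (D.hat_mem p') _)
    have h7 : c' ≠ 0 := by
      rintro rfl
      rw [zero_smul] at hc2
      exact L'.phi_ne h1.symm hc2
    rw [hc2, LinearMap.smul_apply, smul_eq_mul] at h6
    exact hpp ((mul_eq_zero.1 h6).resolve_left h7)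

/-- every point has a definite supporting functional -/
theorem plus_all (D : TD d M V T) (x : M) : D.Plus x := by
  by_contra hx
  have hne : ∀ p, D.Plus p → p ≠ x := by
    rintro p hp rfl
    exact hx hp
  have hd := D.d_pos
  -- first point
  obtain ⟨p, hp⟩ : ∃ p, D.Plus p := by
    by_contra hcon
    push Not at hcon
    have h1 : ∀ φ : V →ₗ[ℝ] ℝ, φ = 0 := fun φ => D.plus φ fun y hy => absurd hy (hcon y)
    have h2 : Module.finrank ℝ (V →ₗ[ℝ] ℝ) = 3 * d + 3 := by
      rw [← D.dimV]; exact Subspace.dual_finrank_eq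
    have : Subsingleton (V →ₗ[ℝ] ℝ) := ⟨fun a b => by rw [h1 a, h1 b]⟩
    rw [Module.finrank_zero_of_subsingleton] at h2
    omega
  obtain ⟨L⟩ := exists_LS D hp
  have hxp : x ≠ p := (hne p hp).symm
  -- second point
  obtain ⟨p', hp', hpp'⟩ : ∃ p', D.Plus p' ∧ L.Q (D.hat x) (D.hat p') ≠ 0 := by
    by_contra hcon
    push Not at hcon
    exact L.phi_ne hxp (D.plus _ fun y hy => hcon y hy)
  obtain ⟨L'⟩ := exists_LS D hp'
  have hp'p : p' ≠ p := by
    rintro rfl
    exact hpp' (L.Q_tang' (D.hat_mem _) _)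
  -- third point
  obtain ⟨p'', hp'', h3, h4⟩ : ∃ p'', D.Plus p'' ∧ L.Q (D.hat x) (D.hat p'') ≠ 0 ∧
      L.Q (D.hat p') (D.hat p'') ≠ 0 := by
    by_contra hcon
    push Not at hcon
    -- a functional vanishing on the tangent space at `p`, on `x` and on `p'`
    let G : (ℝ × Eu (d + 1)) →ₗ[ℝ] (ℝ × ℝ) :=
      { toFun := fun q => (q.1 * (L.π (D.hat x)).1 + ⟪q.2, (L.π (D.hat x)).2⟫_ℝ,
          q.1 * (L.π (D.hat p')).1 + ⟪q.2, (L.π (D.hat p')).2⟫_ℝ)
        map_add' := fun q r => by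
          refine Prod.ext ?_ ?_
          · simp only [Prod.fst_add, Prod.snd_add, inner_add_left]; ring
          · simp only [Prod.fst_add, Prod.snd_add, inner_add_left]; ring
        map_smul' := fun c q => by
          refine Prod.ext ?_ ?_
          · simp only [Prod.smul_fst, Prod.smul_snd, real_inner_smul_left, smul_eq_mul,
              RingHom.id_apply]; ring
          · simp only [Prod.smul_fst, Prod.smul_snd, real_inner_smul_left, smul_eq_mul,
              RingHom.id_apply]; ring }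
    have hker : LinearMap.ker G ≠ ⊥ := by
      apply LinearMap.ker_ne_bot_of_finrank_lt
      rw [Module.finrank_prod, Module.finrank_prod]
      simp
      omega
    obtain ⟨q, hq, hq0⟩ := (Submodule.ne_bot_iff _).1 hker
    have hq1 : q.1 * (L.π (D.hat x)).1 + ⟪q.2, (L.π (D.hat x)).2⟫_ℝ = 0 :=
      congrArg Prod.fst (LinearMap.mem_ker.1 hq)
    have hq2 : q.1 * (L.π (D.hat p')).1 + ⟪q.2, (L.π (D.hat p')).2⟫_ℝ = 0 :=
      congrArg Prod.snd (LinearMap.mem_ker.1 hq)
    let χ : V →ₗ[ℝ] ℝ :=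
      { toFun := fun X => q.1 * (L.π X).1 + ⟪q.2, (L.π X).2⟫_ℝ
        map_add' := fun X Y => by
          simp only [map_add, Prod.fst_add, Prod.snd_add, inner_add_right]; ring
        map_smul' := fun c X => by
          simp only [map_smul, Prod.smul_fst, Prod.smul_snd, real_inner_smul_right, smul_eq_mul,
            RingHom.id_apply]; ring }
    have hχ : ∀ X, χ X = q.1 * (L.π X).1 + ⟪q.2, (L.π X).2⟫_ℝ := fun X => rfl
    have hχz : ∀ {z : M}, z ≠ p → χ (D.hat z) = 0 → ∀ y, L.Q (D.hat z) (D.hat y) = 0 →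
        χ (D.hat y) = 0 := by
      intro z hz hχz y hy
      have h5 := (L.orth_null hz hy).2 (L.Q_hat y)
      rw [hχ, h5, Prod.smul_fst, Prod.smul_snd, real_inner_smul_right, smul_eq_mul]
      rw [hχ] at hχz
      linear_combination ((L.π (D.hat y)).1 / (L.π (D.hat z)).1) * hχz
    have h5 : χ = 0 := by
      refine D.plus χ fun y hy => ?_
      by_cases h6 : L.Q (D.hat x) (D.hat y) = 0
      · exact hχz hxp hq1 y h6
      · exact hχz hp'p hq2 y (hcon y hy h6)
    have h6 := L.inj q.1 q.2 (fun X => by rw [← hχ, h5]; rfl)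
    exact hq0 (Prod.ext h6.1 h6.2)
  obtain ⟨L''⟩ := exists_LS D hp''
  have hp''p : p'' ≠ p := by
    rintro rfl
    exact h4 (L.Q_tang' (D.hat_mem _) _)
  -- the sum of the three functionals
  apply hx
  have hΦ : ∀ y, 0 ≤ (L.Q (D.hat x) + L'.Q (D.hat x) + L''.Q (D.hat x)) (D.hat y) := by
    intro y
    simp only [LinearMap.add_apply]
    have h5 := L.Q_nonneg x y
    have h6 := L'.Q_nonneg x y
    have h7 := L''.Q_nonneg x y
    positivity
  have hΦx : (L.Q (D.hat x) + L'.Q (D.hat x) + L''.Q (D.hat x)) (D.hat x) = 0 := by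
    simp only [LinearMap.add_apply, L.Q_hat, L'.Q_hat, L''.Q_hat]; ring
  refine ⟨_, hΦx, (D.F1 x _ hΦ hΦx).1, fun v hv => ?_⟩
  have e1 : ∀ {q : M} (K : LS D q), x ≠ q → 0 ≤ K.Q (D.hat x) (D.S x v v) ∧
      (K.Q (D.hat x) (D.S x v v) = 0 → ∃ c : ℝ, D.A x v - c • D.hat x ∈ D.That q) := by
    intro q K hxq
    have h5 := K.orth_null hxq (K.Q_A x v)
    rw [K.Q_S]
    refine ⟨by linarith [h5.1], fun h6 => ?_⟩
    exact K.exists_mem hxq (K.Q_A x v) (by linarith)
  obtain ⟨a1, b1⟩ := e1 L hxp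
  obtain ⟨a2, b2⟩ := e1 L' (hne p' hp').symm
  obtain ⟨a3, b3⟩ := e1 L'' (hne p'' hp'').symm
  simp only [LinearMap.add_apply]
  by_contra hcon
  push Not at hcon
  obtain ⟨c, hc⟩ := b1 (by linarith)
  obtain ⟨c', hc'⟩ := b2 (by linarith)
  obtain ⟨c'', hc''⟩ := b3 (by linarith)
  -- the constants agree
  have e2 : ∀ {q : M} (K : LS D q) (r : ℝ), D.A x v - r • D.hat x ∈ D.That q →
      L.Q (D.hat x) (D.hat q) ≠ 0 → r = c := by
    intro q K r hr hq
    have h5 : ∀ y, 0 ≤ L.Q (D.hat q) (D.hat y) := fun y => L.Q_nonneg q y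
    have h6 := kill h5 (L.Q_hat q) hr
    have h7 := L.Q_tang' hc (D.hat q)
    have h8 : L.Q (D.hat q) ((r - c) • D.hat x) = 0 := by
      have e : (r - c) • D.hat x = (D.A x v - c • D.hat x) - (D.A x v - r • D.hat x) := by
        rw [sub_smul]; abel
      rw [e, map_sub, h6, h7, sub_zero]
    rw [map_smul, smul_eq_mul, L.Q_symm] at h8
    have h9 := (mul_eq_zero.1 h8).resolve_right hq
    linarith
  rw [e2 L' c' hc' hpp'] at hc'
  rw [e2 L'' c'' hc'' h3] at hc''
  have h5 := triple L L' L'' hp'p hp''p h4 hc hc' hc''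
  have h6 := D.imm x (-c) v (by rw [neg_smul, neg_add_eq_sub]; exact h5)
  exact hv h6.2

end Pool.Agent.W595.Plane
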