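import Pool.Agent.W595.Plane.Local

/-!
# Strict local minima, farthest points
-/

set_option autoImplicit false

namespace Pool.Agent.W595.Plane

open Set Topology Filter
open scoped Manifold ContDiff InnerProductSpace

section

variable {n : ℕ} {M : Type} [TopologicalSpace M] [ChartedSpace (Eu n) M]
  {E : Type} [NormedAddCommGroup E] [InnerProductSpace ℝ E] [FiniteDimensional ℝ E] {f : M → E}

omit [TopologicalSpace M] in
/-- affine functionals -/
theorem exists_cz (φ : (ℝ × E) →ₗ[ℝ] ℝ) :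
    ∃ (c : ℝ) (z : E), (∀ (f : M → E) (y : M), φ (hat f y) = c + ⟪z, f y⟫_ℝ) ∧
      ∀ (r : ℝ) (w : E), φ (r, w) = r * c + ⟪z, w⟫_ℝ := by
  set ψ : E →L[ℝ] ℝ := LinearMap.toContinuousLinearMap (φ ∘ₗ LinearMap.inr ℝ ℝ E) with hψ
  have h1 : ∀ w, ⟪(InnerProductSpace.toDual ℝ E).symm ψ, w⟫_ℝ = φ (0, w) := by
    intro w
    rw [InnerProductSpace.toDual_symm_apply]
    rfl
  have h2 : ∀ (r : ℝ) (w : E), φ (r, w) = r * φ (1, 0) +
      ⟪(InnerProductSpace.toDual ℝ E).symm ψ, w⟫_ℝ := by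
    intro r w
    rw [h1]
    have e : (r, w) = r • ((1 : ℝ), (0 : E)) + ((0 : ℝ), w) := by simp
    rw [e, map_add, map_smul, smul_eq_mul]
  refine ⟨φ (1, 0), (InnerProductSpace.toDual ℝ E).symm ψ, fun f y => ?_, h2⟩
  have := h2 1 (f y)
  rw [one_mul] at this
  exact this

/-- positive definite forms are coercive -/
theorem coercive (H : Eu n →ₗ[ℝ] Eu n →ₗ[ℝ] ℝ) (hH : ∀ v, v ≠ 0 → 0 < H v v) :
    ∃ c > 0, ∀ v, c * ‖v‖ ^ 2 ≤ H v v := by
  have hcont : Continuous fun v : Eu n => H v v := by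
    have h2 : (fun p : Eu n => H p p) = fun p =>
        (LinearMap.toContinuousLinearMap ((LinearMap.toContinuousLinearMap
          (𝕜 := ℝ) (E := Eu n) (F' := ℝ)).toLinearMap ∘ₗ H)) p p := rfl
    rw [h2]
    fun_prop
  rcases (Metric.sphere (0 : Eu n) 1).eq_empty_or_nonempty with he | hne
  · refine ⟨1, one_pos, fun v => ?_⟩
    by_cases hv : v = 0
    · subst hv; simp
    · exfalso
      have : ‖v‖⁻¹ • v ∈ Metric.sphere (0 : Eu n) 1 := by
        rw [mem_sphere_zero_iff_norm]; exact norm_smul_inv_norm hv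
      rw [he] at this
      exact this
  · obtain ⟨v₀, hv₀, hmin⟩ := (isCompact_sphere (0 : Eu n) 1).exists_isMinOn hne hcont.continuousOn
    have hv₀1 : ‖v₀‖ = 1 := by simpa using hv₀
    have hv₀0 : v₀ ≠ 0 := by
      rintro rfl
      simp at hv₀1
    refine ⟨H v₀ v₀, hH v₀ hv₀0, fun v => ?_⟩
    by_cases hv : v = 0
    · subst hv; simp
    · have hvn : ‖v‖ ≠ 0 := norm_ne_zero_iff.2 hv
      have h1 : ‖v‖⁻¹ • v ∈ Metric.sphere (0 : Eu n) 1 := by
        rw [mem_sphere_zero_iff_norm]; exact norm_smul_inv_norm hv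
      have h2 : H v₀ v₀ ≤ H (‖v‖⁻¹ • v) (‖v‖⁻¹ • v) := hmin h1
      rw [map_smul, map_smul, LinearMap.smul_apply, smul_eq_mul, smul_eq_mul] at h2
      have h3 : 0 < ‖v‖ ^ 2 := by positivity
      calc H v₀ v₀ * ‖v‖ ^ 2 ≤ (‖v‖⁻¹ * (‖v‖⁻¹ * H v v)) * ‖v‖ ^ 2 := by gcongr
        _ = H v v := by field_simp

/-- a bound for a functional -/
theorem lin_bound (φ : (ℝ × E) →ₗ[ℝ] ℝ) : ∃ C > 0, ∀ X, |φ X| ≤ C * ‖X‖ := by
  refine ⟨‖LinearMap.toContinuousLinearMap φ‖ + 1, by positivity, fun X => ?_⟩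
  have h1 := (LinearMap.toContinuousLinearMap φ).le_opNorm X
  have h2 : (LinearMap.toContinuousLinearMap φ) X = φ X := rfl
  rw [h2, Real.norm_eq_abs] at h1
  have := norm_nonneg X
  nlinarith

/-- functionals near a critical point -/
theorem phi_taylor (hf : ContMDiff (𝓡 n) 𝓘(ℝ, E) ∞ f) (x : M) (φ : (ℝ × E) →ₗ[ℝ] ℝ)
    (h0 : φ (hat f x) = 0) (hA : ∀ v, φ (tA n f x v) = 0) {η : ℝ} (hη : 0 < η) :
    ∀ᶠ w in 𝓝 (0 : Eu n), |φ (hat f ((ch n x).symm w)) - (1 / 2 : ℝ) * φ (tS n f x w w)| ≤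
      η * ‖w‖ ^ 2 := by
  obtain ⟨C, hC, hφ⟩ := lin_bound φ
  filter_upwards [taylor_hat hf x (η := η / C) (by positivity)] with w hw
  have h1 := hφ (hat f ((ch n x).symm w) - hat f x - tA n f x w - (1 / 2 : ℝ) • tS n f x w w)
  rw [map_sub, map_sub, map_sub, h0, hA, map_smul, smul_eq_mul, sub_zero, sub_zero] at h1
  refine h1.trans ?_
  calc C * _ ≤ C * (η / C * ‖w‖ ^ 2) := by gcongr
    _ = η * ‖w‖ ^ 2 := by field_simp

/-- pull back of the second derivative by a functional -/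
noncomputable def phiS (n : ℕ) {M : Type} [TopologicalSpace M] [ChartedSpace (Eu n) M]
    {E : Type} [NormedAddCommGroup E] [InnerProductSpace ℝ E] (f : M → E) (x : M)
    (φ : (ℝ × E) →ₗ[ℝ] ℝ) : Eu n →ₗ[ℝ] Eu n →ₗ[ℝ] ℝ :=
  LinearMap.mk₂ ℝ (fun v w => φ (tS n f x v w))
    (fun v v' w => by rw [map_add, LinearMap.add_apply, map_add])
    (fun c v w => by rw [map_smul, LinearMap.smul_apply, map_smul])
    (fun v w w' => by rw [map_add, map_add])
    (fun c v w => by rw [map_smul, map_smul])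

omit [FiniteDimensional ℝ E] in
@[simp] theorem phiS_apply (x : M) (φ : (ℝ × E) →ₗ[ℝ] ℝ) (v w : Eu n) :
    phiS n f x φ v w = φ (tS n f x v w) := rfl

theorem strict_local (hf : ContMDiff (𝓡 n) 𝓘(ℝ, E) ∞ f) (x : M) (φ : (ℝ × E) →ₗ[ℝ] ℝ)
    (h0 : φ (hat f x) = 0) (hA : ∀ v, φ (tA n f x v) = 0)
    (hS : ∀ v, v ≠ 0 → 0 < φ (tS n f x v v)) :
    ∃ U : Set M, IsOpen U ∧ x ∈ U ∧ ∀ y ∈ U, y ≠ x → 0 < φ (hat f y) := by
  obtain ⟨c, hc, hcv⟩ := coercive (phiS n f x φ) hS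
  have h1 := phi_taylor hf x φ h0 hA (η := c / 4) (by positivity)
  obtain ⟨r, hr, hball⟩ := Metric.eventually_nhds_iff_ball.1 h1
  refine ⟨(ch n x).source ∩ (ch n x) ⁻¹' Metric.ball 0 r,
    (ch n x).isOpen_inter_preimage Metric.isOpen_ball, ⟨mem_ch_source x, ?_⟩, ?_⟩
  · rw [mem_preimage, ch_self]; exact Metric.mem_ball_self hr
  · rintro y ⟨hy1, hy2⟩ hyx
    set w := ch n x y with hw
    have hw0 : w ≠ 0 := by
      intro h
      apply hyx
      refine (ch n x).injOn hy1 (mem_ch_source x) ?_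
      rw [ch_self, ← hw, h]
    have hyw : (ch n x).symm w = y := (ch n x).left_inv hy1
    have h2 := hball w hy2
    rw [hyw] at h2
    have h3 := (abs_le.1 h2).1
    have h4 : c * ‖w‖ ^ 2 ≤ φ (tS n f x w w) := hcv w
    have h5 : 0 < ‖w‖ ^ 2 := by
      have := norm_pos_iff.2 hw0
      positivity
    nlinarith

/-- an isolated point of a preconnected set -/
theorem eq_singleton_of_isolated [T1Space M] {Z : Set M} (hZ : IsPreconnected Z) {x : M}
    (hx : x ∈ Z) {U : Set M} (hU : IsOpen U) (hxU : x ∈ U) (h : ∀ y ∈ U, y ∈ Z → y = x) :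
    ∀ y ∈ Z, y = x := by
  intro y hy
  by_contra hne
  obtain ⟨w, hw1, hw2, hw3⟩ := hZ U {x}ᶜ hU isOpen_compl_singleton (fun z hz => by
    by_cases hzx : z = x
    · subst hzx; exact Or.inl hxU
    · exact Or.inr hzx) ⟨x, hx, hxU⟩ ⟨y, hy, hne⟩
  exact hw3 (h w hw2 hw1)

theorem td_F3 [T1Space M] (hf : ContMDiff (𝓡 n) 𝓘(ℝ, E) ∞ f) (hn : 1 ≤ n)
    (hconn : ∀ (z : E) (t : ℝ), z ≠ 0 → IsPreconnected {x | t ≤ ⟪z, f x⟫_ℝ})
    (x : M) (φ : (ℝ × E) →ₗ[ℝ] ℝ) (h0 : φ (hat f x) = 0) (hA : ∀ v, φ (tA n f x v) = 0)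
    (hS : ∀ v, v ≠ 0 → 0 < φ (tS n f x v v)) (y : M) (hy : y ≠ x) : 0 < φ (hat f y) := by
  obtain ⟨c, z, hcz, hcz2⟩ := exists_cz (M := M) φ
  have hz : z ≠ 0 := by
    rintro rfl
    have : Nonempty (Fin n) := ⟨⟨0, hn⟩⟩
    obtain ⟨v, hv⟩ := exists_ne (0 : Eu n)
    have := hS v hv
    rw [tS_apply, hcz2] at this
    simp at this
  obtain ⟨U, hU, hxU, hpos⟩ := strict_local hf x φ h0 hA hS
  by_contra hcon
  push Not at hcon
  have hset : ∀ y, y ∈ {x | c ≤ ⟪-z, f x⟫_ℝ} ↔ φ (hat f y) ≤ 0 := by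
    intro y
    rw [mem_ofPred_eq, hcz f y, inner_neg_left]
    constructor <;> intro h <;> linarith
  refine hy (eq_singleton_of_isolated (hconn (-z) c (neg_ne_zero.2 hz)) ((hset x).2 h0.le) hU hxU
    (fun w hw1 hw2 => ?_) y ((hset y).2 hcon))
  by_contra hwx
  exact absurd (hpos w hw1 hwx) (not_lt.2 ((hset w).1 hw2))

/-- farthest points have definite supporting functionals -/
theorem farthest (hf : ContMDiff (𝓡 n) 𝓘(ℝ, E) ∞ f) (hinj : ∀ x, Function.Injective (fA n f x))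
    (c : E) (p : M) (hp : ∀ y, ‖f y - c‖ ≤ ‖f p - c‖) :
    ∃ ψ : (ℝ × E) →ₗ[ℝ] ℝ, ψ (hat f p) = 0 ∧ (∀ v, ψ (tA n f p v) = 0) ∧
      ∀ v, v ≠ 0 → 0 < ψ (tS n f p v v) := by
  set ψ : (ℝ × E) →ₗ[ℝ] ℝ := (⟪f p - c, f p⟫_ℝ • LinearMap.fst ℝ ℝ E) -
    ((innerSL ℝ (f p - c)).toLinearMap ∘ₗ LinearMap.snd ℝ ℝ E) with hψ
  have hψa : ∀ (r : ℝ) (w : E), ψ (r, w) = ⟪f p - c, f p⟫_ℝ * r - ⟪f p - c, w⟫_ℝ := by
    intro r w; simp [hψ, inner_sub_left]
  have hψf : ∀ y, ψ (hat f y) = ⟪f p - c, f p - f y⟫_ℝ := by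
    intro y
    rw [hat, hψa, mul_one, inner_sub_right]
  have hlow : ∀ y, (1 / 2 : ℝ) * ‖f p - f y‖ ^ 2 ≤ ψ (hat f y) := by
    intro y
    rw [hψf]
    have h1 : f y - c = (f p - c) - (f p - f y) := by abel
    have h2 := hp y
    have h3 : ‖f y - c‖ ^ 2 = ‖f p - c‖ ^ 2 - 2 * ⟪f p - c, f p - f y⟫_ℝ + ‖f p - f y‖ ^ 2 := by
      rw [h1, norm_sub_sq_real]
    have h4 : ‖f y - c‖ ^ 2 ≤ ‖f p - c‖ ^ 2 := by gcongr
    linarith
  have hψp : ψ (hat f p) = 0 := by rw [hψf, sub_self, inner_zero_right]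
  have hnn : ∀ y, 0 ≤ ψ (hat f y) := fun y => le_trans (by positivity) (hlow y)
  obtain ⟨hA, -⟩ := td_F1 hf p ψ hnn hψp
  refine ⟨ψ, hψp, hA, fun v hv => ?_⟩
  obtain ⟨w, hw, hw2⟩ := line_expansion hf p v
  have hAv : 0 < ‖fA n f p v‖ ^ 2 := by
    have : fA n f p v ≠ 0 := by
      intro h
      apply hv
      apply hinj p
      rw [h, map_zero]
    have := norm_pos_iff.2 this
    positivity
  -- limit of the inequality
  have hlim1 : Tendsto (fun t => ψ (w t)) (𝓝[≠] 0) (𝓝 (ψ (tS n f p v v))) := tendsto_lin ψ hw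
  have hlim2 : Tendsto (fun t : ℝ => ‖fA n f p v + (t / 2) • (w t).2‖ ^ 2) (𝓝[≠] 0)
      (𝓝 (‖fA n f p v + ((0 : ℝ) / 2) • (tS n f p v v).2‖ ^ 2)) := by
    refine ((tendsto_const_nhds.add (Tendsto.smul ?_ ?_)).norm).pow 2
    · exact ((tendsto_id.mono_left nhdsWithin_le_nhds).div_const 2)
    · exact (continuous_snd.tendsto _).comp hw
  rw [zero_div, zero_smul, add_zero] at hlim2
  have hle : ‖fA n f p v‖ ^ 2 ≤ ψ (tS n f p v v) := by
    refine le_of_tendsto_of_tendsto hlim2 hlim1 ?_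
    filter_upwards [self_mem_nhdsWithin] with t ht
    have ht' : t ≠ 0 := ht
    have h1 := hlow ((ch n p).symm (t • v))
    have h2 : ψ (hat f ((ch n p).symm (t • v))) = t ^ 2 / 2 * ψ (w t) := by
      rw [hw2 t, map_add, map_add, hψp, map_smul, hA, map_smul, smul_eq_mul, smul_eq_mul]
      ring
    have h3 : f ((ch n p).symm (t • v)) = f p + t • (fA n f p v + (t / 2) • (w t).2) := by
      have := congrArg Prod.snd (hw2 t)
      simp only [hat, Prod.snd_add, Prod.smul_snd, tA_apply] at this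
      rw [this, smul_add, smul_smul, add_assoc]
      congr 3
      ring
    rw [h2, h3] at h1
    have h4 : f p - (f p + t • (fA n f p v + (t / 2) • (w t).2)) =
        - (t • (fA n f p v + (t / 2) • (w t).2)) := by abel
    rw [h4, norm_neg, norm_smul, mul_pow, Real.norm_eq_abs, sq_abs] at h1
    have h5 : 0 < t ^ 2 := by positivity
    change ‖fA n f p v + (t / 2) • (w t).2‖ ^ 2 ≤ ψ (w t)
    have h6 : t ^ 2 * ‖fA n f p v + (t / 2) • (w t).2‖ ^ 2 ≤ t ^ 2 * ψ (w t) := by linarith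
    exact le_of_mul_le_mul_left h6 h5
  linarith

theorem td_plus [CompactSpace M] [Nonempty M] (hf : ContMDiff (𝓡 n) 𝓘(ℝ, E) ∞ f)
    (hinj : ∀ x, Function.Injective (fA n f x))
    (hs : ∀ (z : E) (t : ℝ), z ≠ 0 → ∃ x, ⟪z, f x⟫_ℝ ≠ t) (φ : (ℝ × E) →ₗ[ℝ] ℝ)
    (h : ∀ x, (∃ ψ : (ℝ × E) →ₗ[ℝ] ℝ, ψ (hat f x) = 0 ∧ (∀ v, ψ (tA n f x v) = 0) ∧
      ∀ v, v ≠ 0 → 0 < ψ (tS n f x v v)) → φ (hat f x) = 0) : φ = 0 := by
  have hcont : Continuous f := hf.continuous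
  have hfar : ∀ c : E, ∃ p, (∀ y, ‖f y - c‖ ≤ ‖f p - c‖) ∧ φ (hat f p) = 0 := by
    intro c
    obtain ⟨p, -, hp⟩ := isCompact_univ.exists_isMaxOn (univ_nonempty (α := M))
      ((hcont.sub continuous_const).norm.continuousOn : ContinuousOn (fun y => ‖f y - c‖) univ)
    have hp' : ∀ y, ‖f y - c‖ ≤ ‖f p - c‖ := fun y => hp (mem_univ y)
    exact ⟨p, hp', h p (farthest hf hinj c p hp')⟩
  obtain ⟨c, z, hcz, hcz2⟩ := exists_cz (M := M) φ
  -- bound
  obtain ⟨K, hK⟩ : ∃ K, ∀ y, ‖f y‖ ^ 2 ≤ K := by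
    obtain ⟨p, -, hp⟩ := isCompact_univ.exists_isMaxOn (univ_nonempty (α := M))
      ((hcont.norm.pow 2).continuousOn : ContinuousOn (fun y => ‖f y‖ ^ 2) univ)
    exact ⟨‖f p‖ ^ 2, fun y => hp (mem_univ y)⟩
  have key : ∀ s : ℝ, s = 1 ∨ s = -1 → ∀ y, s * φ (hat f y) ≤ 0 := by
    intro s hs y
    have hs2 : s * s = 1 := by rcases hs with rfl | rfl <;> norm_num
    have h1 : ∀ R : ℝ, 0 < R → s * φ (hat f y) ≤ K / (2 * R) := by
      intro R hR
      obtain ⟨p, hp, hp0⟩ := hfar (-((s * R) • z))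
      have h2 := hp y
      have h3 : ‖f y - -((s * R) • z)‖ ^ 2 ≤ ‖f p - -((s * R) • z)‖ ^ 2 := by gcongr
      rw [sub_neg_eq_add, sub_neg_eq_add, norm_add_sq_real, norm_add_sq_real,
        real_inner_smul_right, real_inner_smul_right, real_inner_comm z (f y),
        real_inner_comm z (f p)] at h3
      rw [hcz] at hp0 ⊢
      have h4 : ⟪z, f p⟫_ℝ = -c := by linarith
      rw [h4] at h3
      have h5 := hK p
      have h6 : 0 ≤ ‖f y‖ ^ 2 := by positivity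
      rw [le_div_iff₀ (by positivity)]
      nlinarith
    by_contra hcon
    push Not at hcon
    have hK0 : 0 ≤ K := le_trans (by positivity) (hK y)
    have h2 := h1 ((K + 1) / (s * φ (hat f y))) (by positivity)
    have h3 : K / (2 * ((K + 1) / (s * φ (hat f y)))) = (s * φ (hat f y)) * (K / (2 * (K + 1))) := by
      field_simp
    rw [h3] at h2
    have h4 : K / (2 * (K + 1)) < 1 := by
      rw [div_lt_one (by positivity)]
      linarith
    nlinarith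
  have hall : ∀ y, φ (hat f y) = 0 := by
    intro y
    have h1 := key 1 (Or.inl rfl) y
    have h2 := key (-1) (Or.inr rfl) y
    linarith
  have hz : z = 0 := by
    by_contra hz
    obtain ⟨x, hx⟩ := hs z (-c) hz
    apply hx
    have := hall x
    rw [hcz] at this
    linarith
  subst hz
  obtain ⟨x₀⟩ := (inferInstance : Nonempty M)
  have hc : c = 0 := by
    have := hall x₀
    rw [hcz] at this
    simpa using this
  subst hc
  refine LinearMap.ext fun X => ?_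
  obtain ⟨r, w⟩ := X
  rw [hcz2]
  simp

end

end Pool.Agent.W595.Plane
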