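import Pool.Agent.W595.Plane.Defs

/-!
# Interfaces: tight data, coordinates
-/

set_option autoImplicit false

namespace Pool.Agent.W595.Plane

open scoped InnerProductSpace
open Set

/-- Euclidean space of dimension `n`. -/
abbrev Eu (n : ℕ) := EuclideanSpace ℝ (Fin n)

/-- Linear-algebraic and topological data of a tight substantial embedding of a manifold like a
projective plane, see the comments at the fields. `V` is `ℝ × E`, `hat x = (1, f x)`, `A x` and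
`S x` are the first and second derivative of `f` at `x` in a chart. -/
structure TD (d : ℕ) (M V T : Type) [TopologicalSpace M] [AddCommGroup V] [Module ℝ V]
    [FiniteDimensional ℝ V] [AddCommGroup T] [Module ℝ T] [FiniteDimensional ℝ T] where
  hat : M → V
  A : M → T →ₗ[ℝ] V
  S : M → T →ₗ[ℝ] T →ₗ[ℝ] V
  d_pos : 2 ≤ d
  symm : ∀ x v w, S x v w = S x w v
  imm : ∀ x (c : ℝ) v, c • hat x + A x v = 0 → c = 0 ∧ v = 0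
  dimT : Module.finrank ℝ T = 2 * d
  dimV : Module.finrank ℝ V = 3 * d + 3
  cont : ∀ φ : V →ₗ[ℝ] ℝ, Continuous fun x => φ (hat x)
  /-- first and second order conditions at a zero of a nonnegative functional -/
  F1 : ∀ x (φ : V →ₗ[ℝ] ℝ), (∀ y, 0 ≤ φ (hat y)) → φ (hat x) = 0 →
    (∀ v, φ (A x v) = 0) ∧ (∀ v, 0 ≤ φ (S x v v))
  /-- first and second order conditions for a quadratic form vanishing on the cone over `M` -/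
  F2 : ∀ (Q : V →ₗ[ℝ] V →ₗ[ℝ] ℝ), (∀ X Y, Q X Y = Q Y X) → (∀ y, Q (hat y) (hat y) = 0) →
    ∀ x v, Q (hat x) (A x v) = 0 ∧ Q (A x v) (A x v) + Q (hat x) (S x v v) = 0
  /-- fourth order condition if moreover the tangent space is in the radical -/
  F4 : ∀ (Q : V →ₗ[ℝ] V →ₗ[ℝ] ℝ), (∀ X Y, Q X Y = Q Y X) → (∀ y, Q (hat y) (hat y) = 0) →
    ∀ x, (∀ Y, Q (hat x) Y = 0) → (∀ v Y, Q (A x v) Y = 0) → ∀ v, Q (S x v v) (S x v v) = 0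
  /-- strict local minima are strict global minima -/
  F3 : ∀ x (φ : V →ₗ[ℝ] ℝ), φ (hat x) = 0 → (∀ v, φ (A x v) = 0) →
    (∀ v, v ≠ 0 → 0 < φ (S x v v)) → ∀ y, y ≠ x → 0 < φ (hat y)
  /-- nondegenerate critical points have index `0`, `d` or `2 d` -/
  idx : ∀ x (φ : V →ₗ[ℝ] ℝ), φ (hat x) = 0 → (∀ v, φ (A x v) = 0) →
    ∀ (b : Module.Basis (Fin (2 * d)) ℝ T) (ε : Fin (2 * d) → ℝ), (∀ i, ε i ≠ 0) →
    (∀ i j, φ (S x (b i) (b j)) = if i = j then ε i else 0) →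
    (Finset.univ.filter fun i => ε i < 0).card = 0 ∨
      (Finset.univ.filter fun i => ε i < 0).card = d ∨
      (Finset.univ.filter fun i => ε i < 0).card = 2 * d
  /-- any two points are in a common top set -/
  common : ∀ x y, ∃ φ : V →ₗ[ℝ] ℝ, φ ≠ 0 ∧ (∀ m, 0 ≤ φ (hat m)) ∧ φ (hat x) = 0 ∧
    φ (hat y) = 0
  /-- the points with a definite supporting functional span -/
  plus : ∀ φ : V →ₗ[ℝ] ℝ, (∀ x, (∃ ψ : V →ₗ[ℝ] ℝ, ψ (hat x) = 0 ∧ (∀ v, ψ (A x v) = 0) ∧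
    ∀ v, v ≠ 0 → 0 < ψ (S x v v)) → φ (hat x) = 0) → φ = 0
  /-- top sets of nullity `d` are `d`-spheres, in the sense that an injective continuous map to
  the `d`-sphere is onto -/
  full : ∀ x (φ ψ : V →ₗ[ℝ] ℝ), (∀ y, 0 ≤ φ (hat y)) → φ (hat x) = 0 → ψ (hat x) = 0 →
    (∀ v, ψ (A x v) = 0) →
    ∀ (b : Module.Basis (Fin (2 * d)) ℝ T) (ε : Fin (2 * d) → ℝ), (∀ i, 0 ≤ ε i) →
    (∀ i j, φ (S x (b i) (b j)) = if i = j then ε i else 0) →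
    (∀ i j, ψ (S x (b i) (b j)) = if i = j then 1 else 0) →
    (Finset.univ.filter fun i => ε i = 0).card = d →
    ∀ g : M → Eu (d + 1), ContinuousOn g {y | φ (hat y) = 0} →
      InjOn g {y | φ (hat y) = 0} → (∀ y, φ (hat y) = 0 → ‖g y‖ = 1) →
      ∀ s : Eu (d + 1), ‖s‖ = 1 → ∃ y, φ (hat y) = 0 ∧ g y = s

/-- The algebraic description of the cone over `f(M)`: there are linear coordinates
`(ξ₀, ξ₁, ξ₂), (a₀, a₁, a₂)` of `ℝ × E` and a bilinear product `B` with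
`‖B a b‖ = ‖a‖ ‖b‖` such that the cone over `M` is given by
`ξ₁ ξ₂ = ‖a₀‖²`, `ξ₂ ξ₀ = ‖a₁‖²`, `ξ₀ ξ₁ = ‖a₂‖²`, `ξ₀ a₀ = B a₁ a₂`. -/
def Geo (d : ℕ) {M E : Type} [AddCommGroup E] [Module ℝ E] (f : M → E) : Prop :=
  ∃ (Ψ : ((ℝ × ℝ × ℝ) × (Eu d × Eu d × Eu d)) ≃ₗ[ℝ] (ℝ × E)) (B : Eu d →ₗ[ℝ] Eu d →ₗ[ℝ] Eu d),
    (∀ a b, ‖B a b‖ = ‖a‖ * ‖b‖) ∧
    (∀ m, ∃ (ξ₀ ξ₁ ξ₂ : ℝ) (a₀ a₁ a₂ : Eu d), Ψ ((ξ₀, ξ₁, ξ₂), (a₀, a₁, a₂)) = ((1 : ℝ), f m) ∧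
      0 ≤ ξ₀ ∧ 0 ≤ ξ₁ ∧ 0 ≤ ξ₂ ∧ ξ₁ * ξ₂ = ‖a₀‖ ^ 2 ∧ ξ₂ * ξ₀ = ‖a₁‖ ^ 2 ∧
      ξ₀ * ξ₁ = ‖a₂‖ ^ 2 ∧ ξ₀ • a₀ = B a₁ a₂) ∧
    (∀ a₁ a₂ : Eu d, ∃ (m : M) (c : ℝ), c ≠ 0 ∧
      Ψ ((1, ‖a₂‖ ^ 2, ‖a₁‖ ^ 2), (B a₁ a₂, a₁, a₂)) = c • ((1 : ℝ), f m)) ∧
    (∀ (ξ₁ ξ₂ : ℝ) (a₀ : Eu d), 0 ≤ ξ₁ → 0 ≤ ξ₂ → (ξ₁ ≠ 0 ∨ ξ₂ ≠ 0) → ξ₁ * ξ₂ = ‖a₀‖ ^ 2 →
      ∃ (m : M) (c : ℝ), c ≠ 0 ∧ Ψ ((0, ξ₁, ξ₂), (a₀, 0, 0)) = c • ((1 : ℝ), f m))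

end Pool.Agent.W595.Plane
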